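import Pool.Agent.TH708.Dec.Upper

/-!
# Job 988: polynomial-size circuits of depth `O(log^2 n)` and formal degree one for the typed
bracket language (balanced parsing by contexts)
-/

set_option autoImplicit false

namespace Pool.Agent.TH822.J988

open Pool.Agent.TH708.Dec Finset

/-! ### contexts -/

/-- balanced contexts: the word on `[i,k)` followed by the word on `[l,j)`, with a hole between -/
inductive Ctx (w : ℕ → Letter) (k l : ℕ) : ℕ → ℕ → Prop
  | nil : Ctx w k l k l
  | left (i i1 j : ℕ) : Bal w i i1 → Ctx w k l i1 j → Ctx w k l i j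
  | right (i j1 j : ℕ) : Ctx w k l i j1 → Bal w j1 j → Ctx w k l i j
  | wrap (i j : ℕ) (t : Bool) : w i = Letter.opn t → w j = Letter.cls t →
      Ctx w k l (i + 1) j → Ctx w k l i (j + 1)

lemma bal_le {w : ℕ → Letter} {i j : ℕ} (h : Bal w i j) : i ≤ j := (bal_ht h).1

lemma ctx_le {w : ℕ → Letter} {k l i j : ℕ} (h : Ctx w k l i j) : i ≤ k ∧ l ≤ j := by
  induction h with
  | nil => exact ⟨le_rfl, le_rfl⟩
  | left i i1 j hb _ ih => have := bal_le hb; omega
  | right i j1 j _ hb ih => have := bal_le hb; omega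
  | wrap i j t _ _ _ ih => omega

lemma bal_append {w : ℕ → Letter} {i j k : ℕ} (h1 : Bal w i j) (h2 : Bal w j k) : Bal w i k := by
  induction h1 with
  | nil i => exact h2
  | skip i j hi _ ih => exact Bal.skip _ _ hi (ih h2)
  | pair i m j t hi hk h3 h4 ih1 ih2 => exact Bal.pair _ m _ t hi hk h3 (ih2 h2)

lemma ctx_fill {w : ℕ → Letter} {k l i j : ℕ} (h : Ctx w k l i j) (hb : Bal w k l) :
    Bal w i j := by
  induction h with
  | nil => exact hb
  | left i i1 j h1 _ ih => exact bal_append h1 ih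
  | right i j1 j _ h1 ih => exact bal_append ih h1
  | wrap i j t h1 h2 _ ih => exact Bal.pair _ j _ t h1 h2 ih (Bal.nil _)

lemma ctx_comp {w : ℕ → Letter} {a c i j k l : ℕ} (h : Ctx w a c i j) (h' : Ctx w k l a c) :
    Ctx w k l i j := by
  induction h with
  | nil => exact h'
  | left i i1 j h1 _ ih => exact Ctx.left _ _ _ h1 ih
  | right i j1 j _ h1 ih => exact Ctx.right _ _ _ ih h1
  | wrap i j t h1 h2 _ ih => exact Ctx.wrap _ _ t h1 h2 ih

lemma ctx_of_bal {w : ℕ → Letter} {i j : ℕ} (h : Bal w i j) : Ctx w j j i j :=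
  Ctx.left _ _ _ h Ctx.nil

lemma bal_of_ctx {w : ℕ → Letter} {i j : ℕ} (h : Ctx w j j i j) : Bal w i j :=
  ctx_fill h (Bal.nil _)

/-- splitting a balanced segment -/
lemma D1 {w : ℕ → Letter} {i j : ℕ} (h : Bal w i j) (T : ℕ) (hT : T < j - i) :
    ∃ k l, k ≤ l ∧ Bal w k l ∧ Ctx w k l i j ∧ l - k ≤ T ∧ T ≤ 2 * (l - k) + 1 := by
  induction h with
  | nil i => omega
  | skip i j hi hb ih =>
    have hij := bal_le hb
    have h1 : Bal w i (i + 1) := Bal.skip _ _ hi (Bal.nil _)
    by_cases hc : T < j - (i + 1)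
    · obtain ⟨k, l, hkl, hb', hctx, h2, h3⟩ := ih hc
      exact ⟨k, l, hkl, hb', Ctx.left _ _ _ h1 hctx, h2, h3⟩
    · exact ⟨i + 1, j, hij, hb, Ctx.left _ _ _ h1 Ctx.nil, by omega, by omega⟩
  | pair i m j t hi hm hb1 hb2 ih1 ih2 =>
    have h1 := bal_le hb1
    have h2 := bal_le hb2
    have hp : Bal w i (m + 1) := Bal.pair _ m _ t hi hm hb1 (Bal.nil _)
    by_cases hc1 : T < m - (i + 1)
    · obtain ⟨k, l, hkl, hb', hctx, h3, h4⟩ := ih1 hc1
      exact ⟨k, l, hkl, hb', Ctx.right _ _ _ (Ctx.wrap _ _ t hi hm hctx) hb2, h3, h4⟩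
    · by_cases hc2 : T < j - (m + 1)
      · obtain ⟨k, l, hkl, hb', hctx, h3, h4⟩ := ih2 hc2
        exact ⟨k, l, hkl, hb', Ctx.left _ _ _ hp hctx, h3, h4⟩
      · by_cases hc : j - (m + 1) ≤ m - (i + 1)
        · exact ⟨i + 1, m, h1, hb1, Ctx.right _ _ _ (Ctx.wrap _ _ t hi hm Ctx.nil) hb2,
            by omega, by omega⟩
        · exact ⟨m + 1, j, h2, hb2, Ctx.left _ _ _ hp Ctx.nil, by omega, by omega⟩

/-- one step between contexts -/
def Step (w : ℕ → Letter) (a b e c : ℕ) : Prop :=
  (e = c ∧ Bal w a b) ∨ (a = b ∧ Bal w e c) ∨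
    (b = a + 1 ∧ c = e + 1 ∧ ∃ t, w a = Letter.opn t ∧ w e = Letter.cls t)

lemma step_comp {w : ℕ → Letter} {a b e c k l : ℕ} (h : Step w a b e c) (h' : Ctx w k l b e) :
    Ctx w k l a c := by
  rcases h with ⟨rfl, hb⟩ | ⟨rfl, hb⟩ | ⟨rfl, rfl, t, h1, h2⟩
  · exact Ctx.left _ _ _ hb h'
  · exact Ctx.right _ _ _ h' hb
  · exact Ctx.wrap _ _ t h1 h2 h'

/-- splitting a context -/
lemma D2 {w : ℕ → Letter} {k l i j : ℕ} (h : Ctx w k l i j) : ∀ T : ℕ, T < (k - i) + (j - l) →
    ∃ a b e c, a ≤ b ∧ e ≤ c ∧ Ctx w a c i j ∧ Ctx w k l b e ∧ Step w a b e c ∧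
      (a - i) + (j - c) ≤ T ∧ T < (b - i) + (j - e) := by
  induction h with
  | nil => intro T hT; omega
  | left i i1 j hb hc ih =>
    intro T hT
    have h1 := bal_le hb
    have h2 := ctx_le hc
    by_cases h3 : T < i1 - i
    · exact ⟨i, i1, j, j, h1, le_rfl, Ctx.nil, hc, Or.inl ⟨rfl, hb⟩, by omega, by omega⟩
    · obtain ⟨a, b, e, c, hab, hec, hA, hB, hS, h4, h5⟩ := ih (T - (i1 - i)) (by omega)
      have h6 := ctx_le hA
      have h7 := ctx_le hB
      exact ⟨a, b, e, c, hab, hec, Ctx.left _ _ _ hb hA, hB, hS, by omega, by omega⟩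
  | right i j1 j hc hb ih =>
    intro T hT
    have h1 := bal_le hb
    have h2 := ctx_le hc
    by_cases h3 : T < j - j1
    · exact ⟨i, i, j1, j, le_rfl, h1, Ctx.nil, hc, Or.inr (Or.inl ⟨rfl, hb⟩), by omega, by omega⟩
    · obtain ⟨a, b, e, c, hab, hec, hA, hB, hS, h4, h5⟩ := ih (T - (j - j1)) (by omega)
      have h6 := ctx_le hA
      have h7 := ctx_le hB
      exact ⟨a, b, e, c, hab, hec, Ctx.right _ _ _ hA hb, hB, hS, by omega, by omega⟩
  | wrap i j t hi hj hc ih =>
    intro T hT
    have h2 := ctx_le hc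
    by_cases h3 : T < 2
    · exact ⟨i, i + 1, j, j + 1, by omega, by omega, Ctx.nil, hc,
        Or.inr (Or.inr ⟨rfl, rfl, t, hi, hj⟩), by omega, by omega⟩
    · obtain ⟨a, b, e, c, hab, hec, hA, hB, hS, h4, h5⟩ := ih (T - 2) (by omega)
      have h6 := ctx_le hA
      have h7 := ctx_le hB
      exact ⟨a, b, e, c, hab, hec, Ctx.wrap _ _ t hi hj hA, hB, hS, by omega, by omega⟩

/-! ### formulas -/

section
variable {I : Type}

/-- balanced OR -/
def bor : ℕ → (ℕ → Fm I) → ℕ → Fm I
  | 0, f, i => f i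
  | d + 1, f, i => Fm.or (bor d f (2 * i)) (bor d f (2 * i + 1))

lemma bor_eval (z : I → Bool) (f : ℕ → Fm I) : ∀ d i : ℕ,
    (bor d f i).eval z = true ↔ ∃ t < 2 ^ d, (f (i * 2 ^ d + t)).eval z = true := by
  intro d
  induction d with
  | zero =>
    intro i
    simp only [bor, pow_zero, mul_one]
    constructor
    · intro h; exact ⟨0, by norm_num, h⟩
    · rintro ⟨t, ht, h⟩
      have : t = 0 := by omega
      subst this
      exact h
  | succ d ih =>
    intro i
    simp only [bor, Fm.eval, Bool.or_eq_true, ih]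
    have hp : 2 ^ (d + 1) = 2 ^ d + 2 ^ d := by rw [pow_succ]; ring
    constructor
    · rintro (⟨t, ht, h⟩ | ⟨t, ht, h⟩)
      · refine ⟨t, by omega, ?_⟩
        rw [show i * 2 ^ (d + 1) + t = 2 * i * 2 ^ d + t by rw [pow_succ]; ring]
        exact h
      · refine ⟨2 ^ d + t, by omega, ?_⟩
        rw [show i * 2 ^ (d + 1) + (2 ^ d + t) = (2 * i + 1) * 2 ^ d + t by rw [pow_succ]; ring]
        exact h
    · rintro ⟨t, ht, h⟩
      by_cases hc : t < 2 ^ d
      · left
        refine ⟨t, hc, ?_⟩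
        rw [show 2 * i * 2 ^ d + t = i * 2 ^ (d + 1) + t by rw [pow_succ]; ring]
        exact h
      · right
        refine ⟨t - 2 ^ d, by omega, ?_⟩
        rw [show (2 * i + 1) * 2 ^ d + (t - 2 ^ d) = i * 2 ^ (d + 1) + t by
          have : 2 ^ d + (t - 2 ^ d) = t := by omega
          calc (2 * i + 1) * 2 ^ d + (t - 2 ^ d) = 2 * i * 2 ^ d + (2 ^ d + (t - 2 ^ d)) := by ring
            _ = 2 * i * 2 ^ d + t := by rw [this]
            _ = _ := by rw [pow_succ]; ring]
        exact h

lemma bor_depth (f : ℕ → Fm I) (B : ℕ) (h : ∀ t, (f t).depth ≤ B) : ∀ d i : ℕ,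
    (bor d f i).depth ≤ B + d := by
  intro d
  induction d with
  | zero => intro i; exact h i
  | succ d ih =>
    intro i
    simp only [bor, Fm.depth]
    have h1 := ih (2 * i)
    have h2 := ih (2 * i + 1)
    omega

lemma bor_deg [DecidableEq I] (v : I) (f : ℕ → Fm I) (B : ℕ) (h : ∀ t, (f t).deg v ≤ B) :
    ∀ d i : ℕ, (bor d f i).deg v ≤ B := by
  intro d
  induction d with
  | zero => intro i; exact h i
  | succ d ih =>
    intro i
    simp only [bor, Fm.deg]
    exact max_le (ih _) (ih _)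

open Classical in
lemma cost_and (S : Finset (Fm I)) (F G : Fm I) :
    (sub (Fm.and F G) \ S).card ≤ 1 + (sub F \ S).card + (sub G \ S).card := by
  have h : sub (Fm.and F G) \ S ⊆ {Fm.and F G} ∪ (sub F \ S) ∪ (sub G \ S) := by
    intro x hx
    simp only [sub, mem_sdiff, mem_insert, mem_union, mem_singleton] at hx ⊢
    tauto
  refine (card_le_card h).trans ((card_union_le _ _).trans ?_)
  have := card_union_le {Fm.and F G} (sub F \ S)
  rw [card_singleton] at this
  omega

open Classical in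
lemma cost_or (S : Finset (Fm I)) (F G : Fm I) :
    (sub (Fm.or F G) \ S).card ≤ 1 + (sub F \ S).card + (sub G \ S).card := by
  have h : sub (Fm.or F G) \ S ⊆ {Fm.or F G} ∪ (sub F \ S) ∪ (sub G \ S) := by
    intro x hx
    simp only [sub, mem_sdiff, mem_insert, mem_union, mem_singleton] at hx ⊢
    tauto
  refine (card_le_card h).trans ((card_union_le _ _).trans ?_)
  have := card_union_le {Fm.or F G} (sub F \ S)
  rw [card_singleton] at this
  omega

open Classical in
lemma cost_lit (S : Finset (Fm I)) (i : I) (b : Bool) : (sub (Fm.lit i b) \ S).card ≤ 1 := by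
  refine (card_le_card sdiff_subset).trans ?_
  simp [sub]

open Classical in
lemma cost_cst (S : Finset (Fm I)) (b : Bool) : (sub (Fm.cst b : Fm I) \ S).card ≤ 1 := by
  refine (card_le_card sdiff_subset).trans ?_
  simp [sub]

open Classical in
lemma cost_bor (S : Finset (Fm I)) (f : ℕ → Fm I) (B : ℕ)
    (h : ∀ t, (sub (f t) \ S).card ≤ B) : ∀ d i : ℕ,
    (sub (bor d f i) \ S).card + 1 ≤ 2 ^ d * (B + 1) := by
  intro d
  induction d with
  | zero => intro i; simpa [bor] using h i
  | succ d ih =>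
    intro i
    have h1 := ih (2 * i)
    have h2 := ih (2 * i + 1)
    have h3 := cost_or S (bor d f (2 * i)) (bor d f (2 * i + 1))
    have h4 : 2 ^ (d + 1) * (B + 1) = 2 ^ d * (B + 1) + 2 ^ d * (B + 1) := by
      rw [pow_succ]; ring
    rw [h4]
    simp only [bor]
    omega

end

variable (n : ℕ)

/-- families of formulas indexed by quadruples -/
abbrev Fam : Type := ℕ → ℕ → ℕ → ℕ → Fm (Fin n × Fin 3)

/-- contexts of size at most two, without the case of two neutral letters or `()` on one side -/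
def base : Fam n := fun i k l j =>
  if k - i = 0 ∧ j - l = 0 then Fm.cst true
  else if k - i = 1 ∧ j - l = 0 then skipF n i
  else if k - i = 0 ∧ j - l = 1 then skipF n l
  else if k - i = 1 ∧ j - l = 1 then pairF n i l
  else Fm.cst false

variable {n}

/-- the step -/
def stp (G : Fam n) (a b e c : ℕ) : Fm (Fin n × Fin 3) :=
  if e = c then G a b b b
  else if a = b then G e c c c
  else if b = a + 1 ∧ c = e + 1 then pairF n a e
  else Fm.cst false

/-- plain splitting -/
def pln (G : Fam n) (i k l j a b : ℕ) : Fm (Fin n × Fin 3) :=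
  if k = j ∧ l = j ∧ i ≤ a ∧ a ≤ b ∧ b ≤ j then Fm.and (G i a b j) (G a b b b) else Fm.cst false

/-- splitting of contexts -/
def trm (G : Fam n) (i k l j a b e c : ℕ) : Fm (Fin n × Fin 3) :=
  if i ≤ a ∧ a ≤ b ∧ b ≤ k ∧ l ≤ e ∧ e ≤ c ∧ c ≤ j then
    Fm.and (Fm.and (G i a c j) (stp G a b e c)) (G b k l e)
  else Fm.cst false

/-- one term -/
def tm (G : Fam n) (i k l j t : ℕ) : Fm (Fin n × Fin 3) :=
  Fm.or (pln G i k l j t.unpair.1.unpair.1 t.unpair.1.unpair.2)
    (trm G i k l j t.unpair.1.unpair.1 t.unpair.1.unpair.2 t.unpair.2.unpair.1 t.unpair.2.unpair.2)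

variable (n)

/-- the formulas -/
def F (d : ℕ) : ℕ → Fam n
  | 0 => base n
  | m + 1 => fun i k l j => Fm.or (F d m i k l j) (bor d (tm (F d m) i k l j) 0)

variable {n}

lemma F_succ (d m i k l j : ℕ) : F n d (m + 1) i k l j =
    Fm.or (F n d m i k l j) (bor d (tm (F n d m) i k l j) 0) := rfl

/-! ### soundness -/

lemma sound (d : ℕ) (z : Fin n × Fin 3 → Bool) : ∀ m i k l j : ℕ, i ≤ k → k ≤ l → l ≤ j → j ≤ n →
    (F n d m i k l j).eval z = true → Ctx (word z) k l i j := by
  intro m
  induction m with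
  | zero =>
    intro i k l j hik hkl hlj hjn h
    simp only [F, base] at h
    split_ifs at h with h1 h2 h3 h4
    · have e1 : k = i := by omega
      have e2 : j = l := by omega
      subst e1 e2
      exact Ctx.nil
    · have e1 : k = i + 1 := by omega
      have e2 : j = l := by omega
      subst e1 e2
      rw [skip_iff z (by omega)] at h
      exact Ctx.left _ _ _ (Bal.skip _ _ h (Bal.nil _)) Ctx.nil
    · have e1 : k = i := by omega
      have e2 : j = l + 1 := by omega
      subst e1 e2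
      rw [skip_iff z (by omega)] at h
      exact Ctx.right _ _ _ Ctx.nil (Bal.skip _ _ h (Bal.nil _))
    · have e1 : k = i + 1 := by omega
      have e2 : j = l + 1 := by omega
      subst e1 e2
      rw [pair_iff z (by omega) (by omega)] at h
      obtain ⟨t, h5, h6⟩ := h
      exact Ctx.wrap _ _ t h5 h6 Ctx.nil
    · simp [Fm.eval] at h
  | succ m ih =>
    intro i k l j hik hkl hlj hjn h
    rw [F_succ] at h
    simp only [Fm.eval, Bool.or_eq_true, bor_eval] at h
    rcases h with h | ⟨t, _, h⟩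
    · exact ih i k l j hik hkl hlj hjn h
    · unfold tm at h
      simp only [Fm.eval, Bool.or_eq_true] at h
      generalize t.unpair = t' at h
      generalize t'.2.unpair = ec at h
      generalize t'.1.unpair = ab at h
      obtain ⟨a, b⟩ := ab
      obtain ⟨e, c⟩ := ec
      generalize 0 * 2 ^ d + t = t0 at h
      generalize t0.unpair = u at h
      obtain ⟨u1, u2⟩ := u
      simp only at h
      generalize u1.unpair = ab at h
      generalize u2.unpair = ec at h
      obtain ⟨a, b⟩ := ab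
      obtain ⟨e, c⟩ := ec
      simp only at h
      rcases h with h | h
      · unfold pln at h
        split_ifs at h with h1
        · obtain ⟨rfl, rfl, h2, h3, h4⟩ := h1
          simp only [Fm.eval, Bool.and_eq_true] at h
          have h5 := ih i a b l h2 h3 h4 hjn h.1
          have h6 := ih a b b b h3 le_rfl le_rfl (by omega) h.2
          exact ctx_of_bal (ctx_fill h5 (bal_of_ctx h6))
        · simp [Fm.eval] at h
      · unfold trm at h
        split_ifs at h with h1
        · obtain ⟨h2, h3, h4, h5, h6, h7⟩ := h1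
          simp only [Fm.eval, Bool.and_eq_true] at h
          obtain ⟨⟨h8, h9⟩, h10⟩ := h
          have hA := ih i a c j h2 (by omega) h7 hjn h8
          have hB := ih b k l e h4 hkl h5 (by omega) h10
          refine ctx_comp hA (step_comp ?_ hB)
          unfold stp at h9
          split_ifs at h9 with k1 k2 k3
          · exact Or.inl ⟨k1, bal_of_ctx (ih a b b b h3 le_rfl le_rfl (by omega) h9)⟩
          · exact Or.inr (Or.inl ⟨k2, bal_of_ctx (ih e c c c h6 le_rfl le_rfl (by omega) h9)⟩)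
          · rw [pair_iff z (by omega) (by omega)] at h9
            exact Or.inr (Or.inr ⟨k3.1, k3.2, h9⟩)
          · simp [Fm.eval] at h9
        · simp [Fm.eval] at h

/-! ### completeness -/

lemma pair_bound {n a b c e : ℕ} (ha : a ≤ n) (hb : b ≤ n) (he : e ≤ n) (hc : c ≤ n) :
    Nat.pair (Nat.pair a b) (Nat.pair e c) < (n + 1) ^ 4 := by
  have h1 : Nat.pair a b < (n + 1) ^ 2 := by
    refine (Nat.pair_lt_max_add_one_sq a b).trans_le ?_
    apply Nat.pow_le_pow_left
    have := max_le ha hb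
    omega
  have h2 : Nat.pair e c < (n + 1) ^ 2 := by
    refine (Nat.pair_lt_max_add_one_sq e c).trans_le ?_
    apply Nat.pow_le_pow_left
    have := max_le he hc
    omega
  refine (Nat.pair_lt_max_add_one_sq _ _).trans_le ?_
  have h3 : max (Nat.pair a b) (Nat.pair e c) + 1 ≤ (n + 1) ^ 2 := by
    have := max_lt h1 h2
    omega
  calc (max (Nat.pair a b) (Nat.pair e c) + 1) ^ 2 ≤ ((n + 1) ^ 2) ^ 2 :=
        Nat.pow_le_pow_left h3 2
    _ = (n + 1) ^ 4 := by rw [← pow_mul]

lemma of_stay {d m i k l j : ℕ} {z : Fin n × Fin 3 → Bool}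
    (h : (F n d m i k l j).eval z = true) : (F n d (m + 1) i k l j).eval z = true := by
  rw [F_succ]
  simp only [Fm.eval, Bool.or_eq_true]
  exact Or.inl h

lemma of_le {d m m' i k l j : ℕ} {z : Fin n × Fin 3 → Bool} (hm : m ≤ m')
    (h : (F n d m i k l j).eval z = true) : (F n d m' i k l j).eval z = true := by
  induction m', hm using Nat.le_induction with
  | base => exact h
  | succ m' _ ih => exact of_stay ih

lemma of_pln {d m i j a b : ℕ} {z : Fin n × Fin 3 → Bool} (hd : (n + 1) ^ 4 ≤ 2 ^ d)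
    (hjn : j ≤ n) (h1 : i ≤ a) (h2 : a ≤ b) (h3 : b ≤ j)
    (hA : (F n d m i a b j).eval z = true) (hB : (F n d m a b b b).eval z = true) :
    (F n d (m + 1) i j j j).eval z = true := by
  rw [F_succ]
  simp only [Fm.eval, Bool.or_eq_true, bor_eval]
  right
  refine ⟨Nat.pair (Nat.pair a b) (Nat.pair 0 0), ?_, ?_⟩
  · exact (pair_bound (by omega) (by omega) (Nat.zero_le _) (Nat.zero_le _)).trans_le hd
  · rw [Nat.zero_mul, Nat.zero_add]
    unfold tm
    simp only [Fm.eval, Bool.or_eq_true, Nat.unpair_pair]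
    left
    unfold pln
    rw [if_pos ⟨rfl, rfl, h1, h2, h3⟩]
    simp only [Fm.eval, Bool.and_eq_true]
    exact ⟨hA, hB⟩

lemma of_trm {d m i k l j a b e c : ℕ} {z : Fin n × Fin 3 → Bool} (hd : (n + 1) ^ 4 ≤ 2 ^ d)
    (hjn : j ≤ n) (hkn : k ≤ n) (h1 : i ≤ a) (h2 : a ≤ b) (h3 : b ≤ k) (h4 : l ≤ e) (h5 : e ≤ c)
    (h6 : c ≤ j)
    (hA : (F n d m i a c j).eval z = true) (hS : (stp (F n d m) a b e c).eval z = true)
    (hB : (F n d m b k l e).eval z = true) :
    (F n d (m + 1) i k l j).eval z = true := by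
  rw [F_succ]
  simp only [Fm.eval, Bool.or_eq_true, bor_eval]
  right
  refine ⟨Nat.pair (Nat.pair a b) (Nat.pair e c), ?_, ?_⟩
  · exact (pair_bound (by omega) (by omega) (by omega) (by omega)).trans_le hd
  · rw [Nat.zero_mul, Nat.zero_add]
    unfold tm
    simp only [Fm.eval, Bool.or_eq_true, Nat.unpair_pair]
    right
    unfold trm
    rw [if_pos ⟨h1, h2, h3, h4, h5, h6⟩]
    simp only [Fm.eval, Bool.and_eq_true]
    exact ⟨⟨hA, hS⟩, hB⟩

/-- plain segments of size at most `s` are recognized at level `m` -/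
def GoodP (d : ℕ) (z : Fin n × Fin 3 → Bool) (m s : ℕ) : Prop :=
  ∀ i j : ℕ, j ≤ n → Bal (word z) i j → j - i ≤ s → (F n d m i j j j).eval z = true

/-- contexts of size at most `s` are recognized at level `m` -/
def GoodC (d : ℕ) (z : Fin n × Fin 3 → Bool) (m s : ℕ) : Prop :=
  ∀ i k l j : ℕ, k ≤ l → j ≤ n → Ctx (word z) k l i j → (k - i) + (j - l) ≤ s →
    (F n d m i k l j).eval z = true

lemma bal_one {w : ℕ → Letter} {i : ℕ} (h : Bal w i (i + 1)) : w i = Letter.neutral := by
  rcases bal_inv h with h | ⟨h, _⟩ | ⟨k, t, _, _, h1, h2⟩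
  · omega
  · exact h
  · have := bal_le h1
    have := bal_le h2
    omega

lemma base_wrap (d : ℕ) (z : Fin n × Fin 3 → Bool) (m i l : ℕ) (hil : i < l) (hl : l < n)
    (h : ∃ t, word z i = Letter.opn t ∧ word z l = Letter.cls t) :
    (F n d m i (i + 1) l (l + 1)).eval z = true := by
  apply of_le (Nat.zero_le m)
  simp only [F, base]
  rw [if_neg (by omega), if_neg (by omega), if_neg (by omega), if_pos (by omega)]
  exact (pair_iff z (by omega) hl).2 h

lemma good0 (d : ℕ) (z : Fin n × Fin 3 → Bool) : GoodC d z 0 1 := by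
  intro i k l j hkl hjn hc hs
  have h0 := ctx_le hc
  simp only [F, base]
  by_cases h1 : k - i = 0 ∧ j - l = 0
  · rw [if_pos h1]; rfl
  · rw [if_neg h1]
    obtain ⟨a, b, e, c, hab, hec, hA, hB, hS, h4, h5⟩ := D2 hc 0 (by omega)
    have h6 := ctx_le hA
    have h7 := ctx_le hB
    have ha : a = i := by omega
    have hc' : c = j := by omega
    subst ha hc'
    rcases hS with ⟨h8, h9⟩ | ⟨h8, h9⟩ | ⟨h8, h9, _⟩
    · have h10 := bal_le h9
      have hb : b = a + 1 := by omega
      have hk : k = a + 1 := by omega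
      rw [if_pos (by omega)]
      rw [hb] at h9
      exact (skip_iff z (by omega)).2 (bal_one h9)
    · have h10 := bal_le h9
      have hb : c = e + 1 := by omega
      have hk : e = l := by omega
      rw [if_neg (by omega), if_pos (by omega)]
      rw [hb, hk] at h9
      exact (skip_iff z (by omega)).2 (bal_one h9)
    · omega

lemma goodP_of_goodC {d : ℕ} {z : Fin n × Fin 3 → Bool} {m s : ℕ} (h : GoodC d z m s) :
    GoodP d z m s := fun i j hj hb hs => h i j j j le_rfl hj (ctx_of_bal hb) (by omega)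

lemma goodC_of_goodP {d : ℕ} {z : Fin n × Fin 3 → Bool} {m S s : ℕ} (hd : (n + 1) ^ 4 ≤ 2 ^ d)
    (hC : GoodC d z m S) (hP : GoodP d z (m + 1) s) (hs : s ≤ 2 * S + 1) :
    GoodC d z (m + 2) s := by
  intro i k l j hkl hjn hc hsz
  by_cases h1 : (k - i) + (j - l) ≤ S
  · exact of_le (by omega) (hC i k l j hkl hjn hc h1)
  · obtain ⟨a, b, e, c, hab, hec, hA, hB, hS, h4, h5⟩ := D2 hc S (by omega)
    have h0 := ctx_le hc
    have h6 := ctx_le hA
    have h7 := ctx_le hB
    refine of_trm hd hjn (by omega) h6.1 hab h7.1 h7.2 hec h6.2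
      (of_stay (hC i a c j (by omega) hjn hA h4)) ?_
      (of_stay (hC b k l e hkl (by omega) hB (by omega)))
    unfold stp
    rcases hS with ⟨h8, h9⟩ | ⟨h8, h9⟩ | ⟨h8, h9, h10⟩
    · rw [if_pos h8]
      exact hP a b (by omega) h9 (by omega)
    · by_cases h11 : e = c
      · rw [if_pos h11, h8]
        exact hP b b (by omega) (Bal.nil _) (by omega)
      · rw [if_neg h11, if_pos h8]
        exact hP e c (by omega) h9 (by omega)
    · rw [if_neg (by omega), if_neg (by omega), if_pos ⟨h8, h9⟩]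
      exact (pair_iff z (by omega) (by omega)).2 h10

lemma goodP_step {d : ℕ} {z : Fin n × Fin 3 → Bool} {m S : ℕ} (hd : (n + 1) ^ 4 ≤ 2 ^ d)
    (hC : GoodC d z m S) : GoodP d z (m + 1) (S + S / 2) := by
  intro i j hjn hb hsz
  by_cases h1 : j - i ≤ S
  · exact of_stay (goodP_of_goodC hC i j hjn hb h1)
  · obtain ⟨k, l, hkl, hb', hctx, h2, h3⟩ := D1 hb S (by omega)
    have h4 := ctx_le hctx
    exact of_pln hd hjn h4.1 hkl h4.2 (hC i k l j hkl hjn hctx (by omega))
      (hC k l l l le_rfl (by omega) (ctx_of_bal hb') (by omega))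

lemma good2 {d : ℕ} (hd : (n + 1) ^ 4 ≤ 2 ^ d) (z : Fin n × Fin 3 → Bool) : GoodC d z 2 2 := by
  refine goodC_of_goodP hd (good0 d z) ?_ (by omega)
  intro i j hjn hb hsz
  by_cases h1 : j - i ≤ 1
  · exact of_stay (goodP_of_goodC (good0 d z) i j hjn hb h1)
  · have hj : j = i + 2 := by omega
    subst hj
    rcases bal_inv hb with h | ⟨h, h2⟩ | ⟨k, t, h2, h3, h4, h5⟩
    · omega
    · have h3 : Ctx (word z) (i + 1) (i + 2) i (i + 2) :=
        Ctx.left _ _ _ (Bal.skip _ _ h (Bal.nil _)) Ctx.nil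
      exact of_pln hd hjn (by omega) (by omega) (by omega)
        (good0 d z i (i + 1) (i + 2) (i + 2) (by omega) hjn h3 (by omega))
        (good0 d z (i + 1) (i + 2) (i + 2) (i + 2) le_rfl hjn (ctx_of_bal h2) (by omega))
    · have h6 := bal_le h4
      have h7 := bal_le h5
      have hk : k = i + 1 := by omega
      subst hk
      exact of_pln (a := i + 1) (b := i + 1) hd hjn (by omega) (by omega) (by omega)
        (base_wrap d z 0 i (i + 1) (by omega) (by omega) ⟨t, h2, h3⟩)
        (good0 d z (i + 1) (i + 1) (i + 1) (i + 1) le_rfl (by omega) Ctx.nil (by omega))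

lemma good_step {d : ℕ} {z : Fin n × Fin 3 → Bool} {m S : ℕ} (hd : (n + 1) ^ 4 ≤ 2 ^ d)
    (hC : GoodC d z m S) : GoodC d z (m + 2) (S + S / 2) :=
  goodC_of_goodP hd hC (goodP_step hd hC) (by omega)

lemma good_double {d : ℕ} {z : Fin n × Fin 3 → Bool} {m S : ℕ} (hd : (n + 1) ^ 4 ≤ 2 ^ d)
    (hS : 2 ≤ S) (hC : GoodC d z m S) : GoodC d z (m + 4) (2 * S) := by
  have h1 := good_step hd (good_step hd hC)
  intro i k l j hkl hjn hc hsz
  exact h1 i k l j hkl hjn hc (by omega)

lemma good_all {d : ℕ} (hd : (n + 1) ^ 4 ≤ 2 ^ d) (z : Fin n × Fin 3 → Bool) (u : ℕ) :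
    GoodC d z (2 + 4 * u) (2 ^ (u + 1)) := by
  induction u with
  | zero => exact good2 hd z
  | succ u ih =>
    have h1 : 2 ≤ 2 ^ (u + 1) := by
      calc 2 = 2 ^ 1 := by norm_num
        _ ≤ 2 ^ (u + 1) := Nat.pow_le_pow_right (by norm_num) (by omega)
    have h2 := good_double hd h1 ih
    rw [show 2 + 4 * (u + 1) = 2 + 4 * u + 4 by ring,
      show 2 ^ (u + 1 + 1) = 2 * 2 ^ (u + 1) by rw [pow_succ]; ring]
    exact h2

/-! ### degree -/

lemma F_deg (d : ℕ) (v : Fin n × Fin 3) : ∀ m i k l j : ℕ, i ≤ k → k ≤ l → l ≤ j →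
    (F n d m i k l j).deg v ≤
      if (i ≤ (v.1 : ℕ) ∧ (v.1 : ℕ) < k) ∨ (l ≤ (v.1 : ℕ) ∧ (v.1 : ℕ) < j) then 1 else 0 := by
  intro m
  induction m with
  | zero =>
    intro i k l j hik hkl hlj
    simp only [F, base]
    split_ifs with h1 h2 h3 h4 h5 h6 h7 h8 h9
    all_goals first
      | (simp [Fm.deg]; done)
      | (have h := skipF_deg v (i := i); split_ifs at h <;> omega)
      | (have h := skipF_deg v (i := l); split_ifs at h <;> omega)
      | (have h := pairF_deg v (i := i) (k := l); split_ifs at h <;> omega)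
  | succ m ih =>
    intro i k l j hik hkl hlj
    rw [F_succ]
    simp only [Fm.deg]
    refine max_le (ih i k l j hik hkl hlj) (bor_deg v _ _ (fun t => ?_) d 0)
    unfold tm
    simp only [Fm.deg]
    generalize t.unpair = u
    obtain ⟨u1, u2⟩ := u
    simp only
    generalize u1.unpair = ab
    generalize u2.unpair = ec
    obtain ⟨a, b⟩ := ab
    obtain ⟨e, c⟩ := ec
    simp only
    refine max_le ?_ ?_
    · unfold pln
      split_ifs with h1 h2 h2
      · obtain ⟨rfl, rfl, h3, h4, h5⟩ := h1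
        simp only [Fm.deg]
        have k1 := ih i a b l h3 h4 h5
        have k2 := ih a b b b h4 le_rfl le_rfl
        split_ifs at k1 k2 <;> omega
      · obtain ⟨rfl, rfl, h3, h4, h5⟩ := h1
        simp only [Fm.deg]
        have k1 := ih i a b l h3 h4 h5
        have k2 := ih a b b b h4 le_rfl le_rfl
        split_ifs at k1 k2 <;> omega
      · simp [Fm.deg]
      · simp [Fm.deg]
    · unfold trm
      by_cases h1 : i ≤ a ∧ a ≤ b ∧ b ≤ k ∧ l ≤ e ∧ e ≤ c ∧ c ≤ j
      · rw [if_pos h1]
        obtain ⟨h2, h3, h4, h5, h6, h7⟩ := h1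
        simp only [Fm.deg]
        have k1 := ih i a c j h2 (by omega) h7
        have k2 := ih b k l e h4 hkl h5
        have k3 : (stp (F n d m) a b e c).deg v ≤
            if (a ≤ (v.1 : ℕ) ∧ (v.1 : ℕ) < b) ∨ (e ≤ (v.1 : ℕ) ∧ (v.1 : ℕ) < c) then 1 else 0 := by
          unfold stp
          by_cases c1 : e = c
          · rw [if_pos c1]
            have := ih a b b b h3 le_rfl le_rfl
            split_ifs at this ⊢ <;> omega
          · rw [if_neg c1]
            by_cases c2 : a = b
            · rw [if_pos c2]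
              have := ih e c c c h6 le_rfl le_rfl
              split_ifs at this ⊢ <;> omega
            · rw [if_neg c2]
              by_cases c3 : b = a + 1 ∧ c = e + 1
              · rw [if_pos c3]
                have := pairF_deg v (i := a) (k := e)
                split_ifs at this ⊢ <;> omega
              · rw [if_neg c3]
                simp [Fm.deg]
        split_ifs at k1 k2 k3 ⊢ <;> omega
      · rw [if_neg h1]
        simp [Fm.deg]

/-! ### depth -/

lemma lt'_depth (i : ℕ) (c : Fin 3) (b : Bool) : (lt' n i c b).depth = 0 := by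
  unfold lt'
  split_ifs <;> rfl

lemma skipF_depth (i : ℕ) : (skipF n i).depth ≤ 3 := by
  unfold skipF
  simp [Fm.depth, lt'_depth]

lemma pairF_depth (i k : ℕ) : (pairF n i k).depth ≤ 3 := by
  unfold pairF ocF eqF sameF openF closeF
  simp [Fm.depth, lt'_depth]

lemma F_depth (d : ℕ) : ∀ m i k l j : ℕ, (F n d m i k l j).depth ≤ 3 + m * (d + 4) := by
  intro m
  induction m with
  | zero =>
    intro i k l j
    simp only [F, base]
    have h1 := skipF_depth (n := n) i
    have h2 := skipF_depth (n := n) l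
    have h3 := pairF_depth (n := n) i l
    split_ifs <;> (try simp only [Fm.depth]) <;> omega
  | succ m ih =>
    intro i k l j
    rw [F_succ]
    have hb : (bor d (tm (F n d m) i k l j) 0).depth ≤ (3 + m * (d + 4) + 3) + d := by
      apply bor_depth
      intro t
      unfold tm
      generalize t.unpair = u
      obtain ⟨u1, u2⟩ := u
      simp only
      generalize u1.unpair = ab
      generalize u2.unpair = ec
      obtain ⟨a, b⟩ := ab
      obtain ⟨e, c⟩ := ec
      simp only [Fm.depth]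
      have k1 : (pln (F n d m) i k l j a b).depth ≤ 3 + m * (d + 4) + 2 := by
        unfold pln
        have := ih i a b j
        have := ih a b b b
        split_ifs <;> (try simp only [Fm.depth]) <;> omega
      have k2 : (stp (F n d m) a b e c).depth ≤ 3 + m * (d + 4) := by
        unfold stp
        have := ih a b b b
        have := ih e c c c
        have := pairF_depth (n := n) a e
        split_ifs <;> (try simp only [Fm.depth]) <;> omega
      have k3 : (trm (F n d m) i k l j a b e c).depth ≤ 3 + m * (d + 4) + 2 := by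
        unfold trm
        have := ih i a c j
        have := ih b k l e
        split_ifs <;> (try simp only [Fm.depth]) <;> omega
      omega
    have h1 := ih i k l j
    have h2 : (m + 1) * (d + 4) = m * (d + 4) + (d + 4) := by ring
    simp only [Fm.depth]
    omega

/-! ### size -/

open Classical in
lemma cost_lt' (S : Finset (Fm (Fin n × Fin 3))) (i : ℕ) (c : Fin 3) (b : Bool) :
    (sub (lt' n i c b) \ S).card ≤ 1 := by
  unfold lt'
  split_ifs
  · exact cost_lit S _ _
  · exact cost_cst S _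

open Classical in
lemma cost_skip (S : Finset (Fm (Fin n × Fin 3))) (i : ℕ) : (sub (skipF n i) \ S).card ≤ 3 := by
  unfold skipF
  have h1 := cost_and S (lt' n i 0 false) (lt' n i 1 false)
  have h2 := cost_lt' S i 0 false
  have h3 := cost_lt' S i 1 false
  omega

open Classical in
lemma cost_pair (S : Finset (Fm (Fin n × Fin 3))) (i k : ℕ) :
    (sub (pairF n i k) \ S).card ≤ 15 := by
  unfold pairF ocF eqF sameF openF closeF
  refine (cost_and S _ _).trans ?_
  have h1 := cost_and S (Fm.and (lt' n i 0 true) (lt' n i 1 false))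
    (Fm.and (lt' n k 0 false) (lt' n k 1 true))
  have h2 := cost_or S (Fm.and (lt' n i 2 true) (lt' n k 2 true))
    (Fm.and (lt' n i 2 false) (lt' n k 2 false))
  have h3 := cost_and S (lt' n i 0 true) (lt' n i 1 false)
  have h4 := cost_and S (lt' n k 0 false) (lt' n k 1 true)
  have h5 := cost_and S (lt' n i 2 true) (lt' n k 2 true)
  have h6 := cost_and S (lt' n i 2 false) (lt' n k 2 false)
  have a1 := cost_lt' S i 0 true
  have a2 := cost_lt' S i 1 false
  have a3 := cost_lt' S k 0 false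
  have a4 := cost_lt' S k 1 true
  have a5 := cost_lt' S i 2 true
  have a6 := cost_lt' S k 2 true
  have a7 := cost_lt' S i 2 false
  have a8 := cost_lt' S k 2 false
  omega

/-- the quadruples -/
def Q (n : ℕ) : Finset (ℕ × ℕ × ℕ × ℕ) :=
  range (n + 1) ×ˢ (range (n + 1) ×ˢ (range (n + 1) ×ˢ range (n + 1)))

lemma card_Q (n : ℕ) : (Q n).card = (n + 1) ^ 4 := by
  unfold Q
  simp only [card_product, card_range]
  ring

lemma mem_Q {n i k l j : ℕ} (h1 : i ≤ n) (h2 : k ≤ n) (h3 : l ≤ n) (h4 : j ≤ n) :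
    ((i, k, l, j) : ℕ × ℕ × ℕ × ℕ) ∈ Q n := by
  unfold Q
  simp only [mem_product, mem_range]
  omega

open Classical in
/-- all subformulas at level `m` -/
noncomputable def SS (n d m : ℕ) : Finset (Fm (Fin n × Fin 3)) :=
  (Q n).biUnion fun q => sub (F n d m q.1 q.2.1 q.2.2.1 q.2.2.2)

open Classical in
lemma sub_SS (d m : ℕ) {i k l j : ℕ} (h1 : i ≤ n) (h2 : k ≤ n) (h3 : l ≤ n) (h4 : j ≤ n) :
    sub (F n d m i k l j) ⊆ SS n d m := by
  intro x hx
  unfold SS
  rw [mem_biUnion]
  exact ⟨_, mem_Q h1 h2 h3 h4, hx⟩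

open Classical in
lemma cost_SS (d m : ℕ) {i k l j : ℕ} (h1 : i ≤ n) (h2 : k ≤ n) (h3 : l ≤ n) (h4 : j ≤ n) :
    (sub (F n d m i k l j) \ SS n d m).card = 0 := by
  rw [card_eq_zero, sdiff_eq_empty_iff_subset]
  exact sub_SS d m h1 h2 h3 h4

open Classical in
lemma cost_F_succ (d m : ℕ) {i k l j : ℕ} (h1 : i ≤ n) (h2 : k ≤ n) (h3 : l ≤ n) (h4 : j ≤ n) :
    (sub (F n d (m + 1) i k l j) \ SS n d m).card ≤ 2 ^ d * 21 := by
  rw [F_succ]
  refine (cost_or _ _ _).trans ?_
  rw [cost_SS d m h1 h2 h3 h4]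
  have := cost_bor (SS n d m) (tm (F n d m) i k l j) 20 (fun t => ?_) d 0
  · omega
  · unfold tm
    generalize t.unpair = u
    obtain ⟨u1, u2⟩ := u
    simp only
    generalize u1.unpair = ab
    generalize u2.unpair = ec
    obtain ⟨a, b⟩ := ab
    obtain ⟨e, c⟩ := ec
    simp only
    refine (cost_or _ _ _).trans ?_
    have k1 : (sub (pln (F n d m) i k l j a b) \ SS n d m).card ≤ 1 := by
      unfold pln
      split_ifs with h
      · refine (cost_and _ _ _).trans ?_
        rw [cost_SS d m h1 (by omega) (by omega) h4,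
          cost_SS d m (by omega) (by omega) (by omega) (by omega)]
      · exact cost_cst _ _
    have k2 : (sub (trm (F n d m) i k l j a b e c) \ SS n d m).card ≤ 17 := by
      unfold trm
      split_ifs with h
      · refine (cost_and _ _ _).trans ?_
        have k3 := cost_and (SS n d m) (F n d m i a c j) (stp (F n d m) a b e c)
        rw [cost_SS d m h1 (by omega) (by omega) h4] at k3
        rw [cost_SS d m (by omega) h2 h3 (by omega)]
        have k4 : (sub (stp (F n d m) a b e c) \ SS n d m).card ≤ 15 := by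
          unfold stp
          split_ifs
          · rw [cost_SS d m (by omega) (by omega) (by omega) (by omega)]; omega
          · rw [cost_SS d m (by omega) (by omega) (by omega) (by omega)]; omega
          · exact cost_pair _ _ _
          · exact (cost_cst _ _).trans (by omega)
        omega
      · exact (cost_cst _ _).trans (by omega)
    omega

open Classical in
lemma card_SS_succ (d m : ℕ) :
    (SS n d (m + 1)).card ≤ (SS n d m).card + (n + 1) ^ 4 * (2 ^ d * 21) := by
  have h1 : SS n d (m + 1) ⊆ SS n d m ∪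
      (Q n).biUnion fun q => sub (F n d (m + 1) q.1 q.2.1 q.2.2.1 q.2.2.2) \ SS n d m := by
    intro x hx
    by_cases h : x ∈ SS n d m
    · exact mem_union_left _ h
    · apply mem_union_right
      have hx' := hx
      unfold SS at hx'
      rw [mem_biUnion] at hx' ⊢
      obtain ⟨q, hq, hxq⟩ := hx'
      exact ⟨q, hq, mem_sdiff.2 ⟨hxq, h⟩⟩
  refine (card_le_card h1).trans ((card_union_le _ _).trans ?_)
  gcongr
  refine card_biUnion_le.trans ?_
  rw [← card_Q n, ← smul_eq_mul, ← sum_const]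
  refine sum_le_sum fun q hq => ?_
  obtain ⟨i, k, l, j⟩ := q
  unfold Q at hq
  simp only [mem_product, mem_range] at hq
  have hi : i ≤ n := by omega
  have hk : k ≤ n := by omega
  have hl : l ≤ n := by omega
  have hj : j ≤ n := by omega
  exact cost_F_succ d m hi hk hl hj

open Classical in
lemma card_SS_zero (d : ℕ) : (SS n d 0).card ≤ (n + 1) ^ 4 * 15 := by
  unfold SS
  refine card_biUnion_le.trans ?_
  rw [← card_Q n, ← smul_eq_mul, ← sum_const]
  refine sum_le_sum fun q hq => ?_
  obtain ⟨i, k, l, j⟩ := q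
  have h1 := cost_skip (n := n) ∅ i
  have h2 := cost_skip (n := n) ∅ l
  have h3 := cost_pair (n := n) ∅ i l
  have h4 := cost_cst (I := Fin n × Fin 3) ∅ true
  have h5 := cost_cst (I := Fin n × Fin 3) ∅ false
  rw [sdiff_empty] at h1 h2 h3 h4 h5
  simp only [F, base]
  split_ifs <;> omega

open Classical in
lemma card_SS (d m : ℕ) :
    (SS n d m).card ≤ (n + 1) ^ 4 * 15 + m * ((n + 1) ^ 4 * (2 ^ d * 21)) := by
  induction m with
  | zero => simpa using card_SS_zero (n := n) d
  | succ m ih =>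
    have := card_SS_succ (n := n) d m
    rw [add_mul, one_mul]
    omega

/-! ### the theorem -/

theorem dyck_shallow : ∃ K : ℕ, ∀ n : ℕ, ∃ C : Ckt (Fin n × Fin 3),
    C.size ≤ (n + 2) ^ K ∧ C.depth ≤ K * (Nat.log 2 (n + 2)) ^ 2 ∧ (∀ v, C.deg v ≤ 1) ∧
      ∀ z, (C.eval z = true ↔ Dyck z) := by
  classical
  refine ⟨100, fun n => ?_⟩
  set L := Nat.log 2 (n + 2) with hL
  have hL1 : 1 ≤ L := by
    rw [hL]
    exact Nat.log_pos (by norm_num) (by omega)
  have hL2 : 2 ^ L ≤ n + 2 := Nat.pow_log_le_self 2 (by omega)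
  have hL3 : n + 2 < 2 ^ (L + 1) := Nat.lt_pow_succ_log_self (by norm_num) _
  set d := 4 * (L + 1) with hd
  have hd1 : (n + 1) ^ 4 ≤ 2 ^ d := by
    rw [hd, mul_comm, pow_mul]
    exact Nat.pow_le_pow_left (by omega) 4
  set M := 2 + 4 * L with hM
  refine ⟨share (F n d M 0 n n n), ?_, ?_, fun v => ?_, fun z => ?_⟩
  · rw [share_size]
    have h1 := (card_le_card (sub_SS d M (Nat.zero_le n) le_rfl le_rfl le_rfl)).trans
      (card_SS (n := n) d M)
    refine h1.trans ?_
    have h2 : 2 ^ d ≤ 16 * (n + 2) ^ 4 := by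
      have h3 : 2 ^ d = 16 * (2 ^ L) ^ 4 := by
        have h4 : 2 ^ (L + 1) = 2 * 2 ^ L := by rw [pow_succ]; ring
        rw [hd, mul_comm, pow_mul, h4]
        ring
      have := Nat.pow_le_pow_left hL2 4
      omega
    have h3 : L ≤ n + 2 := by
      have := Nat.lt_two_pow_self (n := L)
      omega
    have h4 : M ≤ 5 * (n + 2) := by omega
    have h5 : (n + 1) ^ 4 ≤ (n + 2) ^ 4 := Nat.pow_le_pow_left (by omega) 4
    have h6 : 1 ≤ (n + 2) ^ 5 := Nat.one_le_pow _ _ (by omega)
    calc (n + 1) ^ 4 * 15 + M * ((n + 1) ^ 4 * (2 ^ d * 21))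
        ≤ (n + 2) ^ 4 * 15 + 5 * (n + 2) * ((n + 2) ^ 4 * (16 * (n + 2) ^ 4 * 21)) := by gcongr
      _ = (n + 2) ^ 4 * (15 * 1) + 1680 * (n + 2) ^ 9 := by ring
      _ ≤ (n + 2) ^ 4 * (15 * (n + 2) ^ 5) + 1680 * (n + 2) ^ 9 := by gcongr
      _ = 1695 * (n + 2) ^ 9 := by ring
      _ ≤ 2 ^ 11 * (n + 2) ^ 9 := by gcongr; norm_num
      _ ≤ (n + 2) ^ 11 * (n + 2) ^ 9 := by gcongr; omega
      _ = (n + 2) ^ 20 := by rw [← pow_add]
      _ ≤ (n + 2) ^ 100 := Nat.pow_le_pow_right (by omega) (by norm_num)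
  · unfold Ckt.depth
    rw [share_out]
    refine (F_depth d M 0 n n n).trans ?_
    rw [hd, hM]
    nlinarith [hL1, Nat.mul_le_mul hL1 hL1]
  · unfold Ckt.deg
    rw [share_out]
    refine (F_deg d v M 0 n n n (Nat.zero_le n) le_rfl le_rfl).trans ?_
    split_ifs <;> omega
  · unfold Ckt.eval
    rw [share_out]
    constructor
    · intro h
      exact bal_of_ctx (sound d z M 0 n n n (Nat.zero_le n) le_rfl le_rfl le_rfl h)
    · intro h
      refine good_all hd1 z L 0 n n n le_rfl le_rfl (ctx_of_bal h) ?_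
      omega

end Pool.Agent.TH822.J988
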