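import Mathlib
import Pool.Agent.TH278.Defs3
import Pool.Agent.H438R2.RZ.R7
import Pool.Agent.H438R2.RZ.R8
set_option autoImplicit false

/-! # Job 719: summation of the dyadic pieces for the Bochner-Riesz operator -/

namespace Pool.Agent.TH822.J719

open MeasureTheory Set Complex Filter
open scoped ENNReal RealInnerProductSpace Topology
open Pool.Agent.H438R2.RZ (e Good ft Pl Bump TR decomp smooth_Lp)
open Pool.Agent.H789R2.FR (E)
open Pool.Agent.TH278 (ML BR)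

theorem bump_cont {ψ : ℝ → ℝ} (h : Bump ψ) : Continuous ψ := h.1.continuous

theorem bump_zero {ψ : ℝ → ℝ} (h : Bump ψ) {v : ℝ} (hv : v < 1 / 2) : ψ v = 0 := by
  by_contra hne
  exact absurd (h.2 v hne).1 (not_le.mpr hv)

theorem bump_bdd {ψ : ℝ → ℝ} (h : Bump ψ) : ∃ M : ℝ, 0 ≤ M ∧ ∀ v, ‖ψ v‖ ≤ M := by
  obtain ⟨M, hM⟩ := (isCompact_Icc (a := (1 / 2 : ℝ)) (b := 2)).exists_bound_of_continuousOn
    (bump_cont h).continuousOn
  refine ⟨max M 0, le_max_right _ _, fun v => ?_⟩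
  by_cases hv : ψ v = 0
  · rw [hv]; simp
  · obtain ⟨h1, h2⟩ := h.2 v hv
    exact (hM v ⟨h1, h2⟩).trans (le_max_left _ _)

theorem norm_e (x : ℝ) : ‖e x‖ = 1 := by
  unfold e; exact Complex.norm_exp_ofReal_mul_I _

theorem e_cont : Continuous e := by
  unfold e; fun_prop

/-- the inner Fourier transform -/
noncomputable def fh {n : ℕ} (f : E n → ℂ) (ξ : E n) : ℂ := ∫ y : E n, e (-(⟪y, ξ⟫ : ℝ)) * f y

theorem fh_int {n : ℕ} (f : E n → ℂ) (hf : Integrable f) (ξ : E n) :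
    Integrable fun y : E n => e (-(⟪y, ξ⟫ : ℝ)) * f y := by
  refine hf.bdd_mul (c := 1) ?_ ?_
  · exact (e_cont.comp (by fun_prop)).aestronglyMeasurable
  · exact Filter.Eventually.of_forall fun y => (norm_e _).le

theorem fh_bdd {n : ℕ} (f : E n → ℂ) (ξ : E n) : ‖fh f ξ‖ ≤ ∫ y, ‖f y‖ := by
  refine (norm_integral_le_integral_norm _).trans (le_of_eq ?_)
  congr 1; funext y; rw [norm_mul, norm_e, one_mul]

theorem fh_cont {n : ℕ} (f : E n → ℂ) (hf : Integrable f) : Continuous (fh f) := by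
  refine continuous_of_dominated (bound := fun y => ‖f y‖) ?_ ?_ hf.norm ?_
  · intro ξ; exact (fh_int f hf ξ).aestronglyMeasurable
  · intro ξ; exact Filter.Eventually.of_forall fun y => by rw [norm_mul, norm_e, one_mul]
  · refine Filter.Eventually.of_forall fun y => ?_
    exact (e_cont.comp (by fun_prop)).mul continuous_const

theorem M_int {n : ℕ} (M : ℝ → ℝ) (hM : Continuous M) (hM2 : ∀ u, 2 < u → M u = 0) :
    Integrable fun ξ : E n => ((M (‖ξ‖ ^ 2) : ℝ) : ℂ) := by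
  refine Continuous.integrable_of_hasCompactSupport (by fun_prop) ?_
  refine HasCompactSupport.of_support_subset_isCompact (isCompact_closedBall (0 : E n) 2) ?_
  intro ξ hξ
  rw [mem_closedBall_zero_iff]
  by_contra hc
  push Not at hc
  apply hξ
  have : (2 : ℝ) < ‖ξ‖ ^ 2 := by nlinarith
  simp only
  rw [hM2 _ this]; simp

theorem TR_int {n : ℕ} (M : ℝ → ℝ) (hM : Continuous M) (hM2 : ∀ u, 2 < u → M u = 0) (f : E n → ℂ)
    (hf : Integrable f) (x : E n) :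
    Integrable fun ξ : E n => ((M (‖ξ‖ ^ 2) : ℝ) : ℂ) * fh f ξ * e (⟪x, ξ⟫ : ℝ) := by
  have h1 := (M_int (n := n) M hM hM2).mul_bdd (c := ∫ y, ‖f y‖) (fh_cont f hf).aestronglyMeasurable
    (Filter.Eventually.of_forall fun ξ => fh_bdd f ξ)
  refine h1.mul_bdd (c := 1) ?_ ?_
  · exact (e_cont.comp (by fun_prop)).aestronglyMeasurable
  · exact Filter.Eventually.of_forall fun y => (norm_e _).le

theorem TR_cont {n : ℕ} (M : ℝ → ℝ) (hM : Continuous M) (hM2 : ∀ u, 2 < u → M u = 0)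
    (f : E n → ℂ) (hf : Integrable f) : Continuous (TR n M f) := by
  have h1 := (M_int (n := n) M hM hM2).mul_bdd (c := ∫ y, ‖f y‖) (fh_cont f hf).aestronglyMeasurable
    (Filter.Eventually.of_forall fun ξ => fh_bdd f ξ)
  refine continuous_of_dominated (bound := fun ξ => ‖((M (‖ξ‖ ^ 2) : ℝ) : ℂ) * fh f ξ‖) ?_ ?_ h1.norm ?_
  · intro x; exact (TR_int M hM hM2 f hf x).aestronglyMeasurable
  · intro x; refine Filter.Eventually.of_forall fun ξ => ?_
    rw [norm_mul _ (e _), norm_e, mul_one]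
    exact le_of_eq rfl
  · refine Filter.Eventually.of_forall fun ξ => ?_
    exact continuous_const.mul (e_cont.comp (by fun_prop))

theorem piece_norm {n : ℕ} (ψ : ℝ → ℝ) (hψ : Bump ψ) (M : ℝ) (hM : ∀ v, ‖ψ v‖ ≤ M) (hM0 : 0 ≤ M)
    (f : E n → ℂ) (hf : Integrable f) (x : E n) (a : ℝ) (ha : 0 ≤ a) (t : ℝ) (ht : 0 < t) :
    Integrable (fun ξ : E n => ((a * ψ (t * (1 - ‖ξ‖ ^ 2)) : ℝ) : ℂ) * fh f ξ * e (⟪x, ξ⟫ : ℝ)) ∧
    ∫ ξ : E n, ‖((a * ψ (t * (1 - ‖ξ‖ ^ 2)) : ℝ) : ℂ) * fh f ξ * e (⟪x, ξ⟫ : ℝ)‖ ≤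
      a * (M * (∫ y, ‖f y‖) * (volume : Measure (E n)).real (Metric.closedBall 0 1)) := by
  have hc : Continuous fun u : ℝ => ψ (t * (1 - u)) := (bump_cont hψ).comp (by fun_prop)
  have hz : ∀ u : ℝ, 2 < u → ψ (t * (1 - u)) = 0 := fun u hu => bump_zero hψ (by nlinarith)
  have hint := TR_int (n := n) (fun u => a * ψ (t * (1 - u))) (continuous_const.mul hc)
    (fun u hu => by rw [hz u hu, mul_zero]) f hf x
  refine ⟨hint, ?_⟩
  have h1 : ∀ ξ : E n, ‖((a * ψ (t * (1 - ‖ξ‖ ^ 2)) : ℝ) : ℂ) * fh f ξ * e (⟪x, ξ⟫ : ℝ)‖ ≤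
      (Metric.closedBall (0 : E n) 1).indicator (fun _ => a * (M * (∫ y, ‖f y‖))) ξ := by
    intro ξ
    by_cases hξ : ξ ∈ Metric.closedBall (0 : E n) 1
    · rw [indicator_of_mem hξ, norm_mul, norm_mul, norm_e, mul_one, Complex.norm_real, norm_mul,
        Real.norm_of_nonneg ha, mul_assoc]
      have h2 := hM (t * (1 - ‖ξ‖ ^ 2))
      have h3 := fh_bdd f ξ
      gcongr
    · rw [indicator_of_notMem hξ]
      rw [mem_closedBall_zero_iff, not_le] at hξ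
      have : ψ (t * (1 - ‖ξ‖ ^ 2)) = 0 := bump_zero hψ (by
        have : 1 < ‖ξ‖ ^ 2 := by nlinarith
        nlinarith)
      rw [this]; simp
  have hbi : Integrable ((Metric.closedBall (0 : E n) 1).indicator
      (fun _ => a * (M * (∫ y, ‖f y‖)))) (volume : Measure (E n)) := by
    rw [integrable_indicator_iff Metric.isClosed_closedBall.measurableSet]
    exact integrableOn_const (measure_closedBall_lt_top.ne)
  refine (integral_mono hint.norm hbi h1).trans (le_of_eq ?_)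
  rw [integral_indicator Metric.isClosed_closedBall.measurableSet, setIntegral_const, smul_eq_mul]
  ring

theorem hasSum_pieces {n : ℕ} (δ : ℝ) (hδ : 0 < δ) (ψ : ℝ → ℝ) (hψ : Bump ψ)
    (hd : ∀ u : ℝ, 0 ≤ u → HasSum (fun j : ℕ => (2 : ℝ) ^ (-(δ * j)) * ψ (2 ^ j * (1 - u)))
      ((max (1 - u) 0) ^ δ)) (f : E n → ℂ) (hf : Integrable f) (x : E n) :
    HasSum (fun j : ℕ => (((2 : ℝ) ^ (-(δ * j)) : ℝ) : ℂ) *
      TR n (fun u => ψ (2 ^ j * (1 - u))) f x)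
      (∫ ξ : E n, (((max (1 - ‖ξ‖ ^ 2) 0) ^ δ : ℝ) : ℂ) * fh f ξ * e (⟪x, ξ⟫ : ℝ)) := by
  obtain ⟨M, hM0, hM⟩ := bump_bdd hψ
  have h2 : ∀ j : ℕ, 0 ≤ (2 : ℝ) ^ (-(δ * j)) := fun j => Real.rpow_nonneg (by norm_num) _
  have hp := fun j : ℕ => piece_norm ψ hψ M hM hM0 f hf x ((2 : ℝ) ^ (-(δ * j))) (h2 j) (2 ^ j)
    (by positivity)
  have hgeo : Summable fun j : ℕ => (2 : ℝ) ^ (-(δ * j)) := by
    have : (fun j : ℕ => (2 : ℝ) ^ (-(δ * j))) = fun j : ℕ => ((2 : ℝ) ^ (-δ)) ^ j := by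
      funext j
      rw [← Real.rpow_natCast, ← Real.rpow_mul (by norm_num)]; congr 1; ring
    rw [this]
    exact summable_geometric_of_lt_one (Real.rpow_nonneg (by norm_num) _)
      (Real.rpow_lt_one_of_one_lt_of_neg (by norm_num) (by linarith))
  have hs := hasSum_integral_of_summable_integral_norm (μ := (volume : Measure (E n)))
    (F := fun (j : ℕ) (ξ : E n) => (((2 : ℝ) ^ (-(δ * j)) * ψ (2 ^ j * (1 - ‖ξ‖ ^ 2)) : ℝ) : ℂ) *
      fh f ξ * e (⟪x, ξ⟫ : ℝ)) (fun j => (hp j).1)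
    (Summable.of_nonneg_of_le (fun j => integral_nonneg fun ξ => norm_nonneg _) (fun j => (hp j).2)
      (hgeo.mul_right _))
  have e1 : (∫ ξ : E n, ∑' j : ℕ, (((2 : ℝ) ^ (-(δ * j)) * ψ (2 ^ j * (1 - ‖ξ‖ ^ 2)) : ℝ) : ℂ) *
      fh f ξ * e (⟪x, ξ⟫ : ℝ)) =
      ∫ ξ : E n, (((max (1 - ‖ξ‖ ^ 2) 0) ^ δ : ℝ) : ℂ) * fh f ξ * e (⟪x, ξ⟫ : ℝ) := by
    congr 1; funext ξ
    have h := hd (‖ξ‖ ^ 2) (sq_nonneg _)
    have h3 := ((Complex.hasSum_ofReal.mpr h).mul_right (fh f ξ)).mul_right (e (⟪x, ξ⟫ : ℝ))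
    exact h3.tsum_eq
  rw [e1] at hs
  have e2 : (fun j : ℕ => (((2 : ℝ) ^ (-(δ * j)) : ℝ) : ℂ) *
      TR n (fun u => ψ (2 ^ j * (1 - u))) f x) = fun j : ℕ => ∫ ξ : E n,
      (((2 : ℝ) ^ (-(δ * j)) * ψ (2 ^ j * (1 - ‖ξ‖ ^ 2)) : ℝ) : ℂ) * fh f ξ * e (⟪x, ξ⟫ : ℝ) := by
    funext j
    unfold TR
    rw [← integral_const_mul]
    congr 1; funext ξ
    unfold fh
    push_cast; ring
  rw [e2]
  exact hs

/-- `(1 + log L)^K` is at most a constant times `L^δ` -/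
theorem log_pow_le (K δ : ℝ) (hK : 0 < K) (hδ : 0 < δ) (L : ℝ) (hL : 1 ≤ L) :
    (1 + Real.log L) ^ K ≤ (1 + K / δ) ^ K * L ^ δ := by
  have hL0 : 0 < L := by linarith
  have h1 : Real.log L ≤ L ^ (δ / K) / (δ / K) := Real.log_le_rpow_div hL0.le (by positivity)
  have h2 : 1 ≤ L ^ (δ / K) := Real.one_le_rpow hL (by positivity)
  have h3 : L ^ (δ / K) / (δ / K) = K / δ * L ^ (δ / K) := by
    field_simp
  have h4 : 1 + Real.log L ≤ (1 + K / δ) * L ^ (δ / K) := by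
    rw [h3] at h1
    nlinarith
  have h5 : 0 ≤ 1 + Real.log L := by
    have := Real.log_nonneg hL
    linarith
  calc (1 + Real.log L) ^ K ≤ ((1 + K / δ) * L ^ (δ / K)) ^ K :=
        Real.rpow_le_rpow h5 h4 hK.le
    _ = (1 + K / δ) ^ K * L ^ δ := by
        rw [Real.mul_rpow (by positivity) (by positivity), ← Real.rpow_mul hL0.le]
        congr 2
        field_simp

theorem sum_pieces (n : ℕ) (hn : 1 ≤ n) (p δ : ℝ) (hp : 1 ≤ p) (hδ : 0 < δ)
    (N : SchwartzMap (E n) ℂ → ℝ≥0∞)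
    (h0 : ∀ ψ : ℝ → ℝ, Bump ψ → ∃ C K : ℝ, 0 < C ∧ 0 < K ∧ ∀ L : ℝ, 20 ≤ L →
      ∀ f : SchwartzMap (E n) ℂ, eLpNorm (TR n (ML ψ L) (fun x => f x)) (ENNReal.ofReal p) volume ≤
        ENNReal.ofReal (C * (1 + Real.log L) ^ K) * N f)
    (h1 : ∀ f, eLpNorm (fun x => f x) (ENNReal.ofReal p) volume ≤ N f) :
    ∃ C : ℝ, ∀ f : SchwartzMap (E n) ℂ,
      eLpNorm (BR δ (fun x => f x)) (ENNReal.ofReal p) volume ≤ ENNReal.ofReal C * N f := by
  obtain ⟨ψ, hψ, hd⟩ := decomp δ hδ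
  have hp1 : 1 ≤ ENNReal.ofReal p := by
    rw [← ENNReal.ofReal_one]; exact ENNReal.ofReal_le_ofReal hp
  obtain ⟨C1, K, hC1, hK, hb⟩ := h0 ψ hψ
  set s : ℝ := δ with hs
  set C0 : ℝ := C1 * (1 + K / δ) ^ K with hC0d
  have hC0 : 0 < C0 := by positivity
  set Lj : ℕ → ℝ := fun j => Real.sqrt (2 ^ j) with hLj
  have hLsq : ∀ j, Lj j ^ 2 = 2 ^ j := fun j => Real.sq_sqrt (by positivity)
  have hL1 : ∀ j, 1 ≤ Lj j := fun j => by
    rw [hLj]; simp only [Real.one_le_sqrt]; exact one_le_pow₀ (by norm_num)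
  have hsm := fun j : ℕ => smooth_Lp n hn ψ hψ p hp (Lj j) (hL1 j)
  choose Cj hCj hCb using hsm
  set a : ℕ → ℝ := fun j => if j < 9 then Cj j else C0 * Lj j ^ s with ha
  have ha0 : ∀ j, 0 ≤ a j := fun j => by
    rw [ha]; simp only
    split_ifs
    · exact (hCj j).le
    · have : 0 < Lj j ^ s := Real.rpow_pos_of_pos (by linarith [hL1 j]) _
      positivity
  have hpiece : ∀ (j : ℕ) (f : SchwartzMap (E n) ℂ),
      eLpNorm (TR n (fun u => ψ (2 ^ j * (1 - u))) (fun x => f x)) (ENNReal.ofReal p) volume ≤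
        ENNReal.ofReal (a j) * N f := by
    intro j f
    rw [← hLsq j]
    by_cases hj : j < 9
    · have := hCb j f
      simp only [ha, if_pos hj]
      exact this.trans (by gcongr; exact h1 f)
    · simp only [ha, if_neg hj]
      have h20 : 20 ≤ Lj j := by
        rw [hLj]; simp only
        apply Real.le_sqrt_of_sq_le
        have : (2 : ℝ) ^ 9 ≤ 2 ^ j := pow_le_pow_right₀ (by norm_num) (by omega)
        linarith
      refine (hb (Lj j) h20 f).trans (mul_le_mul' (ENNReal.ofReal_le_ofReal ?_) le_rfl)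
      rw [hC0d, mul_assoc]
      exact mul_le_mul_of_nonneg_left (log_pow_le K δ hK hδ (Lj j) (hL1 j)) hC1.le
  -- summability
  have hsum : Summable fun j : ℕ => (2 : ℝ) ^ (-(δ * j)) * a j := by
    have h1 : Summable fun j : ℕ => (2 : ℝ) ^ (-(δ * (j + 9 : ℕ))) * a (j + 9) := by
      have h2 : (fun j : ℕ => (2 : ℝ) ^ (-(δ * (j + 9 : ℕ))) * a (j + 9)) =
          fun j : ℕ => ((2 : ℝ) ^ (-(δ * 9) + 9 * s / 2) * C0) * ((2 : ℝ) ^ (s / 2 - δ)) ^ j := by
        funext j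
        have h3 : ¬ (j + 9 < 9) := by omega
        simp only [ha, if_neg h3, hLj]
        rw [Real.sqrt_eq_rpow, ← Real.rpow_mul (by positivity), ← Real.rpow_natCast 2 (j + 9),
          ← Real.rpow_mul (by norm_num), ← Real.rpow_natCast _ j, ← Real.rpow_mul (by norm_num)]
        rw [show (2 : ℝ) ^ (-(δ * ((j + 9 : ℕ) : ℝ))) * (C0 * 2 ^ ((((j + 9 : ℕ) : ℝ)) * (1 / 2 * s))) =
          C0 * (2 ^ (-(δ * ((j + 9 : ℕ) : ℝ))) * 2 ^ ((((j + 9 : ℕ) : ℝ)) * (1 / 2 * s))) by ring,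
          ← Real.rpow_add (by norm_num)]
        rw [show (2 : ℝ) ^ (-(δ * 9) + 9 * s / 2) * C0 * 2 ^ ((s / 2 - δ) * (j : ℝ)) =
          C0 * (2 ^ (-(δ * 9) + 9 * s / 2) * 2 ^ ((s / 2 - δ) * (j : ℝ))) by ring,
          ← Real.rpow_add (by norm_num)]
        congr 2
        push_cast; ring
      rw [h2]
      exact (summable_geometric_of_lt_one (Real.rpow_nonneg (by norm_num) _)
        (Real.rpow_lt_one_of_one_lt_of_neg (by norm_num) (by rw [hs]; linarith))).mul_left _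
    exact (summable_nat_add_iff 9).mp h1
  have h2n : ∀ j : ℕ, 0 ≤ (2 : ℝ) ^ (-(δ * j)) := fun j => Real.rpow_nonneg (by norm_num) _
  refine ⟨∑' j : ℕ, (2 : ℝ) ^ (-(δ * j)) * a j, fun f => ?_⟩
  have hfi : Integrable (fun x => f x) (volume : Measure (E n)) := f.integrable
  have hTc : ∀ j : ℕ, Continuous (TR n (fun u => ψ (2 ^ j * (1 - u))) (fun x => f x)) := by
    intro j
    refine TR_cont _ ((bump_cont hψ).comp (by fun_prop)) (fun u hu => bump_zero hψ ?_) _ hfi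
    have : (0 : ℝ) < 2 ^ j := by positivity
    nlinarith
  set P : ℕ → E n → ℂ := fun J x => ∑ j ∈ Finset.range J,
    (((2 : ℝ) ^ (-(δ * j)) : ℝ) : ℂ) * TR n (fun u => ψ (2 ^ j * (1 - u))) (fun x => f x) x
    with hP
  have hPm : ∀ J, AEStronglyMeasurable (P J) volume := by
    intro J
    have : Continuous (P J) := by
      rw [hP]
      exact continuous_finsetSum _ fun j _ => continuous_const.mul (hTc j)
    exact this.aestronglyMeasurable
  have hPlim : ∀ x, Tendsto (fun J => P J x) atTop (𝓝 (BR δ (fun x => f x) x)) := fun x =>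
    (hasSum_pieces δ hδ ψ hψ hd (fun x => f x) hfi x).tendsto_sum_nat
  have hlim := Lp.eLpNorm_lim_le_liminf_eLpNorm (p := ENNReal.ofReal p) hPm _
    (Filter.Eventually.of_forall hPlim)
  refine hlim.trans ?_
  refine liminf_le_of_le (by isBoundedDefault) ?_
  intro b hb'
  obtain ⟨J, hJ⟩ := hb'.exists
  refine hJ.trans ?_
  calc eLpNorm (P J) (ENNReal.ofReal p) volume
      ≤ ∑ j ∈ Finset.range J, eLpNorm (fun x => (((2 : ℝ) ^ (-(δ * j)) : ℝ) : ℂ) *
          TR n (fun u => ψ (2 ^ j * (1 - u))) (fun x => f x) x) (ENNReal.ofReal p) volume := by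
        have h := eLpNorm_sum_le (μ := (volume : Measure (E n))) (p := ENNReal.ofReal p)
          (f := fun (j : ℕ) (x : E n) => (((2 : ℝ) ^ (-(δ * j)) : ℝ) : ℂ) *
          TR n (fun u => ψ (2 ^ j * (1 - u))) (fun x => f x) x) (s := Finset.range J)
          (fun j _ => (continuous_const.mul (hTc j)).aestronglyMeasurable) hp1
        have e2 : (∑ j ∈ Finset.range J, fun (x : E n) => (((2 : ℝ) ^ (-(δ * j)) : ℝ) : ℂ) *
          TR n (fun u => ψ (2 ^ j * (1 - u))) (fun x => f x) x) = P J := by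
          funext x; rw [Finset.sum_apply]
        rw [e2] at h
        exact h
    _ ≤ ∑ j ∈ Finset.range J, ENNReal.ofReal ((2 : ℝ) ^ (-(δ * j)) * a j) * N f := by
        refine Finset.sum_le_sum fun j _ => ?_
        have h := eLpNorm_const_smul (((2 : ℝ) ^ (-(δ * j)) : ℝ) : ℂ)
          (TR n (fun u => ψ (2 ^ j * (1 - u))) (fun x => f x)) (ENNReal.ofReal p)
          (volume : Measure (E n))
        have e3 : ‖(((2 : ℝ) ^ (-(δ * j)) : ℝ) : ℂ)‖ₑ = ENNReal.ofReal ((2 : ℝ) ^ (-(δ * j))) := by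
          rw [← ofReal_norm, Complex.norm_real, Real.norm_of_nonneg (h2n j)]
        rw [e3] at h
        refine (le_of_eq h).trans ?_
        rw [ENNReal.ofReal_mul (h2n j), mul_assoc]
        gcongr
        exact hpiece j f
    _ = ENNReal.ofReal (∑ j ∈ Finset.range J, (2 : ℝ) ^ (-(δ * j)) * a j) * N f := by
        rw [← Finset.sum_mul, ENNReal.ofReal_sum_of_nonneg]
        intro j _; exact mul_nonneg (h2n j) (ha0 j)
    _ ≤ ENNReal.ofReal (∑' j : ℕ, (2 : ℝ) ^ (-(δ * j)) * a j) * N f := by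
        gcongr
        exact hsum.sum_le_tsum _ fun j _ => mul_nonneg (h2n j) (ha0 j)

end Pool.Agent.TH822.J719
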