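import Mathlib
import Pool.Agent.TH161.KS.Defs
import Pool.Agent.TH161.LW.Main2

/-!
# Project KS, step FREE: an element of a wide antichain far from all others
-/

set_option autoImplicit false

open Finset Filter Topology
open scoped Classical

namespace Pool.Agent.TH822.KS_FREE

open Pool.Agent.TH161.LW Pool.Agent.TH161.KS

lemma eN_pos (P : Type) [Fintype P] [PartialOrder P] : 0 < eN P := by
  unfold eN
  rw [Nat.card_pos_iff]
  refine ⟨?_, inferInstance⟩
  let _ : Fintype (LinearExtension P) := inferInstanceAs (Fintype P)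
  let e : Fin (Fintype.card P) ≃o LinearExtension P :=
    monoEquivOfFin (LinearExtension P) rfl
  let σ : P ≃ Fin (Fintype.card P) := e.symm.toEquiv
  refine ⟨σ, ?_⟩
  have hm : Monotone (toLinearExtension : P → LinearExtension P) := toLinearExtension.monotone
  intro a b hab
  refine lt_of_le_of_ne ?_ (fun h => hab.ne (σ.injective h))
  exact e.symm.monotone (hm hab.le)

/-- few maps have close values at `x` and `y` -/
theorem close_count' {α : Type*} [Fintype α] [PartialOrder α] {M t r : ℕ} {x y : α}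
    (hxy : x ≠ y) :
    ((Om α M).filter fun f => t < len M f x ∧ (f x ≤ f y + r ∧ f y ≤ f x + r)).card * t ≤
      (2 * r + 1) * (Om α M).card := by
  have hA : IsAntichain (· ≤ ·) (({x} : Finset α) : Set α) := by
    rw [Finset.coe_singleton]; exact Set.subsingleton_singleton.isAntichain _
  set E := (Om α M).filter fun f => t < len M f x ∧ (f x ≤ f y + r ∧ f y ≤ f x + r) with hEdef
  have hE : E ⊆ Om α M := Finset.filter_subset _ _
  set H := E.image (Pool.Agent.TH161.LW.pr {x}) with hH
  have hyx : y ∉ ({x} : Finset α) := by simpa using hxy.symm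
  have h1 : E.card ≤ ∑ h ∈ H, (2 * r + 1) := by
    rw [Finset.card_eq_sum_card_image (Pool.Agent.TH161.LW.pr {x}) E]
    refine Finset.sum_le_sum fun h _ => ?_
    have hsub : ((E.filter fun f => Pool.Agent.TH161.LW.pr {x} f = h).image fun f => f x) ⊆
        Finset.Icc (h y - r) (h y + r) := by
      intro v hv
      obtain ⟨f, hf, rfl⟩ := Finset.mem_image.mp hv
      obtain ⟨hfE, hfh⟩ := Finset.mem_filter.mp hf
      obtain ⟨_, _, hcell⟩ := Finset.mem_filter.mp hfE
      have hy : h y = f y := by rw [← hfh, pr_off hyx]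
      rw [hy, Finset.mem_Icc]
      omega
    have hinj : Set.InjOn (fun f : α → ℕ => f x)
        ((E.filter fun f => Pool.Agent.TH161.LW.pr {x} f = h : Finset (α → ℕ)) : Set (α → ℕ)) := by
      intro f hf g hg hfg
      obtain ⟨_, hfh⟩ := Finset.mem_filter.mp hf
      obtain ⟨_, hgh⟩ := Finset.mem_filter.mp hg
      funext z
      by_cases hz : z ∈ ({x} : Finset α)
      · rw [Finset.mem_singleton.mp hz]; exact hfg
      · rw [← pr_off (f := f) hz, ← pr_off (f := g) hz, hfh, hgh]
    rw [← Finset.card_image_of_injOn hinj]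
    calc _ ≤ (Finset.Icc (h y - r) (h y + r)).card := Finset.card_le_card hsub
      _ ≤ 2 * r + 1 := by rw [Nat.card_Icc]; omega
  have h2 : ∑ h ∈ H, (fibE {x} M 0 h).card ≤ (Om α M).card := by
    rw [← Finset.card_biUnion]
    · refine Finset.card_le_card fun f hf => ?_
      obtain ⟨h, hh, hfh⟩ := Finset.mem_biUnion.mp hf
      obtain ⟨f₀, hf₀, rfl⟩ := Finset.mem_image.mp hh
      exact fibE_subset hA (m := 0) (hE hf₀) hfh
    · intro h hh h' hh' hne
      obtain ⟨f₀, hf₀, rfl⟩ := Finset.mem_image.mp hh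
      obtain ⟨f₁, hf₁, rfl⟩ := Finset.mem_image.mp hh'
      rw [Function.onFun, Finset.disjoint_left]
      intro f hf hf'
      exact hne (eq_of_mem_fibE hA hf hf')
  have h3 : ∀ h ∈ H, t ≤ (fibE {x} M 0 h).card := by
    intro h hh
    obtain ⟨f₀, hf₀, rfl⟩ := Finset.mem_image.mp hh
    obtain ⟨_, hlen, _⟩ := Finset.mem_filter.mp hf₀
    have hx : x ∈ ({x} : Finset α) := Finset.mem_singleton_self x
    rw [card_fibE, Finset.prod_singleton, lo_pr hA hx, hi_pr hA hx]
    unfold len at hlen
    omega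
  calc E.card * t ≤ (∑ h ∈ H, (2 * r + 1)) * t := Nat.mul_le_mul_right _ h1
    _ = (2 * r + 1) * ∑ h ∈ H, t := by simp [Finset.sum_const]; ring
    _ ≤ (2 * r + 1) * ∑ h ∈ H, (fibE {x} M 0 h).card :=
        Nat.mul_le_mul_left _ (Finset.sum_le_sum h3)
    _ ≤ _ := Nat.mul_le_mul_left _ h2

/-- the ratio of the numbers of maps to two grids -/
lemma ratio_ev {α : Type*} [Fintype α] [PartialOrder α] (he : 0 < eN α) (T : ℕ → ℕ) {c : ℝ}
    (hc : 1 ≤ c) (hT0 : ∀ M, M ≤ T M) (hT : ∀ M, (T M : ℝ) ≤ c * M) :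
    ∀ᶠ M : ℕ in atTop, 0 < (Om α M).card ∧ ((Om α (T M)).card : ℝ) ≤
      2 * c ^ Fintype.card α * (Om α M).card := by
  set n := Fintype.card α with hn
  set L : ℝ := (eN α : ℝ) * (1 / n.factorial) with hL
  have hLpos : 0 < L := by
    have h1 : (0 : ℝ) < eN α := by exact_mod_cast he
    have h2 : (0 : ℝ) < n.factorial := by exact_mod_cast n.factorial_pos
    positivity
  have hT1 : Tendsto T atTop atTop := Filter.tendsto_atTop_mono hT0 tendsto_id
  have hOm := tendsto_Om (α := α)
  have e1 := hOm.eventually (lt_mem_nhds (show 3 / 4 * L < L by linarith))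
  have e2 := (hOm.comp hT1).eventually (gt_mem_nhds (show L < 5 / 4 * L by linarith))
  filter_upwards [e1, e2, eventually_ge_atTop 1] with M e1 e2 hM
  simp only [Function.comp] at e1 e2
  have hM' : (0 : ℝ) < M := by exact_mod_cast hM
  have hTM : (0 : ℝ) < T M := by exact_mod_cast (lt_of_lt_of_le hM (hT0 M))
  rw [div_lt_iff₀ (by positivity)] at e2
  rw [lt_div_iff₀ (by positivity)] at e1
  have hpow : (T M : ℝ) ^ n ≤ c ^ n * (M : ℝ) ^ n := by
    rw [← mul_pow]
    exact pow_le_pow_left₀ hTM.le (hT M) n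
  have hcn : (0 : ℝ) < c ^ n := by positivity
  constructor
  · have : (0 : ℝ) < (Om α M).card := lt_trans (by positivity) e1
    exact_mod_cast this
  · have h1 := mul_lt_mul_of_pos_left e1 hcn
    have h2 : 5 / 4 * L * (T M : ℝ) ^ n ≤ 5 / 4 * L * (c ^ n * (M : ℝ) ^ n) :=
      mul_le_mul_of_nonneg_left hpow (by positivity)
    have h3 : 0 < L * (c ^ n * (M : ℝ) ^ n) := by positivity
    nlinarith

theorem t_FREE : P_FREE := by
  intro α _ _ A hA hw
  have he := eN_pos α
  set n := Fintype.card α with hn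
  have hwn : A.card ≤ n := Finset.card_le_univ A
  have hn0 : 0 < n := by omega
  have hn' : (0 : ℝ) < n := by exact_mod_cast hn0
  set w := A.card with hwdef
  have hw' : (64 : ℝ) ≤ w := by exact_mod_cast hw
  have hwn' : (w : ℝ) ≤ n := by exact_mod_cast hwn
  -- the grids
  let tt : ℕ → ℕ := fun M => w * M / (256 * n)
  have htt : ∀ M : ℕ, ((tt M : ℕ) : ℝ) ≤ (w : ℝ) * M / (256 * n) := by
    intro M
    have := Nat.cast_div_le (α := ℝ) (m := w * M) (n := 256 * n)
    push_cast at this
    exact this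
  have hev := ratio_ev (α := α) he (fun M => M + 32 * tt M)
    (c := 1 + w / (n * 2 ^ 3)) (by
      have : 0 ≤ (w : ℝ) / (n * 2 ^ 3) := by positivity
      linarith) (fun M => Nat.le_add_right _ _) (fun M => by
      push_cast
      have h1 := htt M
      have h2 : (w : ℝ) * M / (256 * n) * 32 = w / (n * 2 ^ 3) * M := by
        field_simp; norm_num; ring
      linarith)
  filter_upwards [hev, eventually_ge_atTop (4096 * (n + 2))] with M hM hMl
  obtain ⟨hOm, hratio⟩ := hM
  have hMl' : 4096 * ((n : ℝ) + 2) ≤ M := by exact_mod_cast hMl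
  set t := tt M with ht
  -- lower bound for `t`
  have htl : (w : ℝ) * M / (256 * n) - 1 ≤ t := by
    have h1 := Nat.lt_mul_div_succ (w * M) (by omega : 0 < 256 * n)
    have h2 : (w : ℝ) * M < 256 * n * ((t : ℝ) + 1) := by exact_mod_cast h1
    have h3 : (w : ℝ) * M / (256 * n) < t + 1 := by
      rw [div_lt_iff₀ (by positivity)]; linarith
    linarith
  have ht8 : (15 : ℝ) ≤ t := by
    have h1 : (16 : ℝ) ≤ (w : ℝ) * M / (256 * n) := by
      rw [le_div_iff₀ (by positivity)]
      have : (0 : ℝ) ≤ M := Nat.cast_nonneg _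
      nlinarith
    linarith
  have ht8' : 15 ≤ t := by exact_mod_cast ht8
  have hbad := few_bad2 hA 3 M t (by omega) hn0 (by omega) hratio
  have hgood := many_good 3 M t hOm hbad
  have hne : (A.filter fun x => 2 ^ 3 * ((Om α M).filter fun f => len M f x ≤ t).card ≤
      4 * (Om α M).card).Nonempty := by
    rw [← Finset.card_pos]; omega
  obtain ⟨x, hx⟩ := hne
  obtain ⟨hxA, hx2⟩ := Finset.mem_filter.mp hx
  refine ⟨x, hxA, fun y hyx => ?_⟩
  set r := t / 16 with hr
  have hclose := close_count' (α := α) (M := M) (t := t) (r := r) (x := x) (y := y) hyx.symm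
  set O := (Om α M).card with hO
  -- close values
  have hc1 : 4 * ((Om α M).filter fun f => t < len M f x ∧ (f x ≤ f y + r ∧ f y ≤ f x + r)).card ≤
      O := by
    set c := ((Om α M).filter fun f => t < len M f x ∧ (f x ≤ f y + r ∧ f y ≤ f x + r)).card
    have h1 : 4 * (2 * r + 1) ≤ t := by omega
    have h2 : t * (4 * c) ≤ t * O := by
      calc t * (4 * c) = 4 * (c * t) := by ring
        _ ≤ 4 * ((2 * r + 1) * O) := Nat.mul_le_mul_left _ hclose
        _ = (4 * (2 * r + 1)) * O := by ring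
        _ ≤ t * O := Nat.mul_le_mul_right _ h1
    exact Nat.le_of_mul_le_mul_left h2 (by omega)
  have hc2 : ((Om α M).filter fun f => (f x ≤ f y + r ∧ f y ≤ f x + r)).card ≤
      ((Om α M).filter fun f => len M f x ≤ t).card +
      ((Om α M).filter fun f => t < len M f x ∧ (f x ≤ f y + r ∧ f y ≤ f x + r)).card := by
    refine (Finset.card_le_card ?_).trans (Finset.card_union_le _ _)
    intro f hf
    obtain ⟨h3, h4⟩ := Finset.mem_filter.mp hf
    by_cases h5 : len M f x ≤ t
    · exact Finset.mem_union_left _ (Finset.mem_filter.mpr ⟨h3, h5⟩)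
    · exact Finset.mem_union_right _ (Finset.mem_filter.mpr ⟨h3, by omega, h4⟩)
  have hc3 := Finset.card_filter_add_card_filter_not (s := Om α M)
    (fun f : α → ℕ => (f x ≤ f y + r ∧ f y ≤ f x + r))
  have hc4 : O ≤ 4 * ((Om α M).filter fun f : α → ℕ => ¬ (f x ≤ f y + r ∧ f y ≤ f x + r)).card := by
    omega
  -- the mean distance
  have hunit : 0 < unit α M := by unfold unit; positivity
  have hO' : (0 : ℝ) < O := by exact_mod_cast hOm
  have hr' : (t : ℝ) / 16 ≤ (r : ℝ) + 1 := by
    have h1 := Nat.lt_mul_div_succ t (by norm_num : 0 < 16)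
    have h2 : (t : ℝ) < 16 * ((r : ℝ) + 1) := by exact_mod_cast h1
    linarith
  have hsum : (O : ℝ) / 4 * ((t : ℝ) / 16 / unit α M) ≤ ∑ f ∈ Om α M, |dd M x y f| := by
    have h1 : ∑ f ∈ (Om α M).filter (fun f : α → ℕ => ¬ (f x ≤ f y + r ∧ f y ≤ f x + r)),
        ((t : ℝ) / 16 / unit α M) ≤ ∑ f ∈ Om α M, |dd M x y f| := by
      refine le_trans (Finset.sum_le_sum fun f hf => ?_)
        (Finset.sum_le_sum_of_subset_of_nonneg (Finset.filter_subset _ _)
          fun _ _ _ => abs_nonneg _)
      obtain ⟨_, h2⟩ := Finset.mem_filter.mp hf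
      unfold dd
      rw [abs_div, abs_of_pos hunit]
      refine div_le_div_of_nonneg_right ?_ hunit.le
      refine hr'.trans ?_
      rcases not_and_or.mp h2 with h3 | h3
      · have h4 : (f y : ℝ) + r + 1 ≤ f x := by exact_mod_cast (by omega : f y + r + 1 ≤ f x)
        rw [abs_sub_comm]
        exact le_trans (by linarith) (le_abs_self _)
      · have h4 : (f x : ℝ) + r + 1 ≤ f y := by exact_mod_cast (by omega : f x + r + 1 ≤ f y)
        exact le_trans (by linarith) (le_abs_self _)
    refine le_trans ?_ h1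
    rw [Finset.sum_const, nsmul_eq_mul]
    refine mul_le_mul_of_nonneg_right ?_ (by positivity)
    have : (O : ℝ) ≤ 4 * ((Om α M).filter
      fun f : α → ℕ => ¬ (f x ≤ f y + r ∧ f y ≤ f x + r)).card := by exact_mod_cast hc4
    linarith
  unfold rho ex
  rw [le_div_iff₀ hO']
  refine le_trans ?_ hsum
  have hfin : (w : ℝ) / 2 ^ 15 ≤ 1 / 4 * ((t : ℝ) / 16 / unit α M) := by
    unfold unit
    rw [← hn]
    have h1 : 1 / 4 * ((t : ℝ) / 16 / (((M : ℝ) + 1) / ((n : ℝ) + 1))) =
        (t : ℝ) * (n + 1) / (64 * (M + 1)) := by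
      field_simp
      try norm_num
    rw [h1, div_le_div_iff₀ (by positivity) (by positivity)]
    have h2 : ((w : ℝ) * M / (256 * n) - 1) * (n + 1) ≤ t * (n + 1) :=
      mul_le_mul_of_nonneg_right htl (by positivity)
    have h3 : (w : ℝ) * M / 256 - (n + 1) ≤ ((w : ℝ) * M / (256 * n) - 1) * (n + 1) := by
      have e1 : ((w : ℝ) * M / (256 * n) - 1) * (n + 1) =
          w * M / 256 + w * M / (256 * n) - (n + 1) := by
        field_simp
      rw [e1]
      have : 0 ≤ (w : ℝ) * M / (256 * n) := by positivity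
      linarith
    have h4 : (w : ℝ) * (M + 1) / 512 + (n + 1) ≤ w * M / 256 := by
      have h5 : (w : ℝ) * (4096 * ((n : ℝ) + 2)) ≤ w * M :=
        mul_le_mul_of_nonneg_left hMl' (by linarith)
      nlinarith
    norm_num
    nlinarith
  calc (w : ℝ) / 2 ^ 15 * O ≤ (1 / 4 * ((t : ℝ) / 16 / unit α M)) * O :=
        mul_le_mul_of_nonneg_right hfin hO'.le
    _ = _ := by ring

end Pool.Agent.TH822.KS_FREE
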