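import Pool.Agent.TH598.GV.Defs

set_option autoImplicit false

namespace Pool.Agent.TH822.J3419

open Finset Pool.Agent.TH598.GV
open scoped ComplexConjugate

/-- orthogonal projection to the range of a linear map, in coordinates -/
theorem proj {S P : Type} [Fintype S] [Fintype P] (N : (P → ℂ) →ₗ[ℂ] (S → ℂ)) (g : S → ℂ) :
    ∃ v : P → ℂ, ∀ x, ∑ a, N x a * (g a - conj (N v a)) = 0 := by
  classical
  set M : Submodule ℂ (EuclideanSpace ℂ S) :=
    LinearMap.range ((WithLp.linearEquiv 2 ℂ (S → ℂ)).symm.toLinearMap ∘ₗ N) with hM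
  set g' : EuclideanSpace ℂ S := WithLp.toLp 2 (fun a => conj (g a)) with hg
  have hp : (M.starProjection g') ∈ M := by
    exact Submodule.starProjection_apply_mem M g'
  obtain ⟨v, hv⟩ := hp
  refine ⟨v, fun x => ?_⟩
  have hx : ((WithLp.linearEquiv 2 ℂ (S → ℂ)).symm.toLinearMap ∘ₗ N) x ∈ M := ⟨x, rfl⟩
  have ho := Submodule.starProjection_inner_eq_zero g' _ hx
  rw [← hv] at ho
  rw [PiLp.inner_apply] at ho
  have h2 : ∀ a, inner ℂ ((g' - ((WithLp.linearEquiv 2 ℂ (S → ℂ)).symm.toLinearMap ∘ₗ N) v) a)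
      ((((WithLp.linearEquiv 2 ℂ (S → ℂ)).symm.toLinearMap ∘ₗ N) x) a) =
      N x a * (g a - conj (N v a)) := by
    intro a
    simp [hg]
  rw [← ho]
  exact (Finset.sum_congr rfl fun a _ => h2 a).symm

theorem em_inj {k : ℕ} {a b : K k} (h : (em a : Ix k) = em b) : a = b := by
  unfold TH598.GV.em at h
  have h1 := congrArg Prod.fst h
  have h2 := congrArg Prod.snd h
  exact Prod.ext (Fin.succ_injective _ h1) h2

theorem em_ne_e1 {k : ℕ} (a : K k) : (em a : Ix k) ≠ e1 := by
  intro h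
  have h1 := congrArg Prod.fst h
  exact Fin.succ_ne_zero _ h1

theorem em_ne_e0 {k : ℕ} (a : K k) : (em a : Ix k) ≠ e0 := by
  intro h
  have h1 := congrArg Prod.fst h
  exact Fin.succ_ne_zero _ h1

/-- the column `e₁` of the alternating matrix -/
theorem bt_em_e1 {k : ℕ} (z : Sx k → ℂ) (j : K k) : bt z (em j) e1 = -z (Sum.inl j) := by
  unfold bt
  rw [Fintype.sum_sum_type]
  have h1 : ∑ j' : K k, z (Sum.inl j') * E (Sum.inl j') (em j) e1 = -z (Sum.inl j) := by
    rw [Finset.sum_eq_single j]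
    · have : ¬ ((em j : Ix k) = e1 ∧ (e1 : Ix k) = em j) := fun h => em_ne_e1 j h.1
      simp [E, pr, Prod.mk.injEq, this]
    · intro j' _ hj'
      have h2 : ¬ ((em j : Ix k) = e1 ∧ (e1 : Ix k) = em j') := fun h => em_ne_e1 j h.1
      have h3 : ¬ (em j : Ix k) = em j' := fun h => hj' (em_inj h).symm
      simp only [E, pr, Prod.mk.injEq, h2, h3, and_false, if_false, sub_zero, mul_zero]
    · intro h
      exact absurd (Finset.mem_univ _) h
  have h2 : ∑ p : Pr k, z (Sum.inr p) * E (Sum.inr p) (em j) e1 = 0 := by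
    refine Finset.sum_eq_zero fun p _ => ?_
    have h2 : ¬ ((em j : Ix k) = em p.1.1 ∧ (e1 : Ix k) = em p.1.2) :=
      fun h => em_ne_e1 _ h.2.symm
    have h3 : ¬ ((e1 : Ix k) = em p.1.1 ∧ (em j : Ix k) = em p.1.2) :=
      fun h => em_ne_e1 _ h.1.symm
    simp only [E, pr, Prod.mk.injEq, h2, h3, if_false, sub_zero, mul_zero]
  rw [h1, h2, add_zero]

/-- the last block of the alternating matrix -/
theorem bt_em_em {k : ℕ} (z : Sx k → ℂ) (j a : K k) :
    bt z (em j) (em a) = ∑ p : Pr k, z (Sum.inr p) * E (Sum.inr p) (em j) (em a) := by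
  unfold bt
  rw [Fintype.sum_sum_type]
  have h2 : ∑ j' : K k, z (Sum.inl j') * E (Sum.inl j') (em j) (em a) = 0 := by
    refine Finset.sum_eq_zero fun p _ => ?_
    have h2 : ¬ ((em j : Ix k) = e1 ∧ (em a : Ix k) = em p) :=
      fun h => em_ne_e1 _ h.1
    have h3 : ¬ ((em a : Ix k) = e1 ∧ (em j : Ix k) = em p) :=
      fun h => em_ne_e1 _ h.1
    simp only [E, pr, Prod.mk.injEq, h2, h3, if_false, sub_zero, mul_zero]
  rw [h2, zero_add]

theorem E_swap {k : ℕ} (s : Sx k) (i j : Ix k) : E s i j = - E s j i := by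
  unfold E
  ring

/-- pairing with `wv u` -/
theorem bt_wv {k : ℕ} (z : Sx k → ℂ) (u : K k → ℂ) (j : K k) :
    ∑ i, bt z (em j) i * wv u i =
      -z (Sum.inl j) + ∑ a, u a * ∑ p : Pr k, z (Sum.inr p) * E (Sum.inr p) (em j) (em a) := by
  unfold wv
  simp_rw [mul_add, Finset.sum_add_distrib]
  congr 1
  · rw [Finset.sum_eq_single (e1 : Ix k)]
    · rw [if_pos rfl, mul_one, bt_em_e1]
    · intro i _ hi
      rw [if_neg hi, mul_zero]
    · intro h
      exact absurd (Finset.mem_univ _) h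
  · simp_rw [Finset.mul_sum]
    rw [Finset.sum_comm]
    refine Finset.sum_congr rfl fun a _ => ?_
    rw [Finset.sum_eq_single (em a : Ix k)]
    · rw [if_pos rfl, mul_one, bt_em_em, mul_comm, Finset.mul_sum]
    · intro i _ hi
      rw [if_neg hi, mul_zero, mul_zero]
    · intro h
      exact absurd (Finset.mem_univ _) h

/-- the linear map `x ↦ zu (Dm k) u x` -/
noncomputable def zl (k : ℕ) (u : K k → ℂ) : (Pr k → ℂ) →ₗ[ℂ] (Sx k → ℂ) where
  toFun x := zu (Dm k) u x
  map_add' x y := by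
    ext s
    cases s with
    | inl j =>
      simp only [zu, Sum.elim_inl, map_add, Matrix.add_apply, mul_add, Finset.sum_add_distrib,
        Pi.add_apply, neg_add]
    | inr p => simp [zu]
  map_smul' c x := by
    ext s
    cases s with
    | inl j =>
      simp only [zu, Sum.elim_inl, map_smul, Matrix.smul_apply, smul_eq_mul, RingHom.id_apply,
        Pi.smul_apply, mul_neg, Finset.mul_sum]
      congr 1
      exact Finset.sum_congr rfl fun a _ => by ring
    | inr p => simp [zu]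

/-- J9: Riesz representation on the fibre -/
theorem riesz {k : ℕ} (L : Matrix (Sx k) (Sx k) ℂ) (hL : IsUnit L.det) (g : Sx k → ℂ)
    (u : K k → ℂ) : ∃ (v : Pr k → ℂ) (b : Ix k → ℂ), b e0 = 0 ∧
      (∀ x, ∑ a, (L⁻¹.mulVec (zu (Dm k) u x)) a * g a =
        ∑ a, (L⁻¹.mulVec (zu (Dm k) u x)) a * conj ((L⁻¹.mulVec (zu (Dm k) u v)) a)) ∧
      ∀ a, g a - ∑ i, ∑ j, bt (fun s => L s a) i j * b i * wv u j =
        conj ((L⁻¹.mulVec (zu (Dm k) u v)) a) := by
  classical
  obtain ⟨v, hv⟩ := proj ((Matrix.toLin' L⁻¹) ∘ₗ zl k u) g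
  have hv' : ∀ x, ∑ a, (L⁻¹.mulVec (zu (Dm k) u x)) a *
      (g a - conj ((L⁻¹.mulVec (zu (Dm k) u v)) a)) = 0 := hv
  set d : Sx k → ℂ := fun a => g a - conj ((L⁻¹.mulVec (zu (Dm k) u v)) a) with hd
  set μ : Sx k → ℂ := Matrix.vecMul d L⁻¹ with hμ
  have hμL : ∀ a, ∑ s, μ s * L s a = d a := by
    intro a
    have : Matrix.vecMul μ L = d := by
      rw [hμ, Matrix.vecMul_vecMul, Matrix.nonsing_inv_mul L hL, Matrix.vecMul_one]
    rw [← this]
    rfl
  have hμ0 : ∀ x, ∑ s, μ s * zu (Dm k) u x s = 0 := by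
    intro x
    have h1 : dotProduct d (L⁻¹.mulVec (zu (Dm k) u x)) = dotProduct μ (zu (Dm k) u x) :=
      Matrix.dotProduct_mulVec d L⁻¹ _
    have h2 : dotProduct μ (zu (Dm k) u x) = 0 := by
      rw [← h1, ← hv' x]
      unfold dotProduct
      exact Finset.sum_congr rfl fun a _ => mul_comm _ _
    exact h2
  have hp : ∀ p : Pr k, μ (Sum.inr p) =
      ∑ j, μ (Sum.inl j) * ∑ a, u a * E (Sum.inr p) (em a) (em j) := by
    intro p
    have h := hμ0 (Pi.single p 1)
    rw [Fintype.sum_sum_type] at h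
    have h1 : ∑ q : Pr k, μ (Sum.inr q) * zu (Dm k) u (Pi.single p 1) (Sum.inr q) =
        μ (Sum.inr p) := by
      simp [zu, Pi.single_apply]
    have h2 : ∀ a j : K k, Dm k (Pi.single p 1) a j = E (Sum.inr p) (em a) (em j) := by
      intro a j
      change ∑ q : Pr k, (Pi.single p 1 : Pr k → ℂ) q * E (Sum.inr q) (em a) (em j) = _
      simp [Pi.single_apply]
    rw [h1] at h
    simp only [zu, Sum.elim_inl, h2] at h
    rw [← eq_neg_iff_add_eq_zero, ← neg_eq_iff_eq_neg] at h
    rw [← h, ← Finset.sum_neg_distrib]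
    exact Finset.sum_congr rfl fun j _ => by ring
  have hz : ∀ z : Sx k → ℂ, ∑ i, ∑ j, bt z i j *
      (-∑ l : K k, μ (Sum.inl l) * (if i = em l then 1 else 0)) * wv u j = ∑ s, μ s * z s := by
    intro z
    have h1 : ∑ i, ∑ j, bt z i j *
      (-∑ l : K k, μ (Sum.inl l) * (if i = em l then 1 else 0)) * wv u j =
      ∑ l : K k, -μ (Sum.inl l) * ∑ i, bt z (em l) i * wv u i := by
      have h2 : ∀ i : Ix k, ∑ j, bt z i j *
        (-∑ l : K k, μ (Sum.inl l) * (if i = em l then 1 else 0)) * wv u j =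
        ∑ l : K k, (if i = em l then (-μ (Sum.inl l) * ∑ j, bt z i j * wv u j) else 0) := by
        intro i
        have h3 : ∀ l : K k, (if i = em l then (-μ (Sum.inl l) * ∑ j, bt z i j * wv u j) else 0)
            = (-(μ (Sum.inl l) * (if i = em l then 1 else 0))) * ∑ j, bt z i j * wv u j := by
          intro l
          split_ifs <;> ring
        simp_rw [h3]
        rw [← Finset.sum_mul, Finset.sum_neg_distrib, Finset.mul_sum]
        exact Finset.sum_congr rfl fun j _ => by ring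
      simp_rw [h2]
      rw [Finset.sum_comm]
      refine Finset.sum_congr rfl fun l _ => ?_
      rw [Finset.sum_eq_single (em l : Ix k)]
      · rw [if_pos rfl]
      · intro i _ hi
        rw [if_neg hi]
      · intro h
        exact absurd (Finset.mem_univ _) h
    rw [h1]
    simp_rw [bt_wv]
    rw [Fintype.sum_sum_type]
    simp_rw [hp, mul_add, Finset.sum_add_distrib]
    congr 1
    · exact Finset.sum_congr rfl fun l _ => by ring
    · simp_rw [Finset.mul_sum, Finset.sum_mul]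
      rw [Finset.sum_comm (s := (univ : Finset (Pr k)))]
      refine Finset.sum_congr rfl fun l _ => ?_
      rw [Finset.sum_comm (s := (univ : Finset (Pr k)))]
      refine Finset.sum_congr rfl fun a _ => ?_
      refine Finset.sum_congr rfl fun p _ => ?_
      rw [E_swap (Sum.inr p) (em l) (em a)]
      ring
  refine ⟨v, fun i => -∑ l : K k, μ (Sum.inl l) * (if i = em l then 1 else 0), ?_, ?_, ?_⟩
  · rw [neg_eq_zero]
    refine Finset.sum_eq_zero fun l _ => ?_
    rw [if_neg (fun h => em_ne_e0 l h.symm), mul_zero]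
  · intro x
    have h := hv' x
    simp_rw [mul_sub] at h
    rw [Finset.sum_sub_distrib] at h
    exact sub_eq_zero.mp h
  · intro a
    rw [hz (fun s => L s a), hμL a, hd]
    ring

end Pool.Agent.TH822.J3419
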