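import Pool.Agent.TH822.Z3
import Pool.Agent.TH563.Z.Defs

/-!
# Job Z-SD
-/

set_option autoImplicit false

namespace Pool.Agent.TH822.J362

open Filter Topology Metric Set
open scoped Real
open Pool.Agent.W711.HT (rrF ssF Lg bet Rc)
open Pool.Agent.W177.HT (WW dl ss ss_neg)
open Pool.Agent.TH563.Z (gd dz AA Adm Rz S_RRDZ SDZ S_SDZ)
open Pool.Agent.TH822.Z

lemma dz_eq (η : ℝ) : dz η = dd η := rfl

lemma AA_eq (η : ℝ) : PH η = ((AA η : ℝ) : ℂ) := PH_eq η

theorem rrdz : S_RRDZ := by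
  intro η _
  obtain ⟨ρ, hρ, h1, h2, h3, h4⟩ := Pool.Agent.TH822.Z.rrdz η
  exact ⟨ρ, hρ, h1, h2, h3, h4, AA_eq η⟩

theorem sdz : S_SDZ := by
  intro η hη
  obtain ⟨r₀, c, C, hr₀, hc, hC, H⟩ := local_facts η
  have hη0 : 0 < η := hη.1
  set r : ℝ := min (1 / 10) (min (η / 2) (r₀ / 2)) with hr
  have hrpos : 0 < r := lt_min (by norm_num) (lt_min (by positivity) (by positivity))
  have r1 : r ≤ 1 / 10 := min_le_left _ _
  have r2 : r ≤ η / 2 := (min_le_right _ _).trans (min_le_left _ _)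
  have r3 : r ≤ r₀ / 2 := (min_le_right _ _).trans (min_le_right _ _)
  have hin : ∀ z ∈ Rc r r, ‖z‖ < r₀ := by
    rintro z ⟨hz1, hz2⟩
    have h1 := Complex.norm_le_abs_re_add_abs_im z
    linarith
  have hin' : ∀ w ∈ Rz η r r, ‖w - η * Complex.I‖ < r₀ := by
    rintro w ⟨hw1, hw2⟩
    have h1 := Complex.norm_le_abs_re_add_abs_im (w - η * Complex.I)
    have h2 : (w - η * Complex.I).re = w.re := by simp
    have h3 : (w - η * Complex.I).im = w.im - η := by simp
    rw [h2, h3] at h1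
    linarith
  have hb : ss 0 (η * Complex.I) = ((AA η : ℝ) : ℂ) := by
    rw [← AA_eq]
    unfold ss PH
    rw [dl_base]
  have hdb : dl 0 (η * Complex.I) = ((dz η : ℝ) : ℂ) := by
    rw [dl_base, dz_eq]
  refine ⟨r, c, C, ss, dl, ?_⟩
  refine
    { hr := ⟨hrpos, r1, by linarith⟩
      hc := hc
      hC := hC
      san := ?_
      dan := ?_
      sbd := ?_
      ev := fun ψ _ φ _ => ss_neg _ _
      base := hb
      dbase := hdb
      Lbase := ?_
      lip := ?_
      dlip := ?_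
      conc1 := ?_
      conc2 := ?_
      dcos := ?_
      dcrit := ?_
      scrit := fun ψ _ φ _ => rfl
      sder1 := ?_
      sder2 := ?_ }
  · rintro ⟨z, w⟩ ⟨hz, hw⟩
    exact (H z w (hin z hz) (hin' w hw)).2.1.differentiableWithinAt
  · rintro ⟨z, w⟩ ⟨hz, hw⟩
    exact (H z w (hin z hz) (hin' w hw)).1.differentiableWithinAt
  · intro z hz w hw
    exact (H z w (hin z hz) (hin' w hw)).2.2.1
  · have h1 := Lg_base η
    rw [← dd_eqC] at h1
    rw [dz_eq, h1]
    rfl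
  · intro z hz w hw
    have := (H z w (hin z hz) (hin' w hw)).2.2.2.1
    rwa [hb] at this
  · intro z hz w hw
    have := (H z w (hin z hz) (hin' w hw)).2.2.2.2.1
    rwa [hdb] at this
  · intro z hz w hw
    exact (H z w (hin z hz) (hin' w hw)).2.2.2.2.2.2.2.1
  · intro z hz w hw
    exact (H z w (hin z hz) (hin' w hw)).2.2.2.2.2.2.2.2.1
  · intro z hz w hw
    exact (H z w (hin z hz) (hin' w hw)).2.2.2.2.2.2.2.2.2.1
  · intro z hz w hw
    exact (H z w (hin z hz) (hin' w hw)).2.2.2.2.2.2.2.2.2.2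
  · intro z hz w hw
    exact (H z w (hin z hz) (hin' w hw)).2.2.2.2.2.1
  · intro z hz w hw
    exact (H z w (hin z hz) (hin' w hw)).2.2.2.2.2.2.1

end Pool.Agent.TH822.J362
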