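import Pool.Agent.TH563.Z.Kx
import Pool.Agent.W571.FE.EM

/-!
# Job Z-EMR: expansion of the products `R_d` near `(δ₀, 0)` and `(δ₀, i η)`
-/

set_option autoImplicit false

namespace Pool.Agent.TH822.J763

open Finset Filter Topology Metric
open Pool.Agent.W711.HT hiding XX
open Pool.Agent.TH563.Z (gd dz AA Adm Rz S_EMRZ)
open scoped Real

/-- the factor -/
noncomputable def GG (ψ w : ℂ) : ℂ := 2 * Complex.cos ψ + 2 * Complex.cos (2 * π * w)

theorem continuous_GG : Continuous (fun p : ℂ × ℂ => GG p.1 p.2) := by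
  unfold GG
  fun_prop

theorem cos_bound (x : ℝ) (h0 : 0 ≤ x) (h1 : x ≤ 7 / 16) : -(95 / 100) < Real.cos (2 * π * x) := by
  have hpi := Real.pi_pos
  have h2 : Real.cos (π - π / 8) = -(√(2 + √2) / 2) := by
    rw [Real.cos_pi_sub, Real.cos_pi_div_eight]
  have h3 : √2 < 1.5 := by
    rw [Real.sqrt_lt' (by norm_num)]
    norm_num
  have h4 : √(2 + √2) < 1.9 := by
    rw [Real.sqrt_lt' (by norm_num)]
    norm_num at h3 ⊢
    linarith
  have h5 : Real.cos (π - π / 8) ≤ Real.cos (2 * π * x) := by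
    apply Real.cos_le_cos_of_nonneg_of_le_pi
    · positivity
    · linarith
    · nlinarith
  rw [h2] at h5
  norm_num at h4
  linarith

/-- the good region -/
def OO : Set (ℂ × ℂ) := {p | 1 / 20 < (GG p.1 p.2).re ∧ ‖GG p.1 p.2‖ < 17}

theorem isOpen_OO : IsOpen OO := by
  have h1 : IsOpen {p : ℂ × ℂ | 1 / 20 < (GG p.1 p.2).re} :=
    isOpen_lt continuous_const (Complex.continuous_re.comp continuous_GG)
  have h2 : IsOpen {p : ℂ × ℂ | ‖GG p.1 p.2‖ < 17} :=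
    isOpen_lt continuous_GG.norm continuous_const
  exact h1.inter h2

/-- the compact segment -/
def KS (ψ₀ : ℂ) : Set (ℂ × ℂ) := (fun x : ℝ => (ψ₀, (x : ℂ))) '' Set.Icc (0 : ℝ) (7 / 16)

theorem isCompact_KS (ψ₀ : ℂ) : IsCompact (KS ψ₀) := by
  unfold KS
  apply isCompact_Icc.image
  exact continuous_const.prodMk Complex.continuous_ofReal

theorem KS_sub (c : ℝ) (ψ₀ : ℂ) (hc : Complex.cos ψ₀ = ((c : ℝ) : ℂ)) (hc1 : 1 ≤ c) (hc7 : c ≤ 7) :
    KS ψ₀ ⊆ OO := by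
  rintro p ⟨x, hx, rfl⟩
  have e1 : GG ψ₀ (x : ℂ) = ((2 * c + 2 * Real.cos (2 * π * x) : ℝ) : ℂ) := by
    unfold GG
    rw [hc]
    push_cast
    ring
  have e2 := cos_bound x hx.1 hx.2
  have e3 := Real.cos_le_one (2 * π * x)
  have e4 : 1 / 20 < (GG ψ₀ (x : ℂ)).re := by
    rw [e1, Complex.ofReal_re]
    linarith
  have e5 : ‖GG ψ₀ (x : ℂ)‖ < 17 := by
    rw [e1, Complex.norm_real, Real.norm_eq_abs, abs_of_pos (by linarith)]
    linarith
  exact ⟨e4, e5⟩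

theorem mem_KS (ψ₀ : ℂ) (x : ℝ) (h0 : 0 ≤ x) (h1 : x ≤ 7 / 16) : (ψ₀, (x : ℂ)) ∈ KS ψ₀ := by
  unfold KS
  exact Set.mem_image_of_mem (fun x : ℝ => (ψ₀, (x : ℂ))) ⟨h0, h1⟩

theorem mem_OO (ψ w : ℂ) : (ψ, w) ∈ OO ↔ 1 / 20 < (GG ψ w).re ∧ ‖GG ψ w‖ < 17 := Iff.rfl

theorem region0 (c : ℝ) (ψ₀ : ℂ) (hc : Complex.cos ψ₀ = ((c : ℝ) : ℂ)) (hc1 : 1 ≤ c) (hc7 : c ≤ 7) :
    ∃ δ0 : ℝ, 0 < δ0 ∧ ∀ (ψ w : ℂ) (x : ℝ), 0 ≤ x → x ≤ 7 / 16 → ‖ψ - ψ₀‖ < δ0 →
    ‖w - x‖ < δ0 → 1 / 20 < (GG ψ w).re ∧ ‖GG ψ w‖ < 17 := by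
  obtain ⟨δ0, hδ0, hth⟩ :=
    (isCompact_KS ψ₀).exists_thickening_subset_open isOpen_OO (KS_sub c ψ₀ hc hc1 hc7)
  refine ⟨δ0, hδ0, ?_⟩
  intro ψ w x hx0 hx1 hψ hw
  have h1 : (ψ, w) ∈ thickening δ0 (KS ψ₀) := by
    rw [mem_thickening_iff]
    refine ⟨(ψ₀, (x : ℂ)), mem_KS ψ₀ x hx0 hx1, ?_⟩
    rw [Prod.dist_eq, max_lt_iff, dist_eq_norm, dist_eq_norm]
    exact ⟨hψ, hw⟩
  exact (mem_OO ψ w).1 (hth h1)

/-- near one of the two points -/
def Nr (η δ0 : ℝ) (ψ : ℂ) : Prop := ‖ψ‖ < δ0 ∨ ‖ψ - η * Complex.I‖ < δ0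

theorem cosh_le {η : ℝ} (h : Adm η) : Real.cosh η ≤ 7 := by
  have h1 : Real.cosh η = 2 * Real.cosh (η / 2) ^ 2 - 1 := by
    have h2 := Real.cosh_two_mul (η / 2)
    have h3 := Real.cosh_sq (η / 2)
    rw [show 2 * (η / 2) = η by ring] at h2
    linarith
  have h4 := h.2
  have h5 := Real.cosh_pos (η / 2)
  rw [h1]
  nlinarith

theorem region (η : ℝ) (h : Adm η) : ∃ δ0 : ℝ, 0 < δ0 ∧ ∀ (ψ w : ℂ) (x : ℝ), 0 ≤ x → x ≤ 7 / 16 →
    Nr η δ0 ψ → ‖w - x‖ < δ0 → 1 / 20 < (GG ψ w).re ∧ ‖GG ψ w‖ < 17 := by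
  obtain ⟨d1, hd1, H1⟩ := region0 1 0 (by simp) le_rfl (by norm_num)
  obtain ⟨d2, hd2, H2⟩ := region0 (Real.cosh η) (η * Complex.I)
    (by rw [Complex.cos_mul_I, Complex.ofReal_cosh]) (Real.one_le_cosh η) (cosh_le h)
  refine ⟨min d1 d2, lt_min hd1 hd2, fun ψ w x hx0 hx1 hψ hw => ?_⟩
  rcases hψ with hψ | hψ
  · exact H1 ψ w x hx0 hx1 (by rw [sub_zero]; exact hψ.trans_le (min_le_left _ _))
      (hw.trans_le (min_le_left _ _))
  · exact H2 ψ w x hx0 hx1 (hψ.trans_le (min_le_right _ _)) (hw.trans_le (min_le_right _ _))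

/-- the logarithm -/
noncomputable def FF (ψ w : ℂ) : ℂ := Complex.log (GG ψ w)

theorem log_bound (z : ℂ) (h1 : 1 / 20 < z.re) (h2 : ‖z‖ < 17) :
    ‖Complex.log z‖ ≤ Real.log 20 + π := by
  have h3 : 1 / 20 < ‖z‖ := h1.trans_le (Complex.re_le_norm z)
  have h4 : -Real.log 20 ≤ Real.log ‖z‖ := by
    have := Real.log_le_log (by norm_num) h3.le
    rwa [one_div, Real.log_inv] at this
  have h5 : Real.log ‖z‖ ≤ Real.log 20 := Real.log_le_log (by linarith) (by linarith)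
  have h6 := Complex.abs_arg_le_pi z
  unfold Complex.log
  refine (norm_add_le _ _).trans ?_
  rw [norm_mul, Complex.norm_I, mul_one, Complex.norm_real, Complex.norm_real, Real.norm_eq_abs,
    Real.norm_eq_abs]
  have h7 : |Real.log ‖z‖| ≤ Real.log 20 := abs_le.2 ⟨h4, h5⟩
  linarith

theorem differentiable_GG (ψ : ℂ) : Differentiable ℂ (GG ψ) := by
  unfold GG
  fun_prop

theorem diff_iter {F : ℂ → ℂ} {s : Set ℂ} (hs : IsOpen s) (hF : DifferentiableOn ℂ F s) (k : ℕ) :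
    DifferentiableOn ℂ (iteratedDeriv k F) s := by
  induction k with
  | zero => rwa [iteratedDeriv_zero]
  | succ k ih =>
    rw [iteratedDeriv_succ]
    exact ih.deriv hs

theorem dz_pos (η : ℝ) : 0 < dz η := by
  unfold dz
  have h1 := Real.one_le_cosh η
  have h2 : (1 - Real.cosh η) / (3 + Real.cosh η) < 1 := by
    rw [div_lt_one (by linarith)]
    linarith
  have := Real.arccos_pos.2 h2
  have := Real.pi_pos
  positivity

theorem dz_lt {η : ℝ} (h : Adm η) : dz η < 3 / 8 := by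
  have h1 := Real.one_le_cosh η
  have h7 := cosh_le h
  have hpi := Real.pi_pos
  have h2 : -(6 / 10) ≤ (1 - Real.cosh η) / (3 + Real.cosh η) := by
    rw [le_div_iff₀ (by linarith)]
    linarith
  have h2' : (1 - Real.cosh η) / (3 + Real.cosh η) ≤ 1 := by
    rw [div_le_one (by linarith)]
    linarith
  have h3 : Real.cos (π - π / 4) = -(√2 / 2) := by
    rw [Real.cos_pi_sub, Real.cos_pi_div_four]
  have h4 : 1.4 < √2 := by
    rw [Real.lt_sqrt (by norm_num)]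
    norm_num
  have h5 : Real.arccos ((1 - Real.cosh η) / (3 + Real.cosh η)) < Real.arccos (Real.cos (π - π / 4)) := by
    apply Real.arccos_lt_arccos
    · rw [h3]
      have h6 : √2 < 2 := by
        rw [Real.sqrt_lt' (by norm_num)]
        norm_num
      linarith
    · rw [h3]
      norm_num at h4
      linarith
    · exact h2'
  rw [Real.arccos_cos (by linarith) (by linarith)] at h5
  unfold dz
  rw [div_lt_iff₀ (by positivity)]
  linarith

theorem emrz : S_EMRZ := by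
  intro η hη
  have hz0 := dz_pos η
  have hz1 := dz_lt hη
  obtain ⟨b, hb⟩ := Pool.Agent.W571.FE.em (1 / 2) (by norm_num) (by norm_num)
  obtain ⟨δ0, hδ0, hG⟩ := region η hη
  set B := Real.log 20 + π with hB
  have hB0 : 0 ≤ B := by
    have := Real.log_nonneg (show (1 : ℝ) ≤ 20 by norm_num)
    have := Real.pi_pos
    rw [hB]; linarith
  have hreg : ∀ ψ : ℂ, Nr η δ0 ψ → ∀ x : ℝ, 0 ≤ x → x ≤ 7 / 16 → ∀ w : ℂ, ‖w - x‖ < δ0 →
      DifferentiableAt ℂ (FF ψ) w ∧ ‖FF ψ w‖ ≤ B := by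
    intro ψ hψ x hx0 hx1 w hw
    obtain ⟨g1, g2⟩ := hG ψ w x hx0 hx1 hψ hw
    refine ⟨?_, log_bound _ g1 g2⟩
    apply DifferentiableAt.clog (differentiable_GG ψ w)
    rw [Complex.mem_slitPlane_iff]
    left; linarith
  have hball : ∀ ψ : ℂ, Nr η δ0 ψ → ∀ x : ℝ, 0 ≤ x → x ≤ 7 / 16 →
      DifferentiableOn ℂ (FF ψ) (ball (x : ℂ) δ0) := by
    intro ψ hψ x hx0 hx1 w hw
    rw [mem_ball, dist_eq_norm] at hw
    exact (hreg ψ hψ x hx0 hx1 w hw).1.differentiableWithinAt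
  have hcau : ∀ ψ : ℂ, Nr η δ0 ψ → ∀ x : ℝ, 0 ≤ x → x ≤ 7 / 16 → ∀ w : ℂ, ‖w - x‖ < δ0 / 2 →
      ∀ k : ℕ, ‖iteratedDeriv k (FF ψ) w‖ ≤ k.factorial * B / (δ0 / 4) ^ k := by
    intro ψ hψ x hx0 hx1 w hw k
    have hsub : closedBall w (δ0 / 4) ⊆ ball (x : ℂ) δ0 := by
      intro y hy
      rw [mem_closedBall, dist_eq_norm] at hy
      rw [mem_ball, dist_eq_norm]
      have e1 : y - x = (y - w) + (w - x) := by ring
      rw [e1]
      have := norm_add_le (y - w) (w - x)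
      linarith
    apply Complex.norm_iteratedDeriv_le_of_forall_mem_sphere_norm_le k (by positivity)
    · exact (hball ψ hψ x hx0 hx1).diffContOnCl_ball hsub
    · intro y hy
      have h1 := hsub (sphere_subset_closedBall hy)
      rw [mem_ball, dist_eq_norm] at h1
      exact (hreg ψ hψ x hx0 hx1 y h1).2
  set ρ := min (1 / 16) (δ0 / 2) with hρ
  have hρ0 : 0 < ρ := lt_min (by norm_num) (by positivity)
  have hρ1 : ρ ≤ 1 / 16 := min_le_left _ _
  have hρ2 : ρ ≤ δ0 / 2 := min_le_right _ _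
  have hnr : ∀ ψ ∈ ball (0 : ℂ) ρ ∪ ball (η * Complex.I) ρ, Nr η δ0 ψ := by
    rintro ψ (h | h)
    · left
      rw [mem_ball, dist_zero_right] at h
      linarith
    · right
      rw [mem_ball, dist_eq_norm] at h
      linarith
  refine ⟨ρ, hρ0, hρ1, fun k δ ψ => (b k : ℂ) *
    (iteratedDeriv k (FF ψ) δ - iteratedDeriv k (FF ψ) 0), ?_, ?_, ?_⟩
  · intro k ψ hψ
    have h1 := hball ψ (hnr ψ hψ) (dz η) hz0.le (by linarith)
    have h2 := (diff_iter isOpen_ball h1 k).mono (ball_subset_ball (x := (dz η : ℂ))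
      (show ρ ≤ δ0 by linarith))
    exact (h2.sub (differentiableOn_const _)).const_mul _
  · intro k
    refine ⟨|b k| * (k.factorial * B / (δ0 / 4) ^ k + k.factorial * B / (δ0 / 4) ^ k), ?_⟩
    intro δ hδ ψ hψ
    rw [mem_ball, dist_eq_norm] at hδ
    have e1 := hcau ψ (hnr ψ hψ) (dz η) hz0.le (by linarith) δ
      (by linarith) k
    have e2 := hcau ψ (hnr ψ hψ) 0 (by norm_num) (by norm_num) 0
      (by rw [Complex.ofReal_zero, sub_zero, norm_zero]; positivity) k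
    rw [norm_mul, Complex.norm_real, Real.norm_eq_abs]
    apply mul_le_mul_of_nonneg_left _ (abs_nonneg _)
    exact (norm_sub_le _ _).trans (add_le_add e1 e2)
  · intro K
    obtain ⟨C, hC0, hC⟩ := hb K
    refine ⟨C * (B * (1 / δ0) ^ (K + 1)), ?_⟩
    filter_upwards [eventually_ge_atTop (max 1 ⌈4 / δ0⌉₊)] with N hN d hd ψ hψ
    have hN1 : 1 ≤ N := (le_max_left _ _).trans hN
    have hNr : (0 : ℝ) < N := by exact_mod_cast hN1
    have hNc : (N : ℂ) ≠ 0 := by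
      have : N ≠ 0 := by omega
      exact_mod_cast this
    have hN4 : 4 / δ0 ≤ N := by
      have h1 : ⌈4 / δ0⌉₊ ≤ N := (le_max_right _ _).trans hN
      exact (Nat.le_ceil _).trans (by exact_mod_cast h1)
    have hε : 4 * (1 / (N : ℝ)) ≤ δ0 := by
      rw [mul_one_div, div_le_iff₀ hNr]
      rw [div_le_iff₀ hδ0] at hN4
      linarith
    rw [abs_lt] at hd
    have hdN : (d : ℝ) * (1 / N) = (d : ℝ) / N := by ring
    have hd1 : (d : ℝ) / N ≤ 7 / 16 := by linarith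
    have hem := hC (FF ψ) 0 d (1 / (N : ℝ)) δ0 B (by positivity) hε (by
      intro x hx0 hx1 w hw
      rw [zero_add] at hw
      exact hreg ψ (hnr ψ hψ) x hx0 (by rw [hdN] at hx1; linarith) w hw)
    -- the sum
    have hsum : ∀ j ∈ range d, 2 * Complex.cos ψ + 2 * (Real.cos (phi N j) : ℂ) =
        Complex.exp (FF ψ (0 + ((1 / (N : ℝ) : ℝ) : ℂ) * ((j : ℂ) + ((1 / 2 : ℝ) : ℂ)))) := by
      intro j hj
      rw [mem_range] at hj
      have hjd : (j : ℝ) + 1 / 2 ≤ d := by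
        have : (j : ℝ) + 1 ≤ d := by exact_mod_cast hj
        linarith
      have hx : (0 : ℝ) ≤ ((j : ℝ) + 1 / 2) / N := by positivity
      have hx1 : ((j : ℝ) + 1 / 2) / N ≤ 7 / 16 :=
        (div_le_div_of_nonneg_right hjd hNr.le).trans hd1
      have earg : (0 : ℂ) + ((1 / (N : ℝ) : ℝ) : ℂ) * ((j : ℂ) + ((1 / 2 : ℝ) : ℂ)) =
          ((((j : ℝ) + 1 / 2) / N : ℝ) : ℂ) := by
        push_cast
        ring
      rw [earg]
      have hg := hG ψ ((((j : ℝ) + 1 / 2) / N : ℝ) : ℂ) (((j : ℝ) + 1 / 2) / N) hx hx1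
        (hnr ψ hψ) (by rw [sub_self, norm_zero]; exact hδ0)
      have hg0 : GG ψ ((((j : ℝ) + 1 / 2) / N : ℝ) : ℂ) ≠ 0 := by
        intro h0
        rw [h0, Complex.zero_re] at hg
        linarith [hg.1]
      unfold FF
      rw [Complex.exp_log hg0]
      unfold GG phi
      rw [Complex.ofReal_cos]
      congr 3
      push_cast
      ring
    have hprod : Rp N d ψ = Complex.exp (∑ j ∈ range d,
        FF ψ (0 + ((1 / (N : ℝ) : ℝ) : ℂ) * ((j : ℂ) + ((1 / 2 : ℝ) : ℂ)))) := by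
      unfold Rp
      rw [Complex.exp_sum]
      exact prod_congr rfl hsum
    -- the integral
    have hint : (((1 / (N : ℝ) : ℝ) : ℂ))⁻¹ * (∫ x in (0:ℝ)..(d * (1 / (N : ℝ))), FF ψ (0 + x)) =
        N * rrF ((d : ℂ) / N) ψ := by
      have e1 := intervalIntegral.smul_integral_comp_mul_left (a := 0) (b := 1)
        (fun x : ℝ => FF ψ (0 + (x : ℂ))) ((d : ℝ) * (1 / N))
      rw [mul_zero, mul_one] at e1
      rw [← e1]
      unfold rrF
      rw [Complex.real_smul]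
      have e2 : ∀ t : ℝ, FF ψ (0 + (((d : ℝ) * (1 / N) * t : ℝ) : ℂ)) =
          Complex.log (2 * Complex.cos ψ + 2 * Complex.cos (2 * π * ((d : ℂ) / N) * t)) := by
        intro t
        unfold FF GG
        congr 4
        push_cast
        ring
      simp only [e2]
      push_cast
      field_simp
    rw [hint] at hem
    refine ⟨(∑ j ∈ range d,
        FF ψ (0 + ((1 / (N : ℝ) : ℝ) : ℂ) * ((j : ℂ) + ((1 / 2 : ℝ) : ℂ)))) -
        N * rrF ((d : ℂ) / N) ψ - ∑ k ∈ range K, (b k : ℂ) * ((1 / (N : ℝ) : ℝ) : ℂ) ^ k *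
        (iteratedDeriv k (FF ψ) (0 + d * ((1 / (N : ℝ) : ℝ) : ℂ)) - iteratedDeriv k (FF ψ) 0),
        ?_, ?_⟩
    · refine hem.trans ?_
      have hdle : (d : ℝ) ≤ N := by
        rw [div_le_iff₀ hNr] at hd1
        linarith
      have e3 : C * ((d : ℝ) * B * (1 / (N : ℝ) / δ0) ^ (K + 1)) ≤
          C * ((N : ℝ) * B * (1 / (N : ℝ) / δ0) ^ (K + 1)) := by
        apply mul_le_mul_of_nonneg_left _ hC0
        apply mul_le_mul_of_nonneg_right _ (by positivity)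
        exact mul_le_mul_of_nonneg_right hdle hB0
      refine e3.trans (le_of_eq ?_)
      have e4 : (1 / (N : ℝ) / δ0) ^ (K + 1) = (1 / (N : ℝ)) ^ (K + 1) * (1 / δ0) ^ (K + 1) := by
        rw [← mul_pow]
        congr 1
        ring
      rw [e4]
      have e5 : (N : ℝ) * (1 / (N : ℝ)) ^ (K + 1) = 1 / (N : ℝ) ^ K := by
        rw [pow_succ, one_div, inv_pow, one_div]
        field_simp
      calc C * ((N : ℝ) * B * ((1 / (N : ℝ)) ^ (K + 1) * (1 / δ0) ^ (K + 1)))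
          = C * (B * (1 / δ0) ^ (K + 1)) * ((N : ℝ) * (1 / (N : ℝ)) ^ (K + 1)) := by ring
        _ = _ := by rw [e5]; ring
    · rw [hprod]
      congr 1
      have e6 : ∑ k ∈ range K, (b k : ℂ) * ((1 / (N : ℝ) : ℝ) : ℂ) ^ k *
          (iteratedDeriv k (FF ψ) (0 + d * ((1 / (N : ℝ) : ℝ) : ℂ)) - iteratedDeriv k (FF ψ) 0) =
          ∑ k ∈ range K, (b k : ℂ) * (iteratedDeriv k (FF ψ) ((d : ℂ) / N) -
            iteratedDeriv k (FF ψ) 0) / (N : ℂ) ^ k := by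
        refine sum_congr rfl fun k _ => ?_
        have e7 : (0 : ℂ) + d * ((1 / (N : ℝ) : ℝ) : ℂ) = (d : ℂ) / N := by
          push_cast
          ring
        rw [e7]
        push_cast
        rw [one_div, inv_pow]
        ring
      rw [e6]
      ring

end Pool.Agent.TH822.J763
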