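import Pool.Agent.TH716.TW.Defs

set_option autoImplicit false

/-!
Job 1405 (project TW): the group law of `y² = x³ - 3x + 1` in coordinates.
-/

namespace Pool.Agent.TH822.J1405

open Pool.Agent.TH716.TW
open WeierstrassCurve

/-- the cubic has no rational root -/
lemma cubic_ne (x : ℚ) : x ^ 3 - 3 * x + 1 ≠ 0 := by
  intro h
  have hd : (x.den : ℚ) ≠ 0 := by exact_mod_cast x.den_nz
  have hx : x * x.den = x.num := Rat.mul_den_eq_num x
  have h1 : (x.num : ℚ) ^ 3 - 3 * x.num * (x.den : ℚ) ^ 2 + (x.den : ℚ) ^ 3 = 0 := by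
    rw [← hx]
    linear_combination (x.den : ℚ) ^ 3 * h
  have h2 : x.num ^ 3 - 3 * x.num * (x.den : ℤ) ^ 2 + (x.den : ℤ) ^ 3 = 0 := by exact_mod_cast h1
  have hc := x.reduced
  rcases Int.even_or_odd x.num with ha | ha <;> rcases Int.even_or_odd (x.den : ℤ) with hb | hb
  · have e1 : 2 ∣ x.num.natAbs := by
      rw [← even_iff_two_dvd]; exact Int.natAbs_even.mpr ha
    have e2 : 2 ∣ x.den := by
      rw [← even_iff_two_dvd]; exact_mod_cast hb
    have := Nat.dvd_gcd e1 e2
    rw [hc] at this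
    omega
  · have : Odd (x.num ^ 3 - 3 * x.num * (x.den : ℤ) ^ 2 + (x.den : ℤ) ^ 3) := by
      apply Even.add_odd
      · exact ((ha.pow_of_ne_zero (by norm_num)).sub ((ha.mul_left 3).mul_right _))
      · exact hb.pow
    rw [h2] at this
    simp at this
  · have : Odd (x.num ^ 3 - 3 * x.num * (x.den : ℤ) ^ 2 + (x.den : ℤ) ^ 3) := by
      apply Odd.add_even
      · exact (ha.pow).sub_even ((hb.pow_of_ne_zero (by norm_num)).mul_left _)
      · exact hb.pow_of_ne_zero (by norm_num)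
    rw [h2] at this
    simp at this
  · have : Odd (x.num ^ 3 - 3 * x.num * (x.den : ℤ) ^ 2 + (x.den : ℤ) ^ 3) := by
      apply Even.add_odd
      · apply Odd.sub_odd ha.pow
        exact (Odd.mul (by decide) ha).mul hb.pow
      · exact hb.pow
    rw [h2] at this
    simp at this

lemma W_equation_iff {x y : ℚ} :
    W.toAffine.Equation x y ↔ y ^ 2 = x ^ 3 - 3 * x + 1 := by
  rw [WeierstrassCurve.Affine.equation_iff]
  simp only [W]
  constructor <;> intro h <;> linarith

lemma W_nonsingular_iff {x y : ℚ} :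
    W.toAffine.Nonsingular x y ↔ y ^ 2 = x ^ 3 - 3 * x + 1 := by
  rw [WeierstrassCurve.Affine.nonsingular_iff, W_equation_iff]
  constructor
  · exact fun h => h.1
  · intro h
    refine ⟨h, ?_⟩
    simp only [W]
    right
    intro h1
    have hy : y = 0 := by linarith
    rw [hy] at h
    exact cubic_ne x (by linarith)

@[simp] lemma ptX_some {x y : ℚ} (h : W.toAffine.Nonsingular x y) :
    ptX (Affine.Point.some x y h) = x := rfl
@[simp] lemma ptY_some {x y : ℚ} (h : W.toAffine.Nonsingular x y) :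
    ptY (Affine.Point.some x y h) = y := rfl
@[simp] lemma ptX_zero : ptX 0 = 0 := rfl
@[simp] lemma ptY_zero : ptY 0 = 0 := rfl

lemma W_negY (x y : ℚ) : W.toAffine.negY x y = -y := by
  simp [Affine.negY, W]

lemma W_addX (x₁ x₂ l : ℚ) : W.toAffine.addX x₁ x₂ l = l ^ 2 - x₁ - x₂ := by
  simp [Affine.addX, W]

lemma W_addY (x₁ x₂ y₁ l : ℚ) :
    W.toAffine.addY x₁ x₂ y₁ l = -(l * ((l ^ 2 - x₁ - x₂) - x₁) + y₁) := by
  rw [Affine.addY, W_negY, Affine.negAddY, W_addX]

/-- case analysis on nonzero points -/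
lemma exists_some {P : Pt} (hP : P ≠ 0) :
    ∃ (x y : ℚ) (h : W.toAffine.Nonsingular x y), P = Affine.Point.some x y h := by
  cases P with
  | zero => exact absurd rfl hP
  | some x y h => exact ⟨x, y, h, rfl⟩

theorem ptX_neg (P : Pt) : ptX (-P) = ptX P := by
  cases P with
  | zero => rfl
  | some x y h => rw [Affine.Point.neg_some]; rfl

theorem ptY_neg (P : Pt) : ptY (-P) = - ptY P := by
  cases P with
  | zero => change (0 : ℚ) = - 0; simp
  | some x y h => rw [Affine.Point.neg_some, ptY_some, ptY_some, W_negY]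

theorem pt_eq {P : Pt} (h : P ≠ 0) : ptY P ^ 2 = ptX P ^ 3 - 3 * ptX P + 1 := by
  obtain ⟨x, y, hxy, rfl⟩ := exists_some h
  exact W_nonsingular_iff.mp hxy

theorem ptY_ne {P : Pt} (h : P ≠ 0) : ptY P ≠ 0 := by
  intro h0
  have h1 := pt_eq h
  rw [h0] at h1
  exact cubic_ne (ptX P) (by linarith)

theorem ptX_eq_iff {P Q : Pt} (hP : P ≠ 0) (hQ : Q ≠ 0) : ptX P = ptX Q ↔ P = Q ∨ P = -Q := by
  constructor
  · intro h
    obtain ⟨x, y, hxy, rfl⟩ := exists_some hP
    obtain ⟨x', y', hxy', rfl⟩ := exists_some hQ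
    simp only [ptX_some] at h
    subst h
    have h1 := W_nonsingular_iff.mp hxy
    have h2 := W_nonsingular_iff.mp hxy'
    have h3 : y ^ 2 = y' ^ 2 := by rw [h1, h2]
    rcases sq_eq_sq_iff_eq_or_eq_neg.mp h3 with h4 | h4
    · left; subst h4; rfl
    · right
      rw [Affine.Point.neg_some]
      subst h4
      simp only [Affine.Point.some.injEq, W_negY, and_self]
  · rintro (h | h)
    · rw [h]
    · rw [h, ptX_neg]

theorem pt_add {P Q : Pt} (hP : P ≠ 0) (hQ : Q ≠ 0) (h : ptX P ≠ ptX Q) :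
    let l := (ptY P - ptY Q) / (ptX P - ptX Q)
    P + Q ≠ 0 ∧ ptX (P + Q) = l ^ 2 - ptX P - ptX Q ∧
      ptY (P + Q) = - (l * (ptX (P + Q) - ptX P) + ptY P) := by
  obtain ⟨x, y, hxy, rfl⟩ := exists_some hP
  obtain ⟨x', y', hxy', rfl⟩ := exists_some hQ
  simp only [ptX_some, ptY_some] at h ⊢
  rw [Affine.Point.add_of_X_ne h]
  refine ⟨Affine.Point.some_ne_zero _, ?_, ?_⟩
  · rw [ptX_some, W_addX, Affine.slope_of_X_ne h]
  · rw [ptX_some, ptY_some, W_addX, W_addY, Affine.slope_of_X_ne h]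

theorem pt_dbl {P : Pt} (hP : P ≠ 0) :
    let l := (3 * ptX P ^ 2 - 3) / (2 * ptY P)
    P + P ≠ 0 ∧ ptX (P + P) = l ^ 2 - 2 * ptX P ∧
      ptX (P + P) = (ptX P ^ 4 + 6 * ptX P ^ 2 - 8 * ptX P + 9) / (4 * ptY P ^ 2) ∧
      ptY (P + P) = - (l * (ptX (P + P) - ptX P) + ptY P) := by
  have h := ptY_ne hP
  obtain ⟨x, y, hxy, rfl⟩ := exists_some hP
  simp only [ptX_some, ptY_some] at h ⊢
  have hy : y ≠ W.toAffine.negY x y := by
    rw [W_negY]
    intro h1
    exact h (by linarith)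
  have hsl : W.toAffine.slope x x y y = (3 * x ^ 2 - 3) / (2 * y) := by
    rw [Affine.slope_of_Y_ne rfl hy, W_negY]
    simp only [W]
    congr 1 <;> ring
  rw [Affine.Point.add_self_of_Y_ne hy]
  have h1 : ptX (Affine.Point.some (W.toAffine.addX x x (W.toAffine.slope x x y y))
      (W.toAffine.addY x x y (W.toAffine.slope x x y y)) (Affine.nonsingular_add hxy hxy
        fun hxy => hy hxy.right)) = ((3 * x ^ 2 - 3) / (2 * y)) ^ 2 - 2 * x := by
    rw [ptX_some, W_addX, hsl]; ring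
  refine ⟨Affine.Point.some_ne_zero _, h1, ?_, ?_⟩
  · rw [h1]
    have h2 := W_nonsingular_iff.mp hxy
    field_simp
    linear_combination (-32 * x) * h2
  · rw [h1, ptY_some, W_addY, hsl]; ring

/-! ### infinite order -/

lemma P0_ne : P0 ≠ 0 := by
  intro h
  exact WeierstrassCurve.Affine.Point.some_ne_zero P0_ns h

lemma X1 : ptX P0 = 0 := rfl
lemma Y1 : ptY P0 = 1 := rfl

instance : Fact (Nat.Prime 2) := ⟨Nat.prime_two⟩

/-- lower bound for the valuation -/
def Lb (k : ℤ) (q : ℚ) : Prop := q ≠ 0 → k ≤ padicValRat 2 q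

lemma Lb.add {k : ℤ} {q r : ℚ} (hq : Lb k q) (hr : Lb k r) : Lb k (q + r) := by
  intro h
  by_cases h1 : q = 0
  · rw [h1, zero_add] at h ⊢; exact hr h
  · by_cases h2 : r = 0
    · rw [h2, add_zero] at h ⊢; exact hq h
    · exact (le_min (hq h1) (hr h2)).trans (padicValRat.min_le_padicValRat_add h)

lemma val_add {q r : ℚ} {a : ℤ} (hq : q ≠ 0) (ha : padicValRat 2 q = a) (hr : Lb (a + 1) r) :
    q + r ≠ 0 ∧ padicValRat 2 (q + r) = a := by
  by_cases h1 : r = 0
  · rw [h1, add_zero]; exact ⟨hq, ha⟩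
  · have h2 := hr h1
    have h3 : q + r ≠ 0 := by
      intro h
      have : r = -q := by linarith
      rw [this, padicValRat.neg, ha] at h2
      omega
    refine ⟨h3, ?_⟩
    rw [padicValRat.add_eq_of_lt h3 hq h1 (by rw [ha]; omega), ha]

lemma val_two : padicValRat 2 (2 : ℚ) = 1 := by
  have := padicValRat.self (p := 2) (by norm_num)
  exact_mod_cast this

lemma Lb_int (n : ℤ) : Lb 0 (n : ℚ) := by
  intro _
  rw [padicValRat.of_int]
  positivity

lemma Lb.mul {k l : ℤ} {q r : ℚ} (hq : Lb k q) (hr : Lb l r) : Lb (k + l) (q * r) := by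
  intro h
  have h1 : q ≠ 0 := left_ne_zero_of_mul h
  have h2 : r ≠ 0 := right_ne_zero_of_mul h
  rw [padicValRat.mul h1 h2]
  exact add_le_add (hq h1) (hr h2)

lemma Lb.mono {k l : ℤ} {q : ℚ} (hq : Lb k q) (h : l ≤ k) : Lb l q := fun h0 => h.trans (hq h0)

/-- poles at `2` deepen by duplication -/
lemma val_dbl {Q : Pt} {v : ℤ} (hv : padicValRat 2 (ptX Q) = v) (hneg : v < 0) :
    padicValRat 2 (ptX (Q + Q)) = v - 2 := by
  have hQ : Q ≠ 0 := by
    rintro rfl
    rw [ptX_zero, padicValRat.zero] at hv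
    omega
  have hx : ptX Q ≠ 0 := by
    intro h
    rw [h, padicValRat.zero] at hv
    omega
  have hy := ptY_ne hQ
  have he := pt_eq hQ
  obtain ⟨-, -, hd, -⟩ := pt_dbl hQ
  set x := ptX Q with hxd
  set y := ptY Q with hyd
  have hxL : Lb v x := fun _ => hv.ge
  -- the ordinate
  have h3 : padicValRat 2 (x ^ 3) = 3 * v := by rw [padicValRat.pow, hv]; rfl
  have h4 : padicValRat 2 (x ^ 4) = 4 * v := by rw [padicValRat.pow, hv]; rfl
  have hL1 : Lb (3 * v + 1) (-3 * x + 1) := by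
    apply Lb.add
    · have := (Lb_int (-3)).mul hxL
      push_cast at this
      exact this.mono (by omega)
    · have := Lb_int 1
      push_cast at this
      exact this.mono (by omega)
  have hy2 : padicValRat 2 (y ^ 2) = 3 * v := by
    have h5 := (val_add (pow_ne_zero 3 hx) h3 hL1).2
    have e : y ^ 2 = x ^ 3 + (-3 * x + 1) := by rw [he]; ring
    rw [e]; exact h5
  have hL2 : Lb (4 * v + 1) (6 * (x * x) + (-8 * x + 9)) := by
    apply Lb.add
    · have := (Lb_int 6).mul (hxL.mul hxL)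
      push_cast at this
      exact this.mono (by omega)
    · apply Lb.add
      · have := (Lb_int (-8)).mul hxL
        push_cast at this
        exact this.mono (by omega)
      · have := Lb_int 9
        push_cast at this
        exact this.mono (by omega)
  have hn := val_add (pow_ne_zero 4 hx) h4 hL2
  have e2 : x ^ 4 + 6 * x ^ 2 - 8 * x + 9 = x ^ 4 + (6 * (x * x) + (-8 * x + 9)) := by ring
  rw [hd, e2, padicValRat.div hn.1 (mul_ne_zero (by norm_num) (pow_ne_zero 2 hy)), hn.2,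
    padicValRat.mul (by norm_num) (pow_ne_zero 2 hy), hy2]
  have e3 : padicValRat 2 (4 : ℚ) = 2 := by
    have : (4 : ℚ) = 2 * 2 := by norm_num
    rw [this, padicValRat.mul (by norm_num) (by norm_num), val_two]
    norm_num
  rw [e3]
  ring

lemma two_P0 : ptX (P0 + P0) = 9 / 4 := by
  have h := (pt_dbl P0_ne).2.1
  rw [h, X1, Y1]
  norm_num

lemma val_one : padicValRat 2 (ptX ((2 : ℤ) ^ 1 • P0)) = -2 := by
  rw [pow_one, two_zsmul, two_P0]
  have e9 : padicValRat 2 (9 : ℚ) = 0 := by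
    have : ((9 : ℕ) : ℚ) = 9 := by norm_num
    rw [← this, padicValRat.of_nat, padicValNat.eq_zero_of_not_dvd (by norm_num)]
    rfl
  have e3 : padicValRat 2 (4 : ℚ) = 2 := by
    have : (4 : ℚ) = 2 * 2 := by norm_num
    rw [this, padicValRat.mul (by norm_num) (by norm_num), val_two]
    norm_num
  rw [padicValRat.div (by norm_num) (by norm_num), e9, e3]
  norm_num

lemma val_pow (k : ℕ) : padicValRat 2 (ptX ((2 : ℤ) ^ (k + 1) • P0)) = -2 * ((k : ℤ) + 1) := by
  induction k with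
  | zero => rw [zero_add, val_one]; norm_num
  | succ k ih =>
    have e : (2 : ℤ) ^ (k + 1 + 1) • P0 = (2 : ℤ) ^ (k + 1) • P0 + (2 : ℤ) ^ (k + 1) • P0 := by
      rw [pow_succ, mul_comm, mul_zsmul, two_zsmul]
    rw [e, val_dbl ih (by omega)]
    push_cast
    ring

theorem smul_P0_ne {n : ℤ} (hn : n ≠ 0) : n • P0 ≠ 0 := by
  intro h
  have hfin : IsOfFinAddOrder P0 := isOfFinAddOrder_iff_zsmul_eq_zero.mpr ⟨n, hn, h⟩
  have hf := finite_zmultiples.mpr hfin
  have hinj : Function.Injective (fun k : ℕ => (2 : ℤ) ^ (k + 1) • P0) := by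
    intro a b hab
    have h1 := val_pow a
    have h2 := val_pow b
    simp only at hab
    rw [hab, h2] at h1
    omega
  exact (Set.infinite_of_injective_forall_mem hinj fun k =>
    AddSubgroup.mem_zmultiples_iff.mpr ⟨_, rfl⟩) hf

theorem result : GrpFacts := by
  have hinj : ∀ a b : ℤ, a • P0 = b • P0 → a = b := by
    intro a b h
    by_contra hne
    apply smul_P0_ne (sub_ne_zero.mpr hne)
    rw [sub_zsmul, h, add_neg_cancel]
  refine ⟨fun n hn => smul_P0_ne hn, fun n hn => pt_eq (smul_P0_ne hn),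
    fun n hn => ptY_ne (smul_P0_ne hn), fun n => ⟨?_, ?_⟩, ?_, ?_, ?_, ?_, ?_⟩
  · unfold zz
    rw [neg_zsmul, ptX_neg]
  · unfold yy
    rw [neg_zsmul, ptY_neg]
  · intro m n hm hn
    unfold zz
    rw [ptX_eq_iff (smul_P0_ne hm) (smul_P0_ne hn)]
    constructor
    · rintro (h | h)
      · exact Or.inl (hinj _ _ h)
      · right
        apply hinj
        rw [neg_zsmul, h]
    · rintro (h | h)
      · left; rw [h]
      · right; rw [h, neg_zsmul]
  · intro m n hm hn hmn
    have h := pt_add (smul_P0_ne hm) (smul_P0_ne hn) hmn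
    unfold zz yy
    rw [add_zsmul]
    exact ⟨h.2.1, h.2.2⟩
  · intro n hn
    have h := pt_dbl (smul_P0_ne hn)
    unfold zz yy
    rw [mul_zsmul, two_zsmul]
    exact ⟨h.2.1, h.2.2.2⟩
  · constructor
    · unfold zz; rw [one_zsmul, X1]
    · unfold yy; rw [one_zsmul, Y1]
  · intro n hn
    have h := pt_dbl (smul_P0_ne hn)
    have hy := ptY_ne (smul_P0_ne hn)
    unfold zz
    rw [mul_zsmul, two_zsmul, h.2.2.1]
    apply div_pos
    · have : ∀ x : ℚ, 0 < x ^ 4 + 6 * x ^ 2 - 8 * x + 9 := by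
        intro x
        nlinarith [sq_nonneg (x ^ 2), sq_nonneg (3 * x - 2), sq_nonneg (x - 1)]
      exact this _
    · positivity

end Pool.Agent.TH822.J1405
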