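import Pool.Agent.TH806.N4.Defs3
import Pool.Agent.TH806.TwB

set_option autoImplicit false

/-!
Job N4-TWM (helper806): the second moment of zeta times a Dirichlet polynomial, main term.
-/

namespace Pool.Agent.TH822.N4_TWM

open Finset Filter Topology MeasureTheory Complex MonoidAlgebra
open Pool.Agent.W184.NZ Pool.Agent.TH806 Pool.Agent.TH806.N4
open Pool.Agent.H306R2.SM (om cl Yf)
open Pool.Agent.H262R4.TM (Rng Ck)

noncomputable section

lemma gk_eq_w1 (m n : ℕ) : gk m n = w1 (m, n) := rfl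

lemma gk_nonneg (m n : ℕ) : 0 ≤ gk m n := by unfold gk; positivity

/-- the sum of the kernel -/
lemma sum_gk (M : ℕ) : ∑ m ∈ Icc 1 M, ∑ n ∈ Icc 1 M, gk m n ≤ (∑ a ∈ Icc 1 M, (1:ℝ) / a) ^ 3 := by
  set S := Icc 1 M with hS
  set φ : ℕ × ℕ → ℕ × ℕ × ℕ := fun x => (Nat.gcd x.1 x.2, x.1 / Nat.gcd x.1 x.2, x.2 / Nat.gcd x.1 x.2) with hφ
  set w : ℕ × ℕ × ℕ → ℝ := fun q => 1 / (q.1 : ℝ) * (1 / (q.2.1 : ℝ) * (1 / (q.2.2 : ℝ))) with hw
  have h1 : ∀ x ∈ S ×ˢ S, gk x.1 x.2 = w (φ x) := by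
    intro x hx
    rw [mem_product, hS, mem_Icc, mem_Icc] at hx
    have hg : 0 < Nat.gcd x.1 x.2 := Nat.gcd_pos_of_pos_left _ (by omega)
    have hg' : ((Nat.gcd x.1 x.2 : ℕ) : ℝ) ≠ 0 := by exact_mod_cast hg.ne'
    have hx1 : (x.1 : ℝ) ≠ 0 := by exact_mod_cast (by omega : x.1 ≠ 0)
    have hx2 : (x.2 : ℝ) ≠ 0 := by exact_mod_cast (by omega : x.2 ≠ 0)
    simp only [hw, hφ]
    unfold gk
    rw [Nat.cast_div (Nat.gcd_dvd_left _ _) hg', Nat.cast_div (Nat.gcd_dvd_right _ _) hg']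
    field_simp
  have hinj : Set.InjOn φ (S ×ˢ S : Finset (ℕ × ℕ)) := by
    intro x hx y hy hxy
    simp only [hφ, Prod.mk.injEq] at hxy
    obtain ⟨e1, e2, e3⟩ := hxy
    have a1 := Nat.div_mul_cancel (Nat.gcd_dvd_left x.1 x.2)
    have a2 := Nat.div_mul_cancel (Nat.gcd_dvd_right x.1 x.2)
    have b1 := Nat.div_mul_cancel (Nat.gcd_dvd_left y.1 y.2)
    have b2 := Nat.div_mul_cancel (Nat.gcd_dvd_right y.1 y.2)
    ext
    · rw [← a1, ← b1, e2, e1]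
    · rw [← a2, ← b2, e3, e1]
  have hmaps : ∀ x ∈ S ×ˢ S, φ x ∈ S ×ˢ (S ×ˢ S) := by
    intro x hx
    rw [mem_product, hS, mem_Icc, mem_Icc] at hx
    have hg : 0 < Nat.gcd x.1 x.2 := Nat.gcd_pos_of_pos_left _ (by omega)
    simp only [hφ, mem_product, hS, mem_Icc]
    refine ⟨⟨hg, (Nat.gcd_le_left _ (by omega)).trans hx.1.2⟩,
      ⟨Nat.div_pos (Nat.gcd_le_left _ (by omega)) hg, (Nat.div_le_self _ _).trans hx.1.2⟩,
      ⟨Nat.div_pos (Nat.gcd_le_right _ (by omega)) hg, (Nat.div_le_self _ _).trans hx.2.2⟩⟩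
  have hw0 : ∀ q, 0 ≤ w q := fun q => by simp only [hw]; positivity
  calc ∑ m ∈ S, ∑ n ∈ S, gk m n = ∑ x ∈ S ×ˢ S, gk x.1 x.2 := by
        rw [sum_product]
    _ = ∑ x ∈ S ×ˢ S, w (φ x) := sum_congr rfl h1
    _ = ∑ q ∈ (S ×ˢ S).image φ, w q := (sum_image hinj).symm
    _ ≤ ∑ q ∈ S ×ˢ (S ×ˢ S), w q := by
        refine sum_le_sum_of_subset_of_nonneg ?_ fun q _ _ => hw0 q
        intro q hq
        rw [mem_image] at hq
        obtain ⟨x, hx, rfl⟩ := hq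
        exact hmaps x hx
    _ = (∑ a ∈ S, (1:ℝ) / a) ^ 3 := by
        rw [sum_product]
        simp only [hw]
        have e1 : ∀ a ∈ S, ∑ q ∈ S ×ˢ S, 1 / (a : ℝ) * (1 / (q.1 : ℝ) * (1 / (q.2 : ℝ))) =
            1 / (a : ℝ) * (∑ a ∈ S, (1:ℝ) / a) ^ 2 := by
          intro a _
          rw [← mul_sum, sum_product, sq, sum_mul_sum]
        rw [sum_congr rfl e1, ← sum_mul]
        ring

lemma harm_le (M : ℕ) : ∑ a ∈ Icc 1 M, (1:ℝ) / a ≤ 1 + Real.log M := by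
  have h := harmonic_le_one_add_log M
  have e : ((harmonic M : ℚ) : ℝ) = ∑ a ∈ Icc 1 M, (1:ℝ) / a := by
    rw [harmonic_eq_sum_Icc]
    push_cast
    exact sum_congr rfl fun a _ => (one_div _).symm
  rw [← e]; exact h

/-- the main term -/
lemma Mn_one {κ : ℕ} {T : ℝ} {h l : ℕ} (hh : h ≠ 0) (hl : l ≠ 0) :
    Mn κ T (h * 1, l * 1) = gk h l * (Real.log (Yf κ T) + Ck κ + N4.gl h l) := by
  rw [mul_one, mul_one]
  unfold Mn wl w1 gk N4.gl
  simp only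
  have hg : 0 < Nat.gcd h l := Nat.gcd_pos_of_pos_left _ (Nat.pos_of_ne_zero hh)
  have hg' : (0:ℝ) < (Nat.gcd h l : ℝ) := by exact_mod_cast hg
  have hh' : (0:ℝ) < (h : ℝ) := by exact_mod_cast Nat.pos_of_ne_zero hh
  have hl' : (0:ℝ) < (l : ℝ) := by exact_mod_cast Nat.pos_of_ne_zero hl
  have e : Real.log ((Nat.gcd h l : ℝ) ^ 2 / ((h:ℝ) * l)) = -Real.log (((h:ℝ) * l) / (Nat.gcd h l : ℝ) ^ 2) := by
    rw [← Real.log_inv, inv_div]
  rw [e]
  ring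

theorem t_TWM : P_TWM := by
  obtain ⟨η, hη, hG⟩ := tw_S (41 / 80) (by norm_num)
  refine ⟨18, by norm_num, ?_⟩
  filter_upwards [hG, eventually_gt_atTop (3:ℝ), Real.tendsto_log_atTop.eventually_ge_atTop 400] with
    T hGT hT3 hL κ hκ f M hf hM
  set L := Real.log T with hLd
  have hL1 : 1 ≤ L := by linarith
  have hL0 : 0 < L := by linarith
  have hT0 : 0 < T := by linarith
  have hk1 : 1 ≤ κ := by
    have h1 := hκ.1
    have h2 : (1:ℝ) ≤ Real.log T ^ 2 := one_le_pow₀ hL1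
    have : (1:ℝ) ≤ κ := h2.trans h1
    exact_mod_cast this
  have hfn : ∀ n, n ≠ 0 → ‖((f n : ℝ) : ℂ)‖ ≤ 1 := fun n _ => by
    rw [Complex.norm_real]; exact hf n
  have h1 := hGT κ hκ M 1 (fun n => ((f n : ℝ) : ℂ)) hfn (by rw [mul_one]; exact hM) (1, 1)
    one_ne_zero one_ne_zero le_rfl le_rfl
  have e1 : ∀ t : ℝ, (mh t (1, 1)).re = 1 := by
    intro t
    have : mh t (1, 1) = 1 := map_one (mh t)
    rw [this, Complex.one_re]
  simp_rw [e1, mul_one] at h1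
  set Y : ℝ := Real.log (Yf κ T) + Ck κ with hY
  have hyf : |Y - L| ≤ 2 := yf_bound hk1 hT0
  -- the bilinear form
  have e2 : (BF κ T (fun n => ((f n : ℝ) : ℂ)) M (1, 1)).re =
      ∑ m ∈ Icc 1 M, ∑ n ∈ Icc 1 M, f m * f n * (gk m n * (Y + N4.gl m n)) := by
    unfold BF
    rw [Complex.re_sum]
    refine sum_congr rfl fun h hh => ?_
    rw [Complex.re_sum]
    refine sum_congr rfl fun l hl => ?_
    rw [mem_Icc] at hh hl
    simp only
    rw [Mn_one (by omega) (by omega), Complex.conj_ofReal, ← Complex.ofReal_mul, ← Complex.ofReal_mul,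
      Complex.ofReal_re]
  rw [e2] at h1
  have hS0 : 0 ≤ ∑ a ∈ Icc 1 M, (1:ℝ) / a := sum_nonneg fun _ _ => by positivity
  have hH : ∑ a ∈ Icc 1 M, (1:ℝ) / a ≤ 2 * L := by
    refine (harm_le M).trans ?_
    rcases Nat.eq_zero_or_pos M with hM0 | hM0
    · rw [hM0]; simp; linarith
    · have hM1 : (0:ℝ) < M := by exact_mod_cast hM0
      have h2 : Real.log M ≤ Real.log (T ^ (41 / 80 : ℝ)) := Real.log_le_log hM1 hM
      rw [Real.log_rpow hT0] at h2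
      linarith
  have h3 : |(∑ m ∈ Icc 1 M, ∑ n ∈ Icc 1 M, f m * f n * (gk m n * (Y + N4.gl m n))) -
      ∑ m ∈ Icc 1 M, ∑ n ∈ Icc 1 M, f m * f n * (gk m n * (L + N4.gl m n))| ≤ 2 * (2 * L) ^ 3 := by
    rw [← sum_sub_distrib]
    calc _ ≤ ∑ m ∈ Icc 1 M, ∑ n ∈ Icc 1 M, 2 * gk m n := by
          refine (abs_sum_le_sum_abs _ _).trans (sum_le_sum fun m _ => ?_)
          rw [← sum_sub_distrib]
          refine (abs_sum_le_sum_abs _ _).trans (sum_le_sum fun n _ => ?_)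
          have e3 : f m * f n * (gk m n * (Y + N4.gl m n)) - f m * f n * (gk m n * (L + N4.gl m n)) =
              (f m * f n) * ((Y - L) * gk m n) := by ring
          rw [e3, abs_mul, abs_mul, abs_mul, abs_of_nonneg (gk_nonneg m n)]
          have h4 : |f m| * |f n| ≤ 1 := by
            calc |f m| * |f n| ≤ 1 * 1 := mul_le_mul (hf m) (hf n) (abs_nonneg _) zero_le_one
              _ = 1 := one_mul 1
          have h5 : |Y - L| * gk m n ≤ 2 * gk m n := mul_le_mul_of_nonneg_right hyf (gk_nonneg m n)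
          calc |f m| * |f n| * (|Y - L| * gk m n) ≤ 1 * (2 * gk m n) :=
                mul_le_mul h4 h5 (mul_nonneg (abs_nonneg _) (gk_nonneg m n)) zero_le_one
            _ = 2 * gk m n := one_mul _
      _ = 2 * ∑ m ∈ Icc 1 M, ∑ n ∈ Icc 1 M, gk m n := by
          rw [mul_sum]
          exact sum_congr rfl fun m _ => (mul_sum _ _ _).symm
      _ ≤ 2 * (2 * L) ^ 3 := by
          refine mul_le_mul_of_nonneg_left ((sum_gk M).trans ?_) (by norm_num)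
          exact pow_le_pow_left₀ hS0 hH 3
  have hTη : T ^ (-η) ≤ 1 := Real.rpow_le_one_of_one_le_of_nonpos (by linarith) (by linarith)
  have hL3 : 1 ≤ L ^ 3 := one_le_pow₀ hL1
  have h6 := abs_sub_le (∫ t in Set.Ioi (0:ℝ), wz κ T t * ‖DP (fun n => ((f n : ℝ) : ℂ)) M t‖ ^ 2)
    (∑ m ∈ Icc 1 M, ∑ n ∈ Icc 1 M, f m * f n * (gk m n * (Y + N4.gl m n)))
    (∑ m ∈ Icc 1 M, ∑ n ∈ Icc 1 M, f m * f n * (gk m n * (L + N4.gl m n)))
  refine h6.trans ?_
  calc _ ≤ 2 * T ^ (-η) + 2 * (2 * L) ^ 3 := add_le_add h1 h3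
    _ ≤ 18 * L ^ 3 := by nlinarith

end

end Pool.Agent.TH822.N4_TWM
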