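import Pool.Agent.TH806.N4.Defs2

set_option autoImplicit false

/-! Job 1102 (N4-MGKR). -/

namespace Pool.Agent.TH822.N4_MGKR

open Finset Filter Topology MeasureTheory Complex MonoidAlgebra
open Pool.Agent.W184.NZ Pool.Agent.TH806 Pool.Agent.TH806.N4
open Pool.Agent.H306R2.SM (om cl Yf)
open Pool.Agent.H262R4.TM (Rng Ck)
open Pool.Agent.H448R2.GC (cu cs ker XX)

lemma gf_cont (K : ℕ) (a : ℝ) (R : ℕ) : Continuous (gf K a R) := by
  unfold gf NK
  fun_prop

lemma glf_cont (lm : ℝ) (R : ℕ) (a : ℝ) : Continuous (glf lm R a) := by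
  unfold glf NK
  fun_prop

lemma evt_gl {N : ℕ} (θ : Ix N → ℝ) {I : Finset ℕ} (hI : ∀ p ∈ I, p.Prime) (lm : ℝ) (R : ℕ) (a : ℝ) :
    evt θ (gl lm R a I) = ((glf lm R a (PT θ I) : ℝ) : ℂ) := by
  unfold gl glf
  rw [map_add, map_mul, NK_map, NK_map, map_smul, map_mul, map_pow, map_pow, evt_xI, evt_yI θ hI, NK_sq,
    ← mul_pow, Complex.mul_conj, Complex.normSq_eq_norm_sq, Complex.real_smul]
  push_cast
  rw [div_pow, div_pow, ← pow_mul]
  ring

lemma II_prime (y : ℝ) (i : ℕ) : ∀ p ∈ II y i, p.Prime := fun _ hp => (mem_II.mp hp).1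

lemma MB_gE {a y : ℝ} (ha : |a| ≤ 1 / 16) {R : ℕ} (hR : 1 ≤ R) (i : ℕ) :
    MB a R (II y i) (gE (20 * R) a R (II y i)) (gf (20 * R) a R) where
  cont := gf_cont _ _ _
  nn := gf_nonneg _ _ _
  up := by
    intro z
    refine (gf_le hR (by linarith) z).trans ?_
    have hR0 : (0:ℝ) ≤ R := Nat.cast_nonneg _
    have h1 : Real.exp (-(3 / 2 * (R:ℝ))) ≤ Real.exp (-(R:ℝ)) := Real.exp_le_exp.mpr (by linarith)
    gcongr
  evl := fun t => ev_gE t (II_prime y i) _ _ _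
  evt := fun N θ => evt_gE θ (II_prime y i) _ _ _
  mem := gE_mem (II_prime y i) _ _ _

lemma MB_gl {a y lm : ℝ} (ha : |a| ≤ 1 / 16) {R : ℕ} (hR : 1 ≤ R) (h0 : 0 ≤ lm)
    (h1 : lm ≤ Real.exp R) (i : ℕ) :
    MB a R (II y i) (gl lm R a (II y i)) (glf lm R a) where
  cont := glf_cont _ _ _
  nn := glf_nonneg h0 _ _
  up := by
    intro z
    set x := Real.exp (-(R:ℝ)) with hx
    have hx0 : 0 < x := Real.exp_pos _
    have hx1 : x ≤ 1 := Real.exp_le_one_iff.mpr (by simp)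
    have hx2 : Real.exp (-(2 * (R:ℝ))) = x ^ 2 := by
      rw [hx, ← Real.exp_nat_mul]; congr 1; push_cast; ring
    have hlx : lm * x ^ 2 ≤ x := by
      have h9 : Real.exp R * x = 1 := by rw [hx, ← Real.exp_add]; simp
      calc lm * x ^ 2 = (lm * x) * x := by ring
        _ ≤ (Real.exp R * x) * x := by gcongr
        _ = x := by rw [h9, one_mul]
    have a1 := NK_sq_le (cl_small (R := R) ha) (by linarith) z
    have a2 := ball_pow_le hR z
    rw [hx2] at a1 a2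
    unfold glf
    have a3 := mul_le_mul_of_nonneg_left a2 h0
    have a4 : lm * (x ^ 2 * Real.exp (4 * ‖z‖)) ≤ x * Real.exp (4 * ‖z‖) := by
      rw [← mul_assoc]
      exact mul_le_mul_of_nonneg_right hlx (Real.exp_pos _).le
    have a5 : x ^ 2 * Real.exp (4 * ‖z‖) ≤ x * Real.exp (4 * ‖z‖) :=
      mul_le_mul_of_nonneg_right (by nlinarith) (Real.exp_pos _).le
    linarith
  evl := fun t => ev_gl t (II_prime y i) _ _ _
  evt := fun N θ => evt_gl θ (II_prime y i) _ _ _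
  mem := gl_mem (II_prime y i) _ _ _

lemma MB_one {R : ℕ} (I : Finset ℕ) : MB 0 R I 1 (fun _ => 1) where
  cont := continuous_const
  nn := fun _ => zero_le_one
  up := by
    intro z
    have h1 : 0 < Real.exp (-(R:ℝ)) := Real.exp_pos _
    have h2 : 0 < Real.exp (4 * ‖z‖) := Real.exp_pos _
    rw [mul_zero, zero_mul, Real.exp_zero, mul_one]
    have h3 : 0 < Real.exp (-(R:ℝ)) * Real.exp (4 * ‖z‖) := mul_pos h1 h2
    nlinarith
  evl := fun t => by simp
  evt := fun N θ => by simp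
  mem := Subalgebra.one_mem _

theorem t_MG : P_MG := by
  intro c y J Rs a G hBL hRs ha
  have hy : 1 ≤ y := by linarith [hBL.y1]
  have hly : 0 ≤ Real.log y := Real.log_nonneg hy
  have hRR : ∀ i, 1 ≤ RR Rs i := fun i => by unfold RR; omega
  have hR0 : (0:ℝ) ≤ Rs := Nat.cast_nonneg _
  refine ⟨?_, ?_⟩
  · rintro (rfl | ⟨lm, h0, h1, rfl⟩)
    · refine ⟨fun i => gE (20 * RR Rs i) a (RR Rs i) (II y i), fun i => gf (20 * RR Rs i) a (RR Rs i),
        hBL, fun i => MB_gE ha (hRR i) i, rfl, ?_, ?_⟩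
      · refine (GP_Bd (Rs := Rs) hy hBL.rg a).mono (Real.exp_le_exp.mpr ?_)
        apply mul_le_mul_of_nonneg_left _ hly
        linarith
      · exact GP_l1' hy hBL.rg hRs (by linarith)
    · refine ⟨fun i => gl (lm i) (RR Rs i) a (II y i), fun i => glf (lm i) (RR Rs i) a,
        hBL, fun i => MB_gl ha (hRR i) (h0 i) (h1 i) i, rfl, ?_, ?_⟩
      · refine (GQ_Bd (Rs := Rs) (lm := lm) hy hBL.rg a).mono (Real.exp_le_exp.mpr ?_)
        apply mul_le_mul_of_nonneg_left _ hly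
        linarith
      · refine (GQ_l1 (Rs := Rs) (lm := lm) hy hBL.rg hRs (by linarith) h0 h1).trans
          (Real.exp_le_exp.mpr ?_)
        apply mul_le_mul_of_nonneg_left _ hly
        linarith
  · have h1 : 1 ≤ Real.exp (Real.log y * (320 * ((Rs:ℝ) + 1))) := Real.one_le_exp (by positivity)
    refine ⟨fun _ => 1, fun _ _ => 1, hBL, fun i => MB_one _, by simp, Bd.one.mono h1, ?_⟩
    rw [l1_one]
    exact h1

theorem t_KR : P_KR := by
  intro η1 k hη hη1 hk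
  obtain ⟨CK, hCK, hker⟩ := Pool.Agent.H448R2.GC.ker_scale η1 1 k hη one_pos hk
  refine ⟨CK, hCK, fun L D hL hD hDL => ?_⟩
  have hkp : (0:ℝ) < k := by exact_mod_cast hk
  have hL0 : 0 < L := by linarith
  have hc : 0 < η1 * L / k := by positivity
  have hx : 0 < 1 / L := by positivity
  have hkc : (k:ℝ) * (η1 * L / k) = η1 * L := by field_simp
  set c := η1 * L / k with hcdef
  set M := ⌊Real.exp (D + k * c)⌋₊ with hM
  have hcont : Continuous (ker k c D (1 / L)) := Pool.Agent.H448R2.GC.ker_cont k c D (1 / L) hx.ne'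
  have hKb : ∀ v, ‖ker k c D (1 / L) v‖ ≤ CK * (L / (1 + L * |v|) ^ (k + 1)) := fun v =>
    hker L D (1 / L) v hL (by rw [abs_of_nonneg hD, one_mul]; exact hDL) (le_abs_self _)
      (by rw [abs_of_pos hx])
  have hfb : ∀ n : ℕ, n ≠ 0 → ‖((cu k c (Real.log n - D) : ℝ) : ℂ)‖ ≤ 1 := fun n _ => by
    rw [Complex.norm_real, Real.norm_eq_abs, abs_of_nonneg (Pool.Agent.H448R2.GC.cu_nonneg k c _ hc)]
    exact Pool.Agent.H448R2.GC.cu_le_one k c _ hc
  have hrep : ∀ N : ℕ, M < N → ∀ θ : Ix N → ℝ,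
      ∑ m ∈ Icc 1 M, ((cu k c (Real.log m - D) : ℝ) : ℂ) * ((m : ℂ) ^ (-(1 / 2) : ℂ) * chi θ m) =
        (1 / (2 * Real.pi)) * ∫ v : ℝ, ker k c D (1 / L) v * ZT (wp (1 / L) v) θ := by
    intro N hN θ
    have h := SF_int (N := N) hk hc hx (w := (1 / 2 : ℂ)) (by
      have : (1 / 2 : ℂ).re = 1 / 2 := by norm_num
      rw [this]; linarith) hN θ (D := D)
    unfold SF at h
    rw [h]
    congr 1
    refine integral_congr_ae (Filter.Eventually.of_forall fun v => ?_)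
    simp only
    congr 2
    unfold wp
    push_cast
    ring
  have hext : ∀ M' : ℕ, M ≤ M' → ∀ F : ℕ → ℂ,
      ∑ m ∈ Icc 1 M', ((cu k c (Real.log m - D) : ℝ) : ℂ) * F m =
      ∑ m ∈ Icc 1 M, ((cu k c (Real.log m - D) : ℝ) : ℂ) * F m := by
    intro M' hM' F
    symm
    apply sum_subset (Icc_subset_Icc_right hM')
    intro m hm hm'
    rw [Finset.mem_Icc] at hm
    rw [cu_out hc (by omega) hm', Complex.ofReal_zero, zero_mul]
  have hcs : ∀ t : ℝ, cs k c D (cl t) =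
      DP (fun m => ((cu k c (Real.log m - D) : ℝ) : ℂ)) M t := fun t => rfl
  refine ⟨M, ker k c D (1 / L), ?_, ⟨hfb, hcont, hKb, hrep⟩, hcs, fun M' hM' => ⟨⟨hfb, hcont, hKb, ?_⟩, ?_⟩⟩
  · rw [hM, hkc]
    exact Nat.floor_le (Real.exp_pos _).le
  · intro N hN θ
    rw [hext M' hM' (fun m => (m : ℂ) ^ (-(1 / 2) : ℂ) * chi θ m)]
    exact hrep N (lt_of_le_of_lt hM' hN) θ
  · intro t
    rw [hcs t]
    unfold DP
    exact (hext M' hM' (fun m => (m : ℂ) ^ (-(cl t)))).symm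

end Pool.Agent.TH822.N4_MGKR
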