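import Pool.Agent.TH625.GM.Props

/-!
# Job GM-ARITH1: elementary facts on the coefficients
-/

set_option autoImplicit false

open Complex MeasureTheory
open UpperHalfPlane hiding I
open scoped Real MatrixGroups ModularForm

open Pool.Agent.TH625.GM

namespace Pool.Agent.TH822.J690

lemma e_mul (b : ℤ × ℤ) : e1 b * e2 b = (nm b : ℝ) := by
  unfold e1 e2 nm
  push_cast
  have h1 := Real.goldenRatio_mul_goldenConj
  have h2 := Real.goldenRatio_add_goldenConj
  linear_combination (b.2 : ℝ) ^ 2 * h1 + (b.1 * b.2 : ℝ) * h2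

lemma e_sq (b : ℤ × ℤ) :
    e1 b ^ 2 + e2 b ^ 2 = 2 * (b.1 : ℝ) ^ 2 + 2 * b.1 * b.2 + 3 * (b.2 : ℝ) ^ 2 := by
  unfold e1 e2
  have h2 := Real.goldenRatio_add_goldenConj
  have h3 := Real.goldenRatio_sq
  have h4 := Real.goldenConj_sq
  linear_combination (2 * b.1 * b.2 : ℝ) * h2 + (b.2 : ℝ) ^ 2 * (h2 + h3 + h4)

lemma phi_sq_lt : Real.goldenRatio ^ 2 < 3 := by
  rw [Real.goldenRatio_sq]
  linarith [Real.goldenRatio_lt_two]

lemma abs_mul_eq {b : ℤ × ℤ} {n : ℕ} (h : b ∈ Dn n) : |e1 b| * |e2 b| = n := by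
  rw [← abs_mul, e_mul, ← h.2, Nat.cast_natAbs, Int.cast_abs]

lemma bound {b : ℤ × ℤ} {n : ℕ} (h : b ∈ Dn n) : b.1 ^ 2 + 2 * b.2 ^ 2 ≤ 4 * (n : ℤ) := by
  have h0 := abs_mul_eq h
  obtain ⟨⟨-, h1, h2⟩, -⟩ := h
  have h3 := phi_sq_lt
  have a1 := abs_nonneg (e1 b)
  have a2 := abs_nonneg (e2 b)
  have h4 : e2 b ^ 2 ≤ n := by
    rw [← sq_abs, ← h0]
    nlinarith
  have h5 : e1 b ^ 2 ≤ 3 * n := by
    rw [← sq_abs, ← h0]
    nlinarith [mul_nonneg a1 a2, mul_nonneg a1 (sub_nonneg.2 h2.le)]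
  have h6 := e_sq b
  have h7 : (b.1 : ℝ) ^ 2 + 2 * (b.2 : ℝ) ^ 2 ≤ 4 * n := by
    nlinarith [sq_nonneg ((b.1 : ℝ) + b.2)]
  exact_mod_cast h7

lemma Dn_zero : Dn 0 = ∅ := by
  ext b
  simp only [Set.mem_empty_iff_false, iff_false]
  intro h
  have h0 := abs_mul_eq h
  obtain ⟨⟨-, h1, h2⟩, -⟩ := h
  have a1 := abs_nonneg (e1 b)
  have a2 := abs_nonneg (e2 b)
  rw [Nat.cast_zero] at h0
  rcases mul_eq_zero.1 h0 with h | h
  · rw [h] at h1 h2
    have : |e2 b| = 0 := le_antisymm h1 a2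
    rw [this] at h2
    simp at h2
  · rw [h] at h2
    linarith

/-- a box -/
noncomputable def Bx (M : ℕ) : Finset (ℤ × ℤ) := Finset.Icc (-(M : ℤ)) M ×ˢ Finset.Icc (-(M : ℤ)) M

lemma card_Bx (M : ℕ) : (Bx M).card = (2 * M + 1) ^ 2 := by
  unfold Bx
  rw [Finset.card_product, Int.card_Icc, pow_two]
  congr 1 <;> omega

lemma mem_Icc_of_sq {x : ℤ} {N : ℕ} (h : x ^ 2 ≤ 4 * (N : ℤ)) :
    x ∈ Finset.Icc (-(Nat.sqrt (4 * N) : ℤ)) (Nat.sqrt (4 * N)) := by
  have h1 : x.natAbs * x.natAbs ≤ 4 * N := by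
    zify
    rw [← pow_two, sq_abs]
    exact h
  have h2 : x.natAbs ≤ Nat.sqrt (4 * N) := Nat.le_sqrt.2 h1
  rw [Finset.mem_Icc]
  omega

lemma mem_box {b : ℤ × ℤ} {n N : ℕ} (h : b ∈ Dn n) (hn : n ≤ N) :
    b ∈ Bx (Nat.sqrt (4 * N)) := by
  have h1 := bound h
  have h2 : (n : ℤ) ≤ N := by exact_mod_cast hn
  unfold Bx
  rw [Finset.mem_product]
  constructor
  · apply mem_Icc_of_sq
    nlinarith [sq_nonneg b.2]
  · apply mem_Icc_of_sq
    nlinarith [sq_nonneg b.1, sq_nonneg b.2]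

lemma fin (n : ℕ) : (Dn n).Finite :=
  (Bx (Nat.sqrt (4 * n))).finite_toSet.subset fun _ hb => mem_box hb le_rfl

lemma card_le (N : ℕ) :
    ∑ n ∈ Finset.range (N + 1), ((Dn n).ncard : ℝ) ≤ 25 * N := by
  classical
  rcases Nat.eq_zero_or_pos N with h0 | h0
  · subst h0
    simp [Dn_zero]
  set B := Bx (Nat.sqrt (4 * N)) with hB
  set S : Finset (ℤ × ℤ) := B.filter (fun b => b ∈ Dm ∧ (nm b).natAbs ≤ N) with hS
  have h1 : ∀ n ∈ Finset.range (N + 1),
      (Dn n).ncard = (S.filter (fun b => (nm b).natAbs = n)).card := by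
    intro n hn
    rw [Finset.mem_range] at hn
    rw [← Set.ncard_coe_finset]
    congr 1
    ext b
    simp only [Finset.coe_filter, Set.mem_ofPred_eq, hS, Finset.mem_filter]
    constructor
    · intro h
      exact ⟨⟨mem_box h (by omega), h.1, by rw [h.2]; omega⟩, h.2⟩
    · rintro ⟨⟨-, h, -⟩, h'⟩
      exact ⟨h, h'⟩
  have h2 : S.card = ∑ n ∈ Finset.range (N + 1), (S.filter (fun b => (nm b).natAbs = n)).card := by
    apply Finset.card_eq_sum_card_fiberwise
    intro b hb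
    have := (Finset.mem_filter.1 (Finset.mem_coe.1 hb)).2.2
    simp only [Finset.coe_range, Set.mem_Iio]
    omega
  have h3 : ∑ n ∈ Finset.range (N + 1), (Dn n).ncard = S.card := by
    rw [h2]
    exact Finset.sum_congr rfl h1
  have h4 : S.card ≤ (2 * Nat.sqrt (4 * N) + 1) ^ 2 := by
    rw [← card_Bx]
    exact Finset.card_filter_le _ _
  have h5 : Nat.sqrt (4 * N) * Nat.sqrt (4 * N) ≤ 4 * N := Nat.sqrt_le _
  have h6 : (2 * Nat.sqrt (4 * N) + 1) ^ 2 ≤ 25 * N := by
    set M := Nat.sqrt (4 * N)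
    have h7 : 4 * M ≤ M * M + 4 := by
      zify
      nlinarith [sq_nonneg ((M : ℤ) - 2)]
    nlinarith
  calc ∑ n ∈ Finset.range (N + 1), ((Dn n).ncard : ℝ)
      = ((∑ n ∈ Finset.range (N + 1), (Dn n).ncard : ℕ) : ℝ) := by push_cast; rfl
    _ ≤ ((25 * N : ℕ) : ℝ) := by
        rw [h3]
        exact_mod_cast h4.trans h6
    _ = 25 * N := by push_cast; rfl

lemma rs_sq (b : ℤ × ℤ) : rs b ^ 2 = (nm b : ZMod 5) := by
  unfold rs nm
  push_cast
  have h : (5 : ZMod 5) = 0 := by decide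
  linear_combination (b.1 : ZMod 5) * (b.2 : ZMod 5) * h + (2 * (b.2 : ZMod 5) ^ 2) * h

lemma chi5_sq : ∀ k : ZMod 5, k ≠ 0 → chi5 (k ^ 2) = 1 ∧ chi5 (-(k ^ 2)) = 1 := by
  decide

lemma chi_of {b : ℤ × ℤ} {n : ℕ} (h : b ∈ Dn n) (hb : h5 b ≠ 0) : chi5 (n : ZMod 5) = 1 := by
  have h1 : rs b ≠ 0 := by
    intro h0
    apply hb
    unfold h5
    rw [h0]
    rfl
  have h2 := rs_sq b
  have h3 := h.2
  rcases Int.natAbs_eq (nm b) with h4 | h4
  · rw [h3] at h4
    rw [h4] at h2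
    push_cast at h2
    rw [← h2]
    exact (chi5_sq _ h1).1
  · rw [h3] at h4
    rw [h4] at h2
    push_cast at h2
    have h5 : (n : ZMod 5) = -(rs b ^ 2) := by rw [h2, neg_neg]
    rw [h5]
    exact (chi5_sq _ h1).2

lemma h5_abs (b : ℤ × ℤ) : ‖(h5 b : ℂ)‖ ≤ 1 := by
  have h : ∀ k : ZMod 5, |chi5 k| ≤ 1 := by decide
  have := h (rs b)
  rw [Complex.norm_intCast]
  exact_mod_cast this

lemma rho_norm (b : ℤ × ℤ) : ‖rho b‖ = 1 := by
  unfold rho
  exact Complex.norm_exp_ofReal_mul_I _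

lemma a_eq (n : ℕ) : a n = (1 / 2) * ∑ b ∈ (fin n).toFinset, (h5 b : ℂ) * rho b := by
  unfold a
  rw [finsum_mem_eq_finite_toFinset_sum _ (fin n)]

lemma a_norm (n : ℕ) : ‖a n‖ ≤ (Dn n).ncard := by
  rw [a_eq, norm_mul]
  have h1 : ‖∑ b ∈ (fin n).toFinset, (h5 b : ℂ) * rho b‖ ≤ (fin n).toFinset.card • (1 : ℝ) := by
    refine (norm_sum_le _ _).trans (Finset.sum_le_card_nsmul _ _ _ fun b _ => ?_)
    rw [norm_mul, rho_norm, mul_one]
    exact h5_abs b
  rw [← Set.ncard_eq_toFinset_card _ (fin n), nsmul_eq_mul, mul_one] at h1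
  have h2 : ‖(1 / 2 : ℂ)‖ = 1 / 2 := by norm_num
  rw [h2]
  have h3 := norm_nonneg (∑ b ∈ (fin n).toFinset, (h5 b : ℂ) * rho b)
  linarith

lemma a_zero_of {n : ℕ} (h : ∀ b ∈ Dn n, h5 b = 0) : a n = 0 := by
  rw [a_eq, Finset.sum_eq_zero, mul_zero]
  intro b hb
  rw [h b ((fin n).mem_toFinset.1 hb), Int.cast_zero, zero_mul]

lemma e1_10 : e1 (1, 0) = 1 := by simp [e1]
lemma e2_10 : e2 (1, 0) = 1 := by simp [e2]
lemma e1_n10 : e1 (-1, 0) = -1 := by simp [e1]
lemma e2_n10 : e2 (-1, 0) = -1 := by simp [e2]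

lemma mem_Dm_iff (b : ℤ × ℤ) :
    b ∈ Dm ↔ b ≠ 0 ∧ |e2 b| ≤ |e1 b| ∧ |e1 b| < Real.goldenRatio ^ 2 * |e2 b| := Iff.rfl

lemma Dn_one : Dn 1 = {(1, 0), (-1, 0)} := by
  have g1 := Real.one_lt_goldenRatio
  have g2 := Real.goldenRatio_lt_two
  have g3 := Real.goldenRatio_sq
  have g4 := Real.goldenRatio_add_goldenConj
  have g5 := Real.goldenRatio_mul_goldenConj
  have g6 := Real.goldenConj_neg
  have g7 := Real.neg_one_lt_goldenConj
  ext ⟨m, n⟩
  constructor
  · intro h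
    have h1 : m ^ 2 + 2 * n ^ 2 ≤ 4 := by
      have := bound h
      simpa using this
    have h2 := h.2
    have h3 := h.1
    rw [mem_Dm_iff] at h3
    obtain ⟨h3, h4, h5⟩ := h3
    unfold nm at h2
    simp only at h2
    have hn : n = -1 ∨ n = 0 ∨ n = 1 := by
      have : n ^ 2 ≤ 2 := by nlinarith [sq_nonneg m]
      have h6 : -2 < n := by nlinarith
      have h7 : n < 2 := by nlinarith
      omega
    have hm : m = -2 ∨ m = -1 ∨ m = 0 ∨ m = 1 ∨ m = 2 := by
      have h6 : -3 < m := by nlinarith [sq_nonneg n]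
      have h7 : m < 3 := by nlinarith [sq_nonneg n]
      omega
    unfold e1 e2 at h4 h5
    simp only at h4 h5
    rcases hn with rfl | rfl | rfl
    · exfalso
      rcases hm with rfl | rfl | rfl | rfl | rfl
      · norm_num at h1
      · push_cast at h4 h5
        rw [show (-1 : ℝ) + -1 * Real.goldenRatio = -Real.goldenRatio ^ 2 by linarith,
          show (-1 : ℝ) + -1 * Real.goldenConj = -Real.goldenConj ^ 2 by
            rw [Real.goldenConj_sq]; ring, abs_neg, abs_neg,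
          abs_of_nonneg (sq_nonneg _), abs_of_nonneg (sq_nonneg _), ← mul_pow, g5] at h5
        nlinarith
      · push_cast at h4 h5
        rw [show (0 : ℝ) + -1 * Real.goldenRatio = -Real.goldenRatio by ring,
          show (0 : ℝ) + -1 * Real.goldenConj = -Real.goldenConj by ring, abs_neg, abs_neg,
          abs_of_pos (by linarith), abs_of_neg g6] at h5
        nlinarith
      · push_cast at h4 h5
        rw [show (1 : ℝ) + -1 * Real.goldenRatio = Real.goldenConj by linarith,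
          show (1 : ℝ) + -1 * Real.goldenConj = Real.goldenRatio by linarith,
          abs_of_pos (by linarith : (0:ℝ) < Real.goldenRatio), abs_of_neg g6] at h4
        linarith
      · norm_num at h1
    · rcases hm with rfl | rfl | rfl | rfl | rfl
      · norm_num at h2
      · simp
      · norm_num at h2
      · simp
      · norm_num at h2
    · exfalso
      rcases hm with rfl | rfl | rfl | rfl | rfl
      · norm_num at h1
      · push_cast at h4 h5
        rw [show (-1 : ℝ) + 1 * Real.goldenRatio = -Real.goldenConj by linarith,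
          show (-1 : ℝ) + 1 * Real.goldenConj = -Real.goldenRatio by linarith,
          abs_neg, abs_neg,
          abs_of_pos (by linarith : (0:ℝ) < Real.goldenRatio), abs_of_neg g6] at h4
        linarith
      · push_cast at h4 h5
        rw [show (0 : ℝ) + 1 * Real.goldenRatio = Real.goldenRatio by ring,
          show (0 : ℝ) + 1 * Real.goldenConj = Real.goldenConj by ring,
          abs_of_pos (by linarith : (0:ℝ) < Real.goldenRatio), abs_of_neg g6] at h5
        nlinarith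
      · push_cast at h4 h5
        rw [show (1 : ℝ) + 1 * Real.goldenRatio = Real.goldenRatio ^ 2 by linarith,
          show (1 : ℝ) + 1 * Real.goldenConj = Real.goldenConj ^ 2 by
            rw [Real.goldenConj_sq]; ring,
          abs_of_nonneg (sq_nonneg _), abs_of_nonneg (sq_nonneg _), ← mul_pow, g5] at h5
        nlinarith
      · norm_num at h1
  · intro h
    simp only [Set.mem_insert_iff, Set.mem_singleton_iff] at h
    rcases h with h | h
    · rw [h]
      refine ⟨⟨by simp, ?_, ?_⟩, by simp [nm]⟩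
      · rw [e1_10, e2_10]
      · rw [e1_10, e2_10, abs_one, mul_one, g3]
        linarith
    · rw [h]
      refine ⟨⟨by simp, ?_, ?_⟩, by simp [nm]⟩
      · rw [e1_n10, e2_n10]
      · rw [e1_n10, e2_n10, abs_neg, abs_one, mul_one, g3]
        linarith

lemma a_one : a 1 = 1 := by
  have h : (fin 1).toFinset = {((1 : ℤ), (0 : ℤ)), (-1, 0)} := by
    ext b
    rw [(fin 1).mem_toFinset, Dn_one]
    simp
  rw [a_eq, h, Finset.sum_pair (by decide)]
  have r1 : rho (1, 0) = 1 := by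
    unfold rho
    rw [e1_10, e2_10]
    simp
  have r2 : rho (-1, 0) = 1 := by
    unfold rho
    rw [e1_n10, e2_n10]
    simp
  have s1 : h5 (1, 0) = 1 := by decide
  have s2 : h5 (-1, 0) = 1 := by decide
  rw [r1, r2, s1, s2]
  norm_num

theorem arith1 : Arith1 where
  fin := fin
  card := ⟨25, card_le⟩
  one := a_one
  five := by
    intro n
    apply a_zero_of
    intro b hb
    by_contra hne
    have := chi_of hb hne
    have h0 : ((5 * n : ℕ) : ZMod 5) = 0 := by
      push_cast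
      have h : (5 : ZMod 5) = 0 := by decide
      rw [h, zero_mul]
    rw [h0] at this
    revert this
    decide
  chi := by
    intro n
    by_cases h : chi5 (n : ZMod 5) = 1
    · rw [h]
      simp
    · rw [a_zero_of, mul_zero]
      intro b hb
      by_contra hne
      exact h (chi_of hb hne)
  sum := ⟨25, fun N => (Finset.sum_le_sum fun n _ => a_norm n).trans (card_le N)⟩

end Pool.Agent.TH822.J690
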