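import Pool.Agent.TH824.BK.Mats

open Polynomial IsDedekindDomain Matrix MeasureTheory
open scoped WithZero RestrictedProduct

noncomputable section
namespace TH824.BK

namespace J838

section mats
variable {F : Type} [Field F]

lemma nmat_mul (x y : F) : nmat x * nmat y = nmat (x + y) := by
  apply Units.ext
  ext i j
  fin_cases i <;> fin_cases j <;> simp [Matrix.mul_apply, Fin.sum_univ_two, add_comm]

lemma amat_mul (a b : Fˣ) : amat a * amat b = amat (a * b) := by
  apply Units.ext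
  ext i j
  fin_cases i <;> fin_cases j <;> simp [Matrix.mul_apply, Fin.sum_univ_two]

lemma amat_nmat (a : Fˣ) (x : F) : amat a * nmat x = nmat (a * x) * amat a := by
  apply Units.ext
  ext i j
  fin_cases i <;> fin_cases j <;> simp [Matrix.mul_apply, Fin.sum_univ_two]

lemma nmat_zero : nmat (0 : F) = 1 := by
  apply Units.ext
  ext i j
  fin_cases i <;> fin_cases j <;> simp

lemma amat_one : amat (1 : Fˣ) = 1 := by
  apply Units.ext
  ext i j
  fin_cases i <;> fin_cases j <;> simp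

lemma smat_mul : (smat : GL (Fin 2) F) * smat = 1 := by
  apply Units.ext
  ext i j
  fin_cases i <;> fin_cases j <;> simp [Matrix.mul_apply, Fin.sum_univ_two]

/-- `[[e,0],[c,1]]` -/
def lmat (e : Fˣ) (c : F) : GL (Fin 2) F :=
  Matrix.GeneralLinearGroup.mkOfDetNeZero !![(e : F), 0; c, 1] (by simp)

@[simp] lemma coe_lmat (e : Fˣ) (c : F) :
    ((lmat e c : GL (Fin 2) F) : Matrix (Fin 2) (Fin 2) F) = !![(e : F), 0; c, 1] := rfl

lemma decomp (g : GL (Fin 2) F) (d e q : Fˣ)
    (hd : (g : Matrix (Fin 2) (Fin 2) F) 1 1 = d)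
    (he : (g : Matrix (Fin 2) (Fin 2) F).det = q * e * d ^ 2) :
    g = zmat d * (nmat ((g : Matrix (Fin 2) (Fin 2) F) 0 1 / d) * amat q) *
      lmat e ((g : Matrix (Fin 2) (Fin 2) F) 1 0 / d) := by
  rw [Matrix.det_fin_two, hd] at he
  have hd0 : (d : F) ≠ 0 := d.ne_zero
  apply Units.ext
  ext i j
  fin_cases i <;> fin_cases j
  · simp [Matrix.mul_apply, Fin.sum_univ_two]
    field_simp
    linear_combination he
  · simp [Matrix.mul_apply, Fin.sum_univ_two]
    field_simp
  · simp [Matrix.mul_apply, Fin.sum_univ_two]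
    field_simp
  · simp [Matrix.mul_apply, Fin.sum_univ_two, hd]

end mats

section main
variable {F : Type} [Field F] [Valued F ℤᵐ⁰] {V : Type} [AddCommGroup V] [Module ℂ V]
    (ρ : Representation ℂ (GL (Fin 2) F) V) (p : Fˣ) (u : V)

/-- the basic vectors -/
def Bv (x : F) (m : ℤ) : V := ρ (nmat x * amat (p ^ m)) u

lemma lmat_mem (e : Fˣ) (c : F) (he : Valued.v (e : F) = 1) (hc : Valued.v c < 1) :
    lmat e c ∈ Iw F := by
  refine ⟨⟨fun i j => ?_, ?_⟩, ?_⟩
  · fin_cases i <;> fin_cases j <;> simp [he, hc.le]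
  · simp [he, Matrix.det_fin_two]
  · simpa using hc

lemma nmat_mem (x : F) (hx : Valued.v x ≤ 1) : nmat x ∈ Iw F := by
  refine ⟨⟨fun i j => ?_, ?_⟩, ?_⟩
  · fin_cases i <;> fin_cases j <;> simp [hx]
  · simp [Matrix.det_fin_two]
  · simp

variable {ρ p u}

lemma v_zpow (hp : Valued.v (p : F) = WithZero.exp (-1 : ℤ)) (m : ℤ) :
    Valued.v ((p ^ m : Fˣ) : F) = WithZero.exp (-m) := by
  rw [Units.val_zpow_eq_zpow_val, map_zpow₀, hp, ← WithZero.exp_zsmul]
  simp

lemma key (hp : Valued.v (p : F) = WithZero.exp (-1 : ℤ)) (hu : IsStVec ρ p u)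
    (g : GL (Fin 2) F)
    (h : Valued.v ((g : Matrix (Fin 2) (Fin 2) F) 1 0) <
      Valued.v ((g : Matrix (Fin 2) (Fin 2) F) 1 1)) (m : ℤ)
    (hm : Valued.v (g : Matrix (Fin 2) (Fin 2) F).det =
      WithZero.exp (-m) * Valued.v ((g : Matrix (Fin 2) (Fin 2) F) 1 1) ^ 2) :
    ρ g u = Bv ρ p u ((g : Matrix (Fin 2) (Fin 2) F) 0 1 / (g : Matrix (Fin 2) (Fin 2) F) 1 1)
      m := by
  have hd0 : (g : Matrix (Fin 2) (Fin 2) F) 1 1 ≠ 0 := by
    intro h0
    rw [h0, map_zero] at h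
    exact not_lt_zero h
  have hdet : (g : Matrix (Fin 2) (Fin 2) F).det ≠ 0 := g.det.ne_zero
  set d : Fˣ := Units.mk0 _ hd0 with hd
  set D : Fˣ := Units.mk0 _ hdet with hD
  have hdv : (d : F) = (g : Matrix (Fin 2) (Fin 2) F) 1 1 := rfl
  have hDv : (D : F) = (g : Matrix (Fin 2) (Fin 2) F).det := rfl
  set e : Fˣ := D * (p ^ m)⁻¹ * (d ^ 2)⁻¹ with he
  have hq : (g : Matrix (Fin 2) (Fin 2) F).det = ((p ^ m : Fˣ) : F) * (e : F) * (d : F) ^ 2 := by
    have : D = p ^ m * e * d ^ 2 := by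
      rw [he]
      calc D = D * ((p ^ m)⁻¹ * p ^ m) * ((d ^ 2)⁻¹ * d ^ 2) := by simp
        _ = _ := by
          simp only [mul_assoc, mul_comm, mul_left_comm]
    rw [← hDv, this]
    push_cast
    rfl
  have hdec := decomp g d e (p ^ m) hdv.symm hq
  have hvd0 : Valued.v (d : F) ≠ 0 := by
    rw [Valuation.ne_zero_iff]; exact d.ne_zero
  have hev : Valued.v (e : F) = 1 := by
    rw [hq] at hm
    rw [map_mul, map_mul, map_pow, v_zpow hp, ← hdv] at hm
    have h1 : (WithZero.exp (-m) : ℤᵐ⁰) * Valued.v (e : F) = WithZero.exp (-m) * 1 := by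
      rw [mul_one]
      exact mul_right_cancel₀ (pow_ne_zero 2 hvd0) hm
    exact mul_left_cancel₀ WithZero.exp_ne_zero h1
  have hcv : Valued.v ((g : Matrix (Fin 2) (Fin 2) F) 1 0 / d) < 1 := by
    rw [map_div₀]
    rw [div_lt_one₀ (zero_lt_iff.mpr hvd0)]
    exact h
  conv_lhs => rw [hdec]
  rw [map_mul, Module.End.mul_apply, hu.iw _ (lmat_mem e _ hev hcv)]
  have hcomm : zmat d * (nmat ((g : Matrix (Fin 2) (Fin 2) F) 0 1 / d) * amat (p ^ m)) =
      (nmat ((g : Matrix (Fin 2) (Fin 2) F) 0 1 / d) * amat (p ^ m)) * zmat d := by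
    apply Units.ext
    ext i j
    fin_cases i <;> fin_cases j <;> simp [Matrix.mul_apply, Fin.sum_univ_two, mul_comm]
  rw [hcomm, map_mul, Module.End.mul_apply, hu.z]
  rfl

lemma exists_B (hp : Valued.v (p : F) = WithZero.exp (-1 : ℤ)) (hu : IsStVec ρ p u)
    (g : GL (Fin 2) F) : ∃ (x : F) (m : ℤ) (ε : ℂ), ρ g u = ε • Bv ρ p u x m := by
  have hgen : ∀ g : GL (Fin 2) F, Valued.v ((g : Matrix (Fin 2) (Fin 2) F) 1 0) <
      Valued.v ((g : Matrix (Fin 2) (Fin 2) F) 1 1) →
      ∃ (x : F) (m : ℤ), ρ g u = Bv ρ p u x m := by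
    intro g h
    have hdet : (g : Matrix (Fin 2) (Fin 2) F).det ≠ 0 := g.det.ne_zero
    have hd0 : (g : Matrix (Fin 2) (Fin 2) F) 1 1 ≠ 0 := by
      intro h0
      rw [h0, map_zero] at h
      exact not_lt_zero h
    have h1 : Valued.v (g : Matrix (Fin 2) (Fin 2) F).det ≠ 0 := by
      rw [Valuation.ne_zero_iff]; exact hdet
    have h2 : Valued.v ((g : Matrix (Fin 2) (Fin 2) F) 1 1) ≠ 0 := by
      rw [Valuation.ne_zero_iff]; exact hd0
    have h3 : Valued.v (g : Matrix (Fin 2) (Fin 2) F).det /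
        Valued.v ((g : Matrix (Fin 2) (Fin 2) F) 1 1) ^ 2 ≠ 0 :=
      div_ne_zero h1 (pow_ne_zero 2 h2)
    refine ⟨_, -(WithZero.log (Valued.v (g : Matrix (Fin 2) (Fin 2) F).det /
        Valued.v ((g : Matrix (Fin 2) (Fin 2) F) 1 1) ^ 2)), key hp hu g h _ ?_⟩
    rw [neg_neg, WithZero.exp_log h3, div_mul_cancel₀ _ (pow_ne_zero 2 h2)]
  by_cases h : Valued.v ((g : Matrix (Fin 2) (Fin 2) F) 1 0) <
      Valued.v ((g : Matrix (Fin 2) (Fin 2) F) 1 1)
  · obtain ⟨x, m, hx⟩ := hgen g h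
    exact ⟨x, m, 1, by rw [one_smul, hx]⟩
  · push Not at h
    have hc0 : (g : Matrix (Fin 2) (Fin 2) F) 1 0 ≠ 0 := by
      intro h0
      rw [h0, map_zero] at h
      have h1 : (g : Matrix (Fin 2) (Fin 2) F) 1 1 = 0 := by
        rw [← map_eq_zero (Valued.v (R := F))]
        exact le_antisymm h zero_le
      apply g.det.ne_zero
      change (g : Matrix (Fin 2) (Fin 2) F).det = 0
      rw [Matrix.det_fin_two, h0, h1]
      ring
    have h10 : ((g * wmat p : GL (Fin 2) F) : Matrix (Fin 2) (Fin 2) F) 1 0 =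
        (g : Matrix (Fin 2) (Fin 2) F) 1 1 * p := by
      simp [Units.val_mul, Matrix.mul_apply, Fin.sum_univ_two]
    have h11 : ((g * wmat p : GL (Fin 2) F) : Matrix (Fin 2) (Fin 2) F) 1 1 =
        (g : Matrix (Fin 2) (Fin 2) F) 1 0 := by
      simp [Units.val_mul, Matrix.mul_apply, Fin.sum_univ_two]
    have hcv : Valued.v ((g : Matrix (Fin 2) (Fin 2) F) 1 0) ≠ 0 := by
      rw [Valuation.ne_zero_iff]; exact hc0
    obtain ⟨x, m, hx⟩ := hgen (g * wmat p) (by
      rw [h10, h11, map_mul, hp]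
      rcases eq_or_ne (Valued.v ((g : Matrix (Fin 2) (Fin 2) F) 1 1)) 0 with h0 | h0
      · rw [h0, zero_mul]
        exact zero_lt_iff.mpr hcv
      · refine lt_of_lt_of_le ?_ h
        have : (WithZero.exp (-1 : ℤ) : ℤᵐ⁰) < 1 := by
          rw [← WithZero.exp_zero, WithZero.exp_lt_exp]; norm_num
        exact mul_lt_of_lt_one_right (zero_lt_iff.mpr h0) this)
    refine ⟨x, m, -1, ?_⟩
    rw [← hx, map_mul, Module.End.mul_apply, hu.w]
    simp

lemma Bv_congr (hp : Valued.v (p : F) = WithZero.exp (-1 : ℤ)) (hu : IsStVec ρ p u)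
    (x y : F) (m : ℤ) (h : Valued.v (y - x) ≤ WithZero.exp (-m)) :
    Bv ρ p u y m = Bv ρ p u x m := by
  have h1 : nmat y * amat (p ^ m) =
      (nmat x * amat (p ^ m)) * nmat (((p ^ m)⁻¹ : Fˣ) * (y - x)) := by
    rw [mul_assoc, amat_nmat, ← mul_assoc (nmat x), nmat_mul, Units.mul_inv_cancel_left]
    congr 2
    ring
  unfold Bv
  rw [h1, map_mul, Module.End.mul_apply, hu.iw]
  apply nmat_mem
  rw [map_mul, ← _root_.zpow_neg, v_zpow hp, neg_neg]
  calc WithZero.exp m * Valued.v (y - x) ≤ WithZero.exp m * WithZero.exp (-m) := by gcongr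
    _ = 1 := by rw [← WithZero.exp_add]; simp

lemma Bv_act (x y : F) (m : ℤ) : ρ (nmat x) (Bv ρ p u y m) = Bv ρ p u (x + y) m := by
  unfold Bv
  rw [← Module.End.mul_apply, ← map_mul, ← mul_assoc, nmat_mul]

lemma u_eq (hu : IsStVec ρ p u) : u = ρ (amat p) u + ρ (nmat 1 * amat p) u := by
  have h1 : ρ (amat p) u = - ρ smat u := by
    have h2 : amat p = smat * wmat p := by
      rw [wmat, ← mul_assoc, smat_mul, one_mul]
    rw [h2, map_mul, Module.End.mul_apply, hu.w, map_neg]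
  have h3 := hu.star
  rw [map_mul, Module.End.mul_apply] at h3
  rw [map_mul, Module.End.mul_apply, h1, map_neg]
  have h4 : u = -(ρ smat u) + -(ρ (nmat 1) (ρ smat u)) := by
    rw [eq_comm, ← sub_eq_zero, ← neg_eq_zero]
    rw [← h3]
    abel
  exact h4

lemma refine_B (hu : IsStVec ρ p u) (x : F) (m : ℤ) :
    Bv ρ p u x m = Bv ρ p u x (m + 1) + Bv ρ p u (x + (p ^ m : Fˣ)) (m + 1) := by
  have h1 : nmat x * amat (p ^ (m + 1)) = (nmat x * amat (p ^ m)) * amat p := by
    rw [mul_assoc, amat_mul, _root_.zpow_add_one]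
  have h2 : nmat (x + (p ^ m : Fˣ)) * amat (p ^ (m + 1)) =
      (nmat x * amat (p ^ m)) * (nmat 1 * amat p) := by
    rw [mul_assoc, ← mul_assoc (amat (p ^ m)), amat_nmat, mul_one, mul_assoc (nmat _), amat_mul,
      ← mul_assoc, nmat_mul, _root_.zpow_add_one]
  unfold Bv
  rw [h1, h2, map_mul ρ (nmat x * amat (p ^ m)) (amat p),
    map_mul ρ (nmat x * amat (p ^ m)) (nmat 1 * amat p), Module.End.mul_apply,
    Module.End.mul_apply, ← map_add, ← u_eq hu]

/-- The level `n` space. -/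
def L (ρ : Representation ℂ (GL (Fin 2) F) V) (p : Fˣ) (u : V) (n : ℤ) : Submodule ℂ V :=
  Submodule.span ℂ (Set.range fun x : F => Bv ρ p u x n)

lemma L_succ (hu : IsStVec ρ p u) (n : ℤ) : L ρ p u n ≤ L ρ p u (n + 1) := by
  unfold L
  rw [Submodule.span_le]
  rintro _ ⟨x, rfl⟩
  change Bv ρ p u x n ∈ _
  rw [refine_B hu]
  exact Submodule.add_mem _ (Submodule.subset_span ⟨_, rfl⟩) (Submodule.subset_span ⟨_, rfl⟩)

lemma L_mono (hu : IsStVec ρ p u) : Monotone (L ρ p u) := by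
  apply monotone_int_of_le_succ
  exact L_succ hu

lemma mem_L (hp : Valued.v (p : F) = WithZero.exp (-1 : ℤ)) (hu : IsStVec ρ p u) (z : V)
    (hz : z ∈ Submodule.span ℂ (Set.range fun g => ρ g u)) : ∃ n : ℤ, z ∈ L ρ p u n := by
  induction hz using Submodule.span_induction with
  | mem x hx =>
    obtain ⟨g, rfl⟩ := hx
    obtain ⟨x, m, ε, h⟩ := exists_B hp hu g
    refine ⟨m, ?_⟩
    change ρ g u ∈ _
    rw [h]
    exact Submodule.smul_mem _ _ (Submodule.subset_span ⟨_, rfl⟩)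
  | zero => exact ⟨0, Submodule.zero_mem _⟩
  | add x y _ _ hx hy =>
    obtain ⟨a, ha⟩ := hx
    obtain ⟨b, hb⟩ := hy
    exact ⟨max a b, Submodule.add_mem _ (L_mono hu (le_max_left _ _) ha)
      (L_mono hu (le_max_right _ _) hb)⟩
  | smul c x _ hx =>
    obtain ⟨a, ha⟩ := hx
    exact ⟨a, Submodule.smul_mem _ _ ha⟩

/-- the fractional ideal `p^n O` as an additive subgroup -/
def Hn (F : Type) [Field F] [Valued F ℤᵐ⁰] (n : ℤ) : AddSubgroup F where
  carrier := {x | Valued.v x ≤ WithZero.exp (-n)}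
  zero_mem' := by simp
  add_mem' := by
    intro a b ha hb
    have ha' : Valued.v a ≤ WithZero.exp (-n) := ha
    have hb' : Valued.v b ≤ WithZero.exp (-n) := hb
    exact (Valuation.map_add Valued.v a b).trans (max_le ha' hb')
  neg_mem' := by
    intro a ha
    have ha' : Valued.v a ≤ WithZero.exp (-n) := ha
    change Valued.v (-a) ≤ WithZero.exp (-n)
    rwa [Valuation.map_neg]

lemma exists_sum (hp : Valued.v (p : F) = WithZero.exp (-1 : ℤ)) (hu : IsStVec ρ p u)
    (n : ℤ) (z : V) (hz : z ∈ L ρ p u n) :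
    ∃ c : (F ⧸ Hn F n) →₀ ℂ, z = ∑ q ∈ c.support, c q • Bv ρ p u (Quotient.out q) n := by
  have h1 : z ∈ Submodule.span ℂ (Set.range fun q : F ⧸ Hn F n =>
      Bv ρ p u (Quotient.out q) n) := by
    refine Submodule.span_le.mpr ?_ hz
    rintro _ ⟨x, rfl⟩
    apply Submodule.subset_span
    refine ⟨(QuotientAddGroup.mk x : F ⧸ Hn F n), ?_⟩
    apply Bv_congr hp hu
    have h2 : (QuotientAddGroup.mk (Quotient.out (QuotientAddGroup.mk x : F ⧸ Hn F n)) :
        F ⧸ Hn F n) = QuotientAddGroup.mk x := Quotient.out_eq _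
    rw [eq_comm, QuotientAddGroup.eq] at h2
    have h3 : Valued.v (-x + Quotient.out (QuotientAddGroup.mk x : F ⧸ Hn F n)) ≤
      WithZero.exp (-n) := h2
    rwa [neg_add_eq_sub] at h3
  rw [Finsupp.mem_span_range_iff_exists_finsupp] at h1
  obtain ⟨c, hc⟩ := h1
  exact ⟨c, hc.symm⟩

lemma out_sep (n : ℤ) (q r : F ⧸ Hn F n) (hqr : q ≠ r) :
    WithZero.exp (-n) < Valued.v (Quotient.out q - Quotient.out r) := by
  by_contra h
  push Not at h
  apply hqr
  rw [← Quotient.out_eq q, ← Quotient.out_eq r]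
  change (QuotientAddGroup.mk (Quotient.out q) : F ⧸ Hn F n) = QuotientAddGroup.mk (Quotient.out r)
  rw [eq_comm, QuotientAddGroup.eq]
  change Valued.v (-Quotient.out r + Quotient.out q) ≤ WithZero.exp (-n)
  rwa [neg_add_eq_sub]

/-! counting -/

lemma lt_one_iff (x : F) (m : ℤ) : Valued.v x < WithZero.exp m ↔
    Valued.v x ≤ WithZero.exp (m - 1) := by
  rcases eq_or_ne (Valued.v x) 0 with h | h
  · rw [h]; simp
  · rw [← WithZero.exp_log h, WithZero.exp_lt_exp, WithZero.exp_le_exp]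
    omega

lemma shift (hp : Valued.v (p : F) = WithZero.exp (-1 : ℤ))
    (hres : ∀ x : F, Valued.v x ≤ 1 → Valued.v x < 1 ∨ Valued.v (x - 1) < 1)
    (x : F) (m : ℤ) (hx : Valued.v x = WithZero.exp m) :
    Valued.v (x - ((p ^ (-m) : Fˣ) : F)) ≤ WithZero.exp (m - 1) := by
  rw [← lt_one_iff]
  have h0 : Valued.v (((p ^ m : Fˣ) : F) * x) = 1 := by
    rw [map_mul, v_zpow hp, hx, ← WithZero.exp_add]; simp
  have h1 : x - ((p ^ (-m) : Fˣ) : F) = ((p ^ (-m) : Fˣ) : F) * (((p ^ m : Fˣ) : F) * x - 1) := by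
    rw [mul_sub, ← mul_assoc, ← Units.val_mul, ← _root_.zpow_add]
    simp
  rcases hres _ h0.le with h | h
  · exact absurd h0 h.ne
  · rw [h1, map_mul, v_zpow hp, neg_neg]
    calc _ < WithZero.exp m * 1 := by
            apply mul_lt_mul_of_pos_left h
            exact WithZero.exp_pos
      _ = _ := mul_one _

lemma card_le {ι : Type} [DecidableEq ι] (hp : Valued.v (p : F) = WithZero.exp (-1 : ℤ))
    (hres : ∀ x : F, Valued.v x ≤ 1 → Valued.v x < 1 ∨ Valued.v (x - 1) < 1) (K : ℕ) :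
    ∀ (s : Finset ι) (y : ι → F), (∀ i ∈ s, ∀ j ∈ s, i ≠ j → 1 < Valued.v (y i - y j)) →
      (∀ i ∈ s, Valued.v (y i) ≤ WithZero.exp (K : ℤ)) → s.card ≤ 2 ^ K := by
  induction K with
  | zero =>
    intro s y hs hy
    rw [pow_zero, Finset.card_le_one]
    intro a ha b hb
    by_contra hab
    refine absurd (hs a ha b hb hab) (not_lt.mpr ?_)
    refine (Valuation.map_sub _ _ _).trans (max_le ?_ ?_)
    · simpa using hy a ha
    · simpa using hy b hb
  | succ K ih =>
    intro s y hs hy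
    rw [← Finset.card_filter_add_card_filter_not (s := s)
      (fun i => Valued.v (y i) ≤ WithZero.exp (K : ℤ)), pow_succ, mul_two]
    apply add_le_add
    · apply ih _ y
      · intro i hi j hj hij
        exact hs i (Finset.mem_filter.mp hi).1 j (Finset.mem_filter.mp hj).1 hij
      · intro i hi
        exact (Finset.mem_filter.mp hi).2
    · apply ih _ (fun i => y i - ((p ^ (-((K : ℤ) + 1)) : Fˣ) : F))
      · intro i hi j hj hij
        simpa using hs i (Finset.mem_filter.mp hi).1 j (Finset.mem_filter.mp hj).1 hij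
      · intro i hi
        rw [Finset.mem_filter] at hi
        have h1 : Valued.v (y i) = WithZero.exp ((K : ℤ) + 1) := by
          apply le_antisymm
          · simpa using hy i hi.1
          · by_contra h
            push Not at h
            rw [lt_one_iff] at h
            apply hi.2
            simpa using h
        have h2 := shift hp hres _ _ h1
        simpa using h2

lemma sum_le {ι : Type} [DecidableEq ι] (hp : Valued.v (p : F) = WithZero.exp (-1 : ℤ))
    (hres : ∀ x : F, Valued.v x ≤ 1 → Valued.v x < 1 ∨ Valued.v (x - 1) < 1) (K : ℕ) :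
    ∀ (s : Finset ι) (y : ι → F) (k : ι → ℕ),
      (∀ i ∈ s, ∀ j ∈ s, i ≠ j → 1 < Valued.v (y i - y j)) →
      (∀ i ∈ s, Valued.v (y i) = WithZero.exp ((k i : ℤ) + 1)) → (∀ i ∈ s, k i < K) →
      ∑ i ∈ s, (1 / 2 : ℝ) ^ (2 * k i + 1) ≤ 1 - (1 / 2) ^ K := by
  induction K with
  | zero =>
    intro s y k hs hy hk
    have : s = ∅ := by
      rw [Finset.eq_empty_iff_forall_notMem]
      intro i hi
      exact absurd (hk i hi) (by omega)
    rw [this]
    simp
  | succ K ih =>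
    intro s y k hs hy hk
    rw [← Finset.sum_filter_add_sum_filter_not s (fun i => k i < K)]
    have h1 : ∑ i ∈ s with k i < K, (1 / 2 : ℝ) ^ (2 * k i + 1) ≤ 1 - (1 / 2) ^ K := by
      apply ih _ y k
      · intro i hi j hj hij
        exact hs i (Finset.mem_filter.mp hi).1 j (Finset.mem_filter.mp hj).1 hij
      · intro i hi
        exact hy i (Finset.mem_filter.mp hi).1
      · intro i hi
        exact (Finset.mem_filter.mp hi).2
    have h2 : ∀ i ∈ s.filter (fun i => ¬ k i < K), k i = K := by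
      intro i hi
      rw [Finset.mem_filter] at hi
      have := hk i hi.1
      omega
    have h3 : (s.filter (fun i => ¬ k i < K)).card ≤ 2 ^ K := by
      apply card_le hp hres K _ (fun i => y i - ((p ^ (-((K : ℤ) + 1)) : Fˣ) : F))
      · intro i hi j hj hij
        simpa using hs i (Finset.mem_filter.mp hi).1 j (Finset.mem_filter.mp hj).1 hij
      · intro i hi
        have h4 := hy i (Finset.mem_filter.mp hi).1
        rw [h2 i hi] at h4
        simpa using shift hp hres _ _ h4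
    have h5 : ∑ i ∈ s with ¬ k i < K, (1 / 2 : ℝ) ^ (2 * k i + 1) ≤ (1 / 2) ^ (K + 1) := by
      rw [Finset.sum_congr rfl (fun i hi => by rw [h2 i hi]), Finset.sum_const, nsmul_eq_mul]
      calc ((s.filter (fun i => ¬ k i < K)).card : ℝ) * (1 / 2) ^ (2 * K + 1)
          ≤ ((2 ^ K : ℕ) : ℝ) * (1 / 2) ^ (2 * K + 1) := by
            gcongr
            
        _ = (1 / 2) ^ (K + 1) := by
          rw [Nat.cast_pow, Nat.cast_ofNat, two_mul, add_assoc, pow_add (1 / 2 : ℝ) K (K + 1),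
            ← mul_assoc, ← mul_pow]
          norm_num
    have h6 : (1 / 2 : ℝ) ^ K = 2 * (1 / 2) ^ (K + 1) := by rw [pow_succ]; ring
    linarith

/-! averaging -/

/-- the averaging operator -/
def Avg (ρ : Representation ℂ (GL (Fin 2) F) V) (p : Fˣ) : ℕ → V →ₗ[ℂ] V
  | 0 => LinearMap.id
  | M + 1 => Avg ρ p M ∘ₗ ((1 / 2 : ℂ) • (LinearMap.id + ρ (nmat ((p ^ (M : ℤ) : Fˣ) : F))))

lemma Avg_mem (W : Submodule ℂ V) (hW : ∀ g, ∀ x ∈ W, ρ g x ∈ W) (M : ℕ) :
    ∀ x ∈ W, Avg ρ p M x ∈ W := by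
  induction M with
  | zero => intro x hx; exact hx
  | succ M ih =>
    intro x hx
    simp only [Avg, LinearMap.comp_apply, LinearMap.smul_apply, LinearMap.add_apply,
      LinearMap.id_apply]
    exact ih _ (W.smul_mem _ (W.add_mem hx (hW _ _ hx)))

lemma Avg_B (hp : Valued.v (p : F) = WithZero.exp (-1 : ℤ)) (hu : IsStVec ρ p u) (M : ℕ) :
    ∀ (m : ℕ) (y : F), m ≤ M → Valued.v y ≤ 1 → Avg ρ p M (Bv ρ p u y m) =
      ((1 / 2 : ℂ) ^ m) • u := by
  induction M with
  | zero =>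
    intro m y hm hy
    obtain rfl : m = 0 := by omega
    simp only [Avg, LinearMap.id_apply, pow_zero, one_smul]
    unfold Bv
    simp only [Nat.cast_zero, _root_.zpow_zero, amat_one, mul_one]
    exact hu.iw _ (nmat_mem _ hy)
  | succ M ih =>
    intro m y hm hy
    simp only [Avg, LinearMap.comp_apply, LinearMap.smul_apply, LinearMap.add_apply,
      LinearMap.id_apply, Bv_act]
    rcases Nat.lt_or_ge m (M + 1) with h | h
    · have h1 : Bv ρ p u (((p ^ (M : ℤ) : Fˣ) : F) + y) m = Bv ρ p u y m := by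
        apply Bv_congr hp hu
        rw [add_sub_cancel_right, v_zpow hp, WithZero.exp_le_exp]
        omega
      rw [h1, ← two_smul ℂ (Bv ρ p u y m), smul_smul]
      norm_num
      exact ih m y (by omega) hy
    · obtain rfl : m = M + 1 := by omega
      have h1 : Bv ρ p u y ((M + 1 : ℕ) : ℤ) +
          Bv ρ p u (((p ^ (M : ℤ) : Fˣ) : F) + y) ((M + 1 : ℕ) : ℤ) = Bv ρ p u y (M : ℤ) := by
        rw [refine_B hu y M, add_comm y]
        push_cast
        rfl
      rw [h1, map_smul, ih M y le_rfl hy, smul_smul, pow_succ, mul_comm]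

/-- action of `w` on `b(y,0)` for `y` non-integral -/
lemma w_act (hp : Valued.v (p : F) = WithZero.exp (-1 : ℤ)) (hu : IsStVec ρ p u) (y : F)
    (k : ℕ) (hy : Valued.v y = WithZero.exp ((k : ℤ) + 1)) :
    ρ (wmat p) (Bv ρ p u y 0) = Bv ρ p u (1 / (p * y)) ((2 * k + 1 : ℕ) : ℤ) := by
  have hy0 : y ≠ 0 := by
    rintro rfl
    rw [map_zero] at hy
    exact WithZero.exp_ne_zero hy.symm
  have h10 : ((wmat p * nmat y : GL (Fin 2) F) : Matrix (Fin 2) (Fin 2) F) 1 0 = p := by
    simp [Units.val_mul, Matrix.mul_apply, Fin.sum_univ_two]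
  have h11 : ((wmat p * nmat y : GL (Fin 2) F) : Matrix (Fin 2) (Fin 2) F) 1 1 = p * y := by
    simp [Units.val_mul, Matrix.mul_apply, Fin.sum_univ_two]
  have h01 : ((wmat p * nmat y : GL (Fin 2) F) : Matrix (Fin 2) (Fin 2) F) 0 1 = 1 := by
    simp [Units.val_mul, Matrix.mul_apply, Fin.sum_univ_two]
  have hdet : ((wmat p * nmat y : GL (Fin 2) F) : Matrix (Fin 2) (Fin 2) F).det = -p := by
    rw [Matrix.det_fin_two, h10, h11, h01]
    simp [Units.val_mul, Matrix.mul_apply, Fin.sum_univ_two]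
  have h1 := key hp hu (wmat p * nmat y) (by
    rw [h10, h11, map_mul, hp, hy, ← WithZero.exp_add, WithZero.exp_lt_exp]
    omega) ((2 * k + 1 : ℕ) : ℤ) (by
    rw [hdet, h11, Valuation.map_neg, map_mul, hp, hy, ← WithZero.exp_add, ← WithZero.exp_nsmul,
      ← WithZero.exp_add]
    congr 1
    push_cast
    simp)
  rw [h01, h11] at h1
  rw [← h1, map_mul, Module.End.mul_apply]
  unfold Bv
  rw [_root_.zpow_zero, amat_one, mul_one]

end main

end J838

theorem st_irred {F : Type} [Field F] [Valued F ℤᵐ⁰] {V : Type} [AddCommGroup V] [Module ℂ V]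
    (ρ : Representation ℂ (GL (Fin 2) F) V) (p : Fˣ)
    (hp : Valued.v (p : F) = WithZero.exp (-1 : ℤ))
    (hres : ∀ x : F, Valued.v x ≤ 1 → Valued.v x < 1 ∨ Valued.v (x - 1) < 1)
    (u : V) (hu : IsStVec ρ p u) (z : V)
    (hz : z ∈ Submodule.span ℂ (Set.range fun g => ρ g u)) (hz0 : z ≠ 0) :
    u ∈ Submodule.span ℂ (Set.range fun g => ρ g z) := by
  classical
  set W : Submodule ℂ V := Submodule.span ℂ (Set.range fun g => ρ g z) with hWdef
  have hW : ∀ g, ∀ x ∈ W, ρ g x ∈ W := by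
    intro g x hx
    induction hx using Submodule.span_induction with
    | mem x hx =>
      obtain ⟨h, rfl⟩ := hx
      apply Submodule.subset_span
      exact ⟨g * h, by simp [map_mul]⟩
    | zero => rw [map_zero]; exact W.zero_mem
    | add x y _ _ hx hy => rw [map_add]; exact W.add_mem hx hy
    | smul c x _ hx => rw [map_smul]; exact W.smul_mem _ hx
  have hzW : z ∈ W := Submodule.subset_span ⟨1, by simp⟩
  obtain ⟨n, hn⟩ := J838.mem_L hp hu z hz
  obtain ⟨c, hc⟩ := J838.exists_sum hp hu n z hn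
  have hne : c.support.Nonempty := by
    rw [Finset.nonempty_iff_ne_empty]
    intro h
    rw [h, Finset.sum_empty] at hc
    exact hz0 hc
  obtain ⟨q0, hq0, hmax⟩ := Finset.exists_max_image c.support (fun q => ‖c q‖) hne
  have hc0 : c q0 ≠ 0 := Finsupp.mem_support_iff.mp hq0
  -- translated coordinates
  set y : (F ⧸ J838.Hn F n) → F := fun q => ((p ^ (-n) : Fˣ) : F) *
    (Quotient.out q - Quotient.out q0) with hydef
  have hyexp : ∀ q, ∀ q', q ≠ q' → 1 < Valued.v (y q - y q') := by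
    intro q q' hqq
    have h1 := J838.out_sep n q q' hqq
    have h2 : y q - y q' = ((p ^ (-n) : Fˣ) : F) * (Quotient.out q - Quotient.out q') := by
      rw [hydef]; ring
    rw [h2, map_mul, J838.v_zpow hp, neg_neg]
    calc (1 : ℤᵐ⁰) = WithZero.exp n * WithZero.exp (-n) := by rw [← WithZero.exp_add]; simp
      _ < _ := mul_lt_mul_of_pos_left h1 WithZero.exp_pos
  have hy0 : y q0 = 0 := by simp [hydef]
  have hyk : ∀ q ∈ c.support.erase q0, ∃ k : ℕ, Valued.v (y q) = WithZero.exp ((k : ℤ) + 1) := by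
    intro q hq
    have h1 := hyexp q q0 (Finset.ne_of_mem_erase hq)
    rw [hy0, sub_zero] at h1
    have h0 : Valued.v (y q) ≠ 0 := (zero_lt_one.trans h1).ne'
    rw [← WithZero.exp_log h0, ← WithZero.exp_zero, WithZero.exp_lt_exp] at h1
    refine ⟨(WithZero.log (Valued.v (y q)) - 1).toNat, ?_⟩
    rw [Int.toNat_of_nonneg (by omega), sub_add_cancel, WithZero.exp_log h0]
  choose! k hk using hyk
  set z' : V := ρ (amat (p ^ (-n)) * nmat (-Quotient.out q0)) z with hz'
  have hz'W : z' ∈ W := hW _ _ hzW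
  have hz'eq : z' = ∑ q ∈ c.support, c q • J838.Bv ρ p u (y q) 0 := by
    rw [hz']
    conv_lhs => rw [hc]
    rw [map_sum]
    refine Finset.sum_congr rfl fun q _ => ?_
    rw [map_smul]
    congr 1
    unfold J838.Bv
    rw [← Module.End.mul_apply, ← map_mul]
    congr 2
    rw [mul_assoc, ← mul_assoc (nmat _), J838.nmat_mul, ← mul_assoc, J838.amat_nmat, mul_assoc,
      J838.amat_mul, ← _root_.zpow_add]
    simp [hydef, neg_add_eq_sub]
  obtain ⟨K, hK⟩ : ∃ K : ℕ, ∀ q ∈ c.support.erase q0, k q < K := by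
    refine ⟨(c.support.erase q0).sup k + 1, fun q hq => ?_⟩
    exact Nat.lt_succ_of_le (Finset.le_sup hq)
  have hw : ρ (wmat p) z' = c q0 • (-u) + ∑ q ∈ c.support.erase q0,
      c q • J838.Bv ρ p u (1 / (p * y q)) ((2 * k q + 1 : ℕ) : ℤ) := by
    rw [hz'eq, map_sum, ← Finset.add_sum_erase _ _ hq0]
    congr 1
    · rw [map_smul, hy0]
      congr 1
      unfold J838.Bv
      rw [_root_.zpow_zero, J838.amat_one, mul_one, J838.nmat_zero, map_one,
        Module.End.one_apply, hu.w]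
    · refine Finset.sum_congr rfl fun q hq => ?_
      rw [map_smul, J838.w_act hp hu (y q) (k q) (hk q hq)]
  have hA : J838.Avg ρ p (2 * K + 1) (ρ (wmat p) z') =
      (c q0 * (-1) + ∑ q ∈ c.support.erase q0, c q * (1 / 2) ^ (2 * k q + 1)) • u := by
    rw [hw, map_add, map_smul, map_neg, map_sum, add_smul, Finset.sum_smul]
    congr 1
    · have h1 := J838.Avg_B hp hu (2 * K + 1) 0 0 (by omega) (by simp)
      have h2 : J838.Bv ρ p u 0 ((0 : ℕ) : ℤ) = u := by
        unfold J838.Bv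
        simp [J838.amat_one, J838.nmat_zero]
      rw [h2] at h1
      rw [h1]
      simp
    · refine Finset.sum_congr rfl fun q hq => ?_
      rw [map_smul, J838.Avg_B hp hu (2 * K + 1) (2 * k q + 1) _ (by have := hK q hq; omega),
        smul_smul]
      rw [map_div₀, map_one, map_mul, hp, hk q hq, ← WithZero.exp_add, ← WithZero.exp_zero,
        ← WithZero.exp_sub, WithZero.exp_le_exp]
      omega
  have hsum := J838.sum_le hp hres K (c.support.erase q0) y k
    (fun i _ j _ hij => hyexp i j hij) hk hK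
  have hcoef : c q0 * (-1) + ∑ q ∈ c.support.erase q0, c q * (1 / 2 : ℂ) ^ (2 * k q + 1) ≠ 0 := by
    intro h
    have h1 : ‖∑ q ∈ c.support.erase q0, c q * (1 / 2 : ℂ) ^ (2 * k q + 1)‖ ≤
        ‖c q0‖ * (1 - (1 / 2) ^ K) := by
      calc _ ≤ ∑ q ∈ c.support.erase q0, ‖c q * (1 / 2 : ℂ) ^ (2 * k q + 1)‖ :=
            norm_sum_le _ _
        _ ≤ ∑ q ∈ c.support.erase q0, ‖c q0‖ * (1 / 2 : ℝ) ^ (2 * k q + 1) := by
            refine Finset.sum_le_sum fun q hq => ?_
            rw [norm_mul, norm_pow]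
            have := hmax q (Finset.mem_of_mem_erase hq)
            have h2 : ‖(1 / 2 : ℂ)‖ = 1 / 2 := by simp
            rw [h2]
            gcongr
        _ = ‖c q0‖ * ∑ q ∈ c.support.erase q0, (1 / 2 : ℝ) ^ (2 * k q + 1) := by
            rw [Finset.mul_sum]
        _ ≤ _ := by gcongr
    have h2 : ∑ q ∈ c.support.erase q0, c q * (1 / 2 : ℂ) ^ (2 * k q + 1) = c q0 := by
      linear_combination h
    rw [h2] at h1
    have h3 : 0 < ‖c q0‖ := norm_pos_iff.mpr hc0
    have h4 : (0 : ℝ) < (1 / 2) ^ K := by positivity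
    nlinarith
  have hfin : J838.Avg ρ p (2 * K + 1) (ρ (wmat p) z') ∈ W :=
    J838.Avg_mem W hW _ _ (hW _ _ hz'W)
  rw [hA] at hfin
  exact (W.smul_mem_iff hcoef).mp hfin

end TH824.BK
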