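import Pool.Agent.TH927.CM.Defs
import Pool.Agent.TH927.CM.Goal
import Pool.Agent.W76.MO.Asm6

/-!
# Job 885 (CM-ASM): assembly of the completely multiplicative version
-/

set_option autoImplicit false

namespace Pool.Agent.TH822.J885

open Finset Filter Topology
open scoped Classical
open Pool.Agent.W76.MO Pool.Agent.TH927.CM

/-! ### lists -/

/-- sum over the positions `p` of a list of `u p` times the product of `v` over the other
positions -/
noncomputable def PS (u v : ℕ → ℝ) : List ℕ → ℝ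
  | [] => 0
  | a :: l => u a * (l.map v).prod + v a * PS u v l

lemma prod_map_nonneg (v : ℕ → ℝ) (hv : ∀ p, 0 ≤ v p) (l : List ℕ) : 0 ≤ (l.map v).prod := by
  apply List.prod_nonneg
  intro x hx
  obtain ⟨p, -, rfl⟩ := List.mem_map.1 hx
  exact hv p

lemma one_le_prod_map (v : ℕ → ℝ) (hv : ∀ p, 0 ≤ v p) (l : List ℕ) :
    1 ≤ (l.map fun p => 1 + v p).prod := by
  induction l with
  | nil => simp
  | cons a l ih =>
    rw [List.map_cons, List.prod_cons]
    nlinarith [hv a]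

lemma PS_nonneg (u v : ℕ → ℝ) (hu : ∀ p, 0 ≤ u p) (hv : ∀ p, 0 ≤ v p) (l : List ℕ) :
    0 ≤ PS u v l := by
  induction l with
  | nil => simp [PS]
  | cons a l ih =>
    unfold PS
    exact add_nonneg (mul_nonneg (hu a) (prod_map_nonneg v hv l)) (mul_nonneg (hv a) ih)

lemma split_list (l : List ℕ) (u s : ℕ → ℝ) (hu : ∀ p, 0 ≤ u p) (hs : ∀ p, 0 ≤ s p) :
    ((l.map fun p => 1 + (u p + s p)).prod +
        PS (fun p => u p + s p) (fun p => 1 + (u p + s p)) l ≤
      (l.map fun p => 1 + 2 * (u p + s p)).prod) ∧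
    (PS (fun p => u p + s p) (fun p => 1 + (u p + s p)) l ≤
      PS u (fun q => 1 + 2 * (u q + s q)) l + (l.map fun p => 1 + 2 * s p).prod) ∧
    ((l.map fun p => 1 + (u p + s p)).prod +
        PS (fun p => u p + s p) (fun p => 1 + (u p + s p)) l ≤
      2 * PS u (fun q => 1 + 2 * (u q + s q)) l + (l.map fun p => 1 + 2 * s p).prod) := by
  induction l with
  | nil => simp [PS]
  | cons a l ih =>
    simp only [List.map_cons, List.prod_cons, PS]
    obtain ⟨h0, h1, h2⟩ := ih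
    have hua := hu a
    have hsa := hs a
    have hE1 : 1 ≤ (l.map fun p => 1 + (u p + s p)).prod :=
      one_le_prod_map (fun p => u p + s p) (fun p => add_nonneg (hu p) (hs p)) l
    have hT : 0 ≤ PS (fun p => u p + s p) (fun p => 1 + (u p + s p)) l :=
      PS_nonneg _ _ (fun p => add_nonneg (hu p) (hs p)) (fun p => by linarith [hu p, hs p]) l
    have hA : 0 ≤ PS u (fun q => 1 + 2 * (u q + s q)) l :=
      PS_nonneg _ _ hu (fun p => by linarith [hu p, hs p]) l
    have hB : 1 ≤ (l.map fun p => 1 + 2 * s p).prod :=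
      one_le_prod_map (fun p => 2 * s p) (fun p => by linarith [hs p]) l
    set E1 := (l.map fun p => 1 + (u p + s p)).prod with hE1d
    set T := PS (fun p => u p + s p) (fun p => 1 + (u p + s p)) l with hTd
    set E2 := (l.map fun p => 1 + 2 * (u p + s p)).prod with hE2d
    set A := PS u (fun q => 1 + 2 * (u q + s q)) l with hAd
    set B := (l.map fun p => 1 + 2 * s p).prod with hBd
    have k1 : 0 ≤ u a * (E2 - (E1 + T)) := mul_nonneg hua (by linarith)
    have k2 : 0 ≤ s a * (E2 - (E1 + T)) := mul_nonneg hsa (by linarith)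
    have k3 : 0 ≤ s a * (2 * A + B - (E1 + T)) := mul_nonneg hsa (by linarith)
    have k4 : 0 ≤ u a * A := mul_nonneg hua hA
    have k5 : 0 ≤ s a * B := mul_nonneg hsa (by linarith)
    have k6 : 0 ≤ u a * T := mul_nonneg hua hT
    have k7 : 0 ≤ s a * T := mul_nonneg hsa hT
    have k8 : 0 ≤ s a * A := mul_nonneg hsa hA
    have k9 : 0 ≤ u a * E1 := mul_nonneg hua (by linarith)
    have k10 : 0 ≤ u a * B := mul_nonneg hua (by linarith)
    refine ⟨?_, ?_, ?_⟩
    · nlinarith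
    · nlinarith
    · nlinarith

/-- perturbation of a product -/
lemma perturb_list (l : List ℕ) (x g g' G : ℕ → ℝ) (ε : ℝ) (hx : ∀ p, 0 ≤ x p)
    (hε : 0 ≤ ε) (hg : ∀ p, |g p| ≤ G p) (hg' : ∀ p, |g' p| ≤ G p)
    (hgg : ∀ p, |g p - g' p| ≤ ε * G p) :
    (|(l.map fun p => g p - x p).prod| ≤ (l.map fun p => x p + G p).prod) ∧
    (|(l.map fun p => g p - x p).prod - (l.map fun p => g' p - x p).prod| ≤
      ε * PS G (fun q => x q + G q) l) := by
  have hG : ∀ p, 0 ≤ G p := fun p => (abs_nonneg _).trans (hg p)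
  have hb : ∀ p, |g p - x p| ≤ x p + G p := fun p => by
    have h1 := abs_sub (g p) (x p)
    rw [abs_of_nonneg (hx p)] at h1
    linarith [hg p]
  have hb' : ∀ p, |g' p - x p| ≤ x p + G p := fun p => by
    have h1 := abs_sub (g' p) (x p)
    rw [abs_of_nonneg (hx p)] at h1
    linarith [hg' p]
  induction l with
  | nil => simp [PS]
  | cons a l ih =>
    obtain ⟨h1, h2⟩ := ih
    simp only [List.map_cons, List.prod_cons, PS]
    set A := (l.map fun p => g p - x p).prod with hA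
    set A' := (l.map fun p => g' p - x p).prod with hA'
    set B := (l.map fun p => x p + G p).prod with hB
    set S := PS G (fun q => x q + G q) l with hS
    have hB0 : 0 ≤ B := (abs_nonneg _).trans h1
    have hxa : 0 ≤ x a + G a := add_nonneg (hx a) (hG a)
    refine ⟨?_, ?_⟩
    · rw [abs_mul]
      exact mul_le_mul (hb a) h1 (abs_nonneg _) hxa
    · have e : (g a - x a) * A - (g' a - x a) * A' = (g a - g' a) * A + (g' a - x a) * (A - A') := by
        ring
      rw [e]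
      refine (abs_add_le _ _).trans ?_
      rw [abs_mul, abs_mul]
      have t1 : |g a - g' a| * |A| ≤ (ε * G a) * B :=
        mul_le_mul (hgg a) h1 (abs_nonneg _) (mul_nonneg hε (hG a))
      have t2 : |g' a - x a| * |A - A'| ≤ (x a + G a) * (ε * S) :=
        mul_le_mul (hb' a) h2 (abs_nonneg _) hxa
      calc |g a - g' a| * |A| + |g' a - x a| * |A - A'|
          ≤ (ε * G a) * B + (x a + G a) * (ε * S) := add_le_add t1 t2
        _ = ε * (G a * B + (x a + G a) * S) := by ring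

lemma scale_list (l : List ℕ) (hl : ∀ p ∈ l, p ≠ 0) (g : ℕ → ℝ) :
    (l.map fun p : ℕ => 1 / (p : ℝ) + g p).prod =
      (1 / ((l.prod : ℕ) : ℝ)) * (l.map fun p : ℕ => 1 + p * g p).prod ∧
    PS g (fun p : ℕ => 1 / (p : ℝ) + g p) l =
      (1 / ((l.prod : ℕ) : ℝ)) * PS (fun p => p * g p) (fun p : ℕ => 1 + p * g p) l := by
  induction l with
  | nil => simp [PS]
  | cons a l ih =>
    obtain ⟨h1, h2⟩ := ih (fun p hp => hl p (List.mem_cons_of_mem _ hp))
    have ha : (a : ℝ) ≠ 0 := by exact_mod_cast hl a List.mem_cons_self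
    have hlp : ((l.prod : ℕ) : ℝ) ≠ 0 := by
      have : l.prod ≠ 0 := by
        rw [Ne, List.prod_eq_zero_iff]
        intro h
        exact hl 0 (List.mem_cons_of_mem _ h) rfl
      exact_mod_cast this
    simp only [List.map_cons, List.prod_cons, PS, h1, h2]
    push_cast
    constructor
    · field_simp
    · field_simp

lemma PS_eq_sum (u v : ℕ → ℝ) (hv : ∀ p, v p ≠ 0) (l : List ℕ) :
    PS u v l = (l.map v).prod * (l.map fun p => u p / v p).sum := by
  induction l with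
  | nil => simp [PS]
  | cons a l ih =>
    simp only [PS, List.map_cons, List.prod_cons, List.sum_cons, ih]
    have := hv a
    field_simp

lemma mprod_div (v : ℕ → ℝ) {n p : ℕ} (hp : p ∈ n.primeFactors) :
    mprod v n = v p * mprod v (n / p) := by
  have hpp := Nat.prime_of_mem_primeFactors hp
  have hpn := Nat.dvd_of_mem_primeFactors hp
  have hn0 : n ≠ 0 := (Nat.mem_primeFactors.1 hp).2.2
  have h1 : n = p * (n / p) := (Nat.mul_div_cancel' hpn).symm
  have h2 : n / p ≠ 0 := by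
    intro h
    rw [h, mul_zero] at h1
    exact hn0 h1
  conv_lhs => rw [h1]
  rw [mprod_mul v hpp.ne_zero h2, mprod_prime v hpp]

lemma PS_group (u v : ℕ → ℝ) (hv : ∀ p, v p ≠ 0) (n : ℕ) :
    PS u v n.primeFactorsList =
      ∑ p ∈ n.primeFactors, (n.factorization p : ℝ) * (u p * mprod v (n / p)) := by
  rw [PS_eq_sum u v hv, Finset.sum_list_map_count, mul_sum]
  have h0 : n.primeFactorsList.toFinset = n.primeFactors := rfl
  rw [h0]
  refine sum_congr rfl fun p hp => ?_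
  rw [Nat.primeFactorsList_count_eq, nsmul_eq_mul]
  have h1 := mprod_div v hp
  have h2 : (n.primeFactorsList.map v).prod = mprod v n := rfl
  rw [h2, h1]
  have := hv p
  field_simp

lemma PS_sq (G : ℕ → ℝ) (l : List ℕ) (hl : l.Nodup) :
    PS G (fun p => 1 + G p) l = TT l.toFinset G := by
  induction l with
  | nil => simp [PS, TT]
  | cons a l ih =>
    rw [List.nodup_cons] at hl
    have ha : a ∉ l.toFinset := by rw [List.mem_toFinset]; exact hl.1
    rw [List.toFinset_cons, TT_insert a _ ha, PS, ih hl.2, List.prod_toFinset _ hl.2]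

/-! ### masses -/

section
variable (E : Env)

/-- total mass of first order at `n` -/
noncomputable def tauc (j n : ℕ) : ℝ :=
  (1 / (n : ℝ)) * PS (fun p => p * E.g j p) (fun p => 1 + p * E.g j p) n.primeFactorsList

/-- total mass at `n` -/
noncomputable def massc (j n : ℕ) : ℝ := (1 / (n : ℝ)) * mprod (fun p => 1 + p * E.g j p) n

/-- the large part of the mass at `n` -/
noncomputable def bigc (j i n : ℕ) : ℝ :=
  ∑ p ∈ n.primeFactors.filter (fun p : ℕ => (2 : ℝ) ^ (3 / 5 * (i : ℝ)) < p),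
      (n.factorization p : ℝ) * (E.gu j p * (Ec E j (n / p) / ((n / p : ℕ) : ℝ))) +
  ∑ q ∈ n.primeFactors.filter (fun q : ℕ => (2 : ℝ) ^ (1 / 20 * (i : ℝ)) < q),
      (n.factorization q : ℝ) * (E.gh j q * (Ec E j (n / q) / ((n / q : ℕ) : ℝ)))

lemma gl_gs_fun (j i : ℕ) : (fun q : ℕ => 1 + 2 * ((q : ℝ) * E.gl j i q + q * E.gs j i q)) =
    fun q : ℕ => 1 + 2 * ((q : ℝ) * E.g j q) := by
  funext q
  rw [← E.gl_add_gs j i q]
  ring

lemma bigc_eq (j i n : ℕ) (hn : n ≠ 0) (hg : ∀ p, 0 ≤ E.g j p) :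
    (1 / (n : ℝ)) * PS (fun p => p * E.gl j i p)
      (fun q => 1 + 2 * (q * E.gl j i q + q * E.gs j i q)) n.primeFactorsList = bigc E j i n := by
  rw [gl_gs_fun, PS_group _ _ (fun p => by
    have := mul_nonneg (Nat.cast_nonneg (α := ℝ) p) (hg p)
    positivity)]
  unfold bigc
  rw [sum_filter, sum_filter, ← sum_add_distrib, mul_sum]
  refine sum_congr rfl fun p hp => ?_
  have hpp := Nat.prime_of_mem_primeFactors hp
  have hp0 : (p : ℝ) ≠ 0 := by exact_mod_cast hpp.ne_zero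
  have hn0 : (n : ℝ) ≠ 0 := by exact_mod_cast hn
  have h1 : mprod (fun q : ℕ => 1 + 2 * ((q : ℝ) * E.g j q)) (n / p) = Ec E j (n / p) := rfl
  rw [h1, cast_div_prime n p hp]
  unfold Env.gl
  have h2 : ∀ c : ℝ, (1 / (n : ℝ)) * ((n.factorization p : ℝ) * (p * c * Ec E j (n / p))) =
      (n.factorization p : ℝ) * (c * (Ec E j (n / p) / ((n : ℝ) / p))) := by
    intro c
    field_simp
  by_cases k1 : (2 : ℝ) ^ (3 / 5 * (i : ℝ)) < p
  · by_cases k2 : (2 : ℝ) ^ (1 / 20 * (i : ℝ)) < p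
    · simp only [if_pos k1, if_pos k2]
      rw [h2]; ring
    · simp only [if_pos k1, if_neg k2]
      rw [h2]; ring
  · by_cases k2 : (2 : ℝ) ^ (1 / 20 * (i : ℝ)) < p
    · simp only [if_neg k1, if_pos k2]
      rw [h2]; ring
    · simp only [if_neg k1, if_neg k2]
      rw [h2]; ring

/-- pointwise bounds -/
lemma point (j i n : ℕ) (hu : ∀ p, 0 ≤ E.gu j p) (hh : ∀ p, 0 ≤ E.gh j p) (hn : n ≠ 0) :
    tauc E j n ≤ bigc E j i n + (1 / (n : ℝ)) * mprod (fun p => 1 + 2 * (p * E.gs j i p)) n ∧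
    massc E j n ≤ 2 * bigc E j i n +
      (1 / (n : ℝ)) * mprod (fun p => 1 + 2 * (p * E.gs j i p)) n ∧
    0 ≤ tauc E j n := by
  have hs := split_list n.primeFactorsList (fun p => p * E.gl j i p) (fun p => p * E.gs j i p)
    (fun p => mul_nonneg (Nat.cast_nonneg p) (E.gl_nonneg j i p (hu p) (hh p)))
    (fun p => mul_nonneg (Nat.cast_nonneg p) (E.gs_nonneg j i p (hu p) (hh p)))
  have e1 : (fun p : ℕ => (p : ℝ) * E.gl j i p + (p : ℝ) * E.gs j i p) =
      fun p : ℕ => (p : ℝ) * E.g j p := by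
    funext p
    rw [← E.gl_add_gs j i p]; ring
  have e2 : (fun p : ℕ => 1 + ((p : ℝ) * E.gl j i p + (p : ℝ) * E.gs j i p)) =
      fun p : ℕ => 1 + (p : ℝ) * E.g j p := by
    funext p
    rw [← E.gl_add_gs j i p]; ring
  have hg : ∀ p, 0 ≤ E.g j p := fun p => E.g_nonneg j p hu hh
  have hbig := bigc_eq E j i n hn hg
  have hn1 : (0 : ℝ) ≤ 1 / (n : ℝ) := by positivity
  obtain ⟨_, h1, h2⟩ := hs
  simp only [e1, e2] at h1 h2
  have hT : 0 ≤ PS (fun p : ℕ => (p : ℝ) * E.g j p) (fun p : ℕ => 1 + (p : ℝ) * E.g j p)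
      n.primeFactorsList := by
    refine PS_nonneg _ _ (fun p => mul_nonneg (Nat.cast_nonneg p) (hg p)) (fun p => ?_) _
    have := mul_nonneg (Nat.cast_nonneg (α := ℝ) p) (hg p)
    linarith
  refine ⟨?_, ?_, mul_nonneg hn1 hT⟩
  · unfold tauc
    refine (mul_le_mul_of_nonneg_left h1 hn1).trans (le_of_eq ?_)
    rw [mul_add, ← hbig]
    rfl
  · unfold massc mprod
    have h3 : (n.primeFactorsList.map fun p : ℕ => 1 + (p : ℝ) * E.g j p).prod ≤
        2 * PS (fun p => p * E.gl j i p)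
          (fun q => 1 + 2 * (q * E.gl j i q + q * E.gs j i q)) n.primeFactorsList +
        (n.primeFactorsList.map fun p : ℕ => 1 + 2 * ((p : ℝ) * E.gs j i p)).prod := by linarith
    refine (mul_le_mul_of_nonneg_left h3 hn1).trans (le_of_eq ?_)
    rw [mul_add, ← hbig]
    ring

/-- the key inequality for the cells, packaged -/
structure Keyc (R j : ℕ) : Prop where
  u0 : ∀ p, 0 ≤ E.gu j p
  h0 : ∀ p, 0 ≤ E.gh j p
  tau_cell : ∀ i k : ℕ, j ≤ i → k < nc E.δ i →
    ∑ n ∈ cr E R i k, tauc E j n ≤ E.w i + E.w i / 4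
  mass_cell : ∀ i k : ℕ, j ≤ i → k < nc E.δ i → ∑ n ∈ cr E R i k, massc E j n ≤ 4 * E.w i
  inv_cell : ∀ i k : ℕ, j ≤ i → k < nc E.δ i → ∑ n ∈ cr E R i k, 1 / (n : ℝ) ≤ E.w i / 4

lemma cr_pos {R i k n : ℕ} (hn : n ∈ cr E R i k) : n ≠ 0 := by
  unfold cr cell at hn
  rw [mem_filter, mem_Ioc] at hn
  have h1 := hn.1.1
  rintro rfl
  exact absurd h1 (Nat.not_lt_zero _)

theorem keyc (hGB : E.GBounds) (hU : UPartC E) (hH : HPartC E) (hS : SPartC E) :
    ∃ R₀ : ℕ, ∀ R : ℕ, R₀ ≤ R → ∃ J : ℕ, ∀ j : ℕ, J ≤ j → Keyc E R j := by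
  obtain ⟨J0, hJ0, hGB⟩ := hGB
  obtain ⟨R1, hU⟩ := hU
  obtain ⟨R2, hH⟩ := hH
  obtain ⟨J3, hS⟩ := hS
  refine ⟨max R1 R2, fun R hR => ?_⟩
  obtain ⟨J1, hU⟩ := hU R ((le_max_left _ _).trans hR)
  obtain ⟨J2, hH⟩ := hH R ((le_max_right _ _).trans hR)
  refine ⟨max (max J0 J1) (max J2 J3) + 5, fun j hj => ?_⟩
  have hj0 : J0 ≤ j := by omega
  have hj1 : J1 ≤ j := by omega
  have hj2 : J2 ≤ j := by omega
  have hj3 : J3 ≤ j := by omega
  have hj5 : 5 ≤ j := by omega
  obtain ⟨_, hu0, hh0, _⟩ := hGB j hj0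
  -- the three sums over a cell
  have hbig : ∀ i k : ℕ, j ≤ i → k < nc E.δ i →
      ∑ n ∈ cr E R i k, bigc E j i n ≤ E.w i + E.w i / 8 := by
    intro i k hi hk
    have a1 := hU j hj1 i hi k hk
    have a2 := hH j hj2 i hi k hk
    unfold bigc
    rw [sum_add_distrib]
    have a3 : ∑ n ∈ cr E R i k, ∑ p ∈ n.primeFactors.filter
          (fun p : ℕ => (2 : ℝ) ^ (3 / 5 * (i : ℝ)) < p),
        (n.factorization p : ℝ) * (E.gu j p * (Ec E j (n / p) / ((n / p : ℕ) : ℝ))) =
        ∑ n ∈ cr E R i k, ∑ p ∈ n.primeFactors.filter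
          (fun p : ℕ => (2 : ℝ) ^ (3 / 5 * (i : ℝ)) < p),
        E.gu j p * (Ec E j (n / p) / ((n / p : ℕ) : ℝ)) := by
      refine sum_congr rfl fun n hn => sum_congr rfl fun p hp => ?_
      rw [mem_filter] at hp
      obtain ⟨hp, hlt⟩ := hp
      have hpp := Nat.prime_of_mem_primeFactors hp
      have hpn := Nat.dvd_of_mem_primeFactors hp
      have hn0 := cr_pos E hn
      have hn2 : n ≤ 2 ^ (i + 1) := by
        unfold cr at hn
        exact (cell_loc E.δ E.hδ i k n hk (mem_filter.1 hn).1).2.1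
      have hfac : n.factorization p = 1 := by
        have h1 : 1 ≤ n.factorization p :=
          (hpp.dvd_iff_one_le_factorization hn0).1 hpn
        by_contra h2
        have h3 : 2 ≤ n.factorization p := by omega
        have h4 : p ^ 2 ∣ n := (hpp.pow_dvd_iff_le_factorization hn0).2 h3
        have h5 : p ^ 2 ≤ n := Nat.le_of_dvd (Nat.pos_of_ne_zero hn0) h4
        have h6 : ((p : ℝ)) ^ 2 ≤ (2 : ℝ) ^ (i + 1) := by
          exact_mod_cast h5.trans hn2
        have h7 : (2 : ℝ) ^ (i + 1) ≤ ((2 : ℝ) ^ (3 / 5 * (i : ℝ))) ^ 2 := by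
          rw [← Real.rpow_natCast, ← Real.rpow_natCast ((2 : ℝ) ^ (3 / 5 * (i : ℝ))),
            ← Real.rpow_mul (by norm_num)]
          apply Real.rpow_le_rpow_of_exponent_le (by norm_num)
          have : (5 : ℝ) ≤ i := by exact_mod_cast hj5.trans hi
          push_cast
          linarith
        have h8 : ((2 : ℝ) ^ (3 / 5 * (i : ℝ))) ^ 2 < (p : ℝ) ^ 2 := by
          apply pow_lt_pow_left₀ hlt (by positivity) (by norm_num)
        linarith
      rw [hfac, Nat.cast_one, one_mul]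
    rw [a3]
    refine (add_le_add a1 a2).trans (le_of_eq ?_)
    split_ifs <;> ring
  have hsm : ∀ i k : ℕ, j ≤ i → k < nc E.δ i →
      ∑ n ∈ cr E R i k, (1 / (n : ℝ)) * mprod (fun p => 1 + 2 * (p * E.gs j i p)) n ≤
        E.w i / 16 := by
    intro i k hi hk
    refine le_trans (sum_le_sum_of_subset_of_nonneg ?_ ?_) (hS j hj3 i hi k hk)
    · intro n hn
      unfold cr at hn
      rw [mem_filter] at hn
      exact hn.1
    · intro n _ _
      refine mul_nonneg (by positivity) (mprod_nonneg _ (fun p => ?_) n)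
      have := mul_nonneg (Nat.cast_nonneg (α := ℝ) p) (E.gs_nonneg j i p (hu0 p) (hh0 p))
      linarith
  refine ⟨hu0, hh0, ?_, ?_, ?_⟩
  · intro i k hi hk
    have hw := E.w_pos i (hJ0.trans (hj0.trans hi))
    calc ∑ n ∈ cr E R i k, tauc E j n
        ≤ ∑ n ∈ cr E R i k, (bigc E j i n +
            (1 / (n : ℝ)) * mprod (fun p => 1 + 2 * (p * E.gs j i p)) n) :=
          sum_le_sum fun n hn => (point E j i n hu0 hh0 (cr_pos E hn)).1
      _ ≤ (E.w i + E.w i / 8) + E.w i / 16 := by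
          rw [sum_add_distrib]
          exact add_le_add (hbig i k hi hk) (hsm i k hi hk)
      _ ≤ _ := by linarith
  · intro i k hi hk
    have hw := E.w_pos i (hJ0.trans (hj0.trans hi))
    calc ∑ n ∈ cr E R i k, massc E j n
        ≤ ∑ n ∈ cr E R i k, (2 * bigc E j i n +
            (1 / (n : ℝ)) * mprod (fun p => 1 + 2 * (p * E.gs j i p)) n) :=
          sum_le_sum fun n hn => (point E j i n hu0 hh0 (cr_pos E hn)).2.1
      _ ≤ 2 * (E.w i + E.w i / 8) + E.w i / 16 := by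
          rw [sum_add_distrib, ← mul_sum]
          exact add_le_add (mul_le_mul_of_nonneg_left (hbig i k hi hk) (by norm_num))
            (hsm i k hi hk)
      _ ≤ _ := by linarith
  · intro i k hi hk
    have hw := E.w_pos i (hJ0.trans (hj0.trans hi))
    calc ∑ n ∈ cr E R i k, 1 / (n : ℝ)
        ≤ ∑ n ∈ cr E R i k, (1 / (n : ℝ)) * mprod (fun p => 1 + 2 * (p * E.gs j i p)) n := by
          refine sum_le_sum fun n _ => ?_
          have h1 := one_le_mprod (fun p => 1 + 2 * (p * E.gs j i p)) (fun p => by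
            have := mul_nonneg (Nat.cast_nonneg (α := ℝ) p) (E.gs_nonneg j i p (hu0 p) (hh0 p))
            linarith) n
          have h2 : (0 : ℝ) ≤ 1 / (n : ℝ) := by positivity
          nlinarith
      _ ≤ E.w i / 16 := hsm i k hi hk
      _ ≤ _ := by linarith

/-! ### the function -/

/-- the function -/
noncomputable def fc (j : ℕ) (z : ℕ × ℕ → ℝ) (n : ℕ) : ℝ :=
  mprod (fun p => E.gz j z p - 1 / (p : ℝ)) n

lemma fc_sq (j : ℕ) (z : ℕ × ℕ → ℝ) {n : ℕ} (hn : Squarefree n) :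
    fc E j z n = E.fz j z n := mprod_sq _ hn

lemma tauc_sq (j : ℕ) {n : ℕ} (hn : Squarefree n) : tauc E j n = E.tau j n := by
  unfold tauc Env.tau
  congr 1
  exact PS_sq (fun p => (p : ℝ) * E.g j p) _
    ((Nat.squarefree_iff_nodup_primeFactorsList hn.ne_zero).1 hn)

lemma list_ne_zero (n : ℕ) : ∀ p ∈ n.primeFactorsList, p ≠ 0 := fun _ hp =>
  (Nat.prime_of_mem_primeFactorsList hp).ne_zero

lemma fc_bound (j n : ℕ) (z z' : ℕ × ℕ → ℝ) (ε : ℝ) (hu : ∀ p, 0 ≤ E.gu j p)
    (hz : ∀ i, |z i| ≤ 1) (hz' : ∀ i, |z' i| ≤ 1)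
    (hzz : ∀ i, |z i - z' i| ≤ ε) (hn : n ≠ 0) :
    |fc E j z n| ≤ massc E j n ∧ |fc E j z n - fc E j z' n| ≤ ε * tauc E j n := by
  have hε : 0 ≤ ε := (abs_nonneg _).trans (hzz (0, 0))
  have h := perturb_list n.primeFactorsList (fun p => 1 / (p : ℝ)) (E.gz j z) (E.gz j z') (E.g j) ε
    (fun p => by positivity) hε
    (fun p => (E.gz_le j z 1 hz hu p).trans (le_of_eq (one_mul _)))
    (fun p => (E.gz_le j z' 1 hz' hu p).trans (le_of_eq (one_mul _)))
    (fun p => by rw [Env.gz_sub]; exact E.gz_le j _ ε hzz hu p)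
  have hsc := scale_list n.primeFactorsList (list_ne_zero n) (E.g j)
  rw [Nat.prod_primeFactorsList hn] at hsc
  refine ⟨?_, ?_⟩
  · refine h.1.trans (le_of_eq ?_)
    exact hsc.1
  · refine h.2.trans (le_of_eq ?_)
    unfold tauc
    rw [← hsc.2]

lemma fc_zero (j n : ℕ) (hu : ∀ p, 0 ≤ E.gu j p) (hn : n ≠ 0) :
    |fc E j 0 n| = 1 / (n : ℝ) := by
  have h0 : ∀ p, E.gz j 0 p = 0 := fun p => by
    have := E.gz_le j 0 0 (fun i => by simp) hu p
    rw [zero_mul] at this
    exact abs_eq_zero.1 (le_antisymm this (abs_nonneg _))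
  have key : ∀ l : List ℕ, |(l.map fun p : ℕ => E.gz j 0 p - 1 / (p : ℝ)).prod| =
      1 / ((l.prod : ℕ) : ℝ) := by
    intro l
    induction l with
    | nil => simp
    | cons a l ih =>
      rw [List.map_cons, List.prod_cons, List.prod_cons, abs_mul, ih, h0, zero_sub, abs_neg,
        abs_of_nonneg (by positivity)]
      push_cast
      rw [one_div_mul_one_div]
  unfold fc mprod
  rw [key, Nat.prod_primeFactorsList hn]

/-! ### the first block -/

/-- rough numbers up to `2^j` -/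
noncomputable def A0c (R j : ℕ) : Finset ℕ := (Icc 1 (2 ^ j)).filter (fun n => Rough R n)

lemma tau_firstc (hGB : E.GBounds) (R : ℕ) : ∃ J : ℕ, 1 ≤ J ∧ ∀ j : ℕ, J ≤ j →
    (E.UB j).Nonempty ∧ (∀ p ∈ E.UB j, p.Prime) ∧
    ∑ n ∈ A0c R j, tauc E j n ≤ 8 * j + 8 * j / 4 := by
  obtain ⟨J, hJ, hGB⟩ := hGB
  refine ⟨J + 3, by omega, fun j hj => ?_⟩
  obtain ⟨hUB, hu0, hh0, hgu, hgh, _, hghq, hsum, _⟩ := hGB j (by omega)
  have hj3 : 3 ≤ j := by omega
  have hj1 : 1 ≤ j := by omega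
  have hjr : (1 : ℝ) ≤ j := by exact_mod_cast hj1
  have hcU := E.hcU
  have hcard : 0 < ((E.UB j).card : ℝ) := lt_of_lt_of_le (by positivity) hUB
  have hUBp : ∀ p ∈ E.UB j, p.Prime := by
    intro p hp
    unfold Env.UB at hp
    exact E.u_prime p (mem_filter.1 hp).2
  refine ⟨by exact Finset.card_pos.1 (by exact_mod_cast hcard), hUBp, ?_⟩
  have hg0 : ∀ p, 0 ≤ E.g j p := fun p => E.g_nonneg j p hu0 hh0
  -- every prime with a perturbation is large
  have hlarge : ∀ p : ℕ, E.g j p ≠ 0 → (2 : ℝ) ^ ((j : ℝ) / 2) ≤ p := by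
    intro p hp
    by_cases h1 : E.gh j p = 0
    · have h2 : E.gu j p ≠ 0 := by
        intro h2
        apply hp
        unfold Env.g
        rw [h1, h2, add_zero]
      have h3 := (hgu p h2).2
      have h4 : (2 : ℝ) ^ ((j : ℝ) / 2) ≤ (2 : ℝ) ^ (((j - 1 : ℕ) : ℝ)) := by
        apply Real.rpow_le_rpow_of_exponent_le (by norm_num)
        rw [Nat.cast_sub hj1]
        have : (3 : ℝ) ≤ j := by exact_mod_cast hj3
        push_cast
        linarith
      rw [Real.rpow_natCast] at h4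
      have h5 : ((2 ^ (j - 1) : ℕ) : ℝ) < p := by exact_mod_cast h3
      push_cast at h5
      linarith
    · exact (hghq p h1).1
  have hinj : ∀ p q : ℕ, p.Prime → E.g j p ≠ 0 → E.g j q ≠ 0 → 2 ^ j < p * q := by
    intro p q hpp hp hq
    have h1 := hlarge p hp
    have h2 := hlarge q hq
    have h3 : (2 : ℝ) ^ ((j : ℝ) / 2) * (2 : ℝ) ^ ((j : ℝ) / 2) = ((2 ^ j : ℕ) : ℝ) := by
      rw [← Real.rpow_add (by norm_num)]
      push_cast
      rw [← Real.rpow_natCast]
      congr 1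
      ring
    have h4 : (0 : ℝ) < (2 : ℝ) ^ ((j : ℝ) / 2) := by positivity
    rcases lt_trichotomy p q with h | h | h
    · have h5 : (p : ℝ) < q := by exact_mod_cast h
      have h6 : ((2 ^ j : ℕ) : ℝ) < ((p * q : ℕ) : ℝ) := by
        rw [← h3]; push_cast; nlinarith
      exact_mod_cast h6
    · subst h
      have h6 : ((2 ^ j : ℕ) : ℝ) ≤ ((p * p : ℕ) : ℝ) := by
        rw [← h3]; push_cast; nlinarith
      have h7 : 2 ^ j ≤ p * p := by exact_mod_cast h6
      refine lt_of_le_of_ne h7 ?_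
      intro h8
      have h9 : p ∣ 2 ^ j := ⟨p, h8⟩
      have h10 : p = 2 := (Nat.prime_dvd_prime_iff_eq hpp Nat.prime_two).1
        (hpp.dvd_of_dvd_pow h9)
      subst h10
      have h11 : 2 ^ 3 ≤ 2 ^ j := Nat.pow_le_pow_right (by norm_num) hj3
      omega
    · have h5 : (q : ℝ) < p := by exact_mod_cast h
      have h6 : ((2 ^ j : ℕ) : ℝ) < ((p * q : ℕ) : ℝ) := by
        rw [← h3]; push_cast; nlinarith
      exact_mod_cast h6
  -- tau for n in A0c
  have htau : ∀ n ∈ A0c R j, tauc E j n =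
      ∑ p ∈ n.primeFactors, E.g j p * (1 / ((n / p : ℕ) : ℝ)) := by
    intro n hn
    unfold A0c at hn
    rw [mem_filter, mem_Icc] at hn
    obtain ⟨⟨hn1, hn2⟩, _⟩ := hn
    have hn0 : n ≠ 0 := by omega
    unfold tauc
    rw [PS_group _ _ (fun p => by
      have := mul_nonneg (Nat.cast_nonneg (α := ℝ) p) (hg0 p)
      positivity), mul_sum]
    refine sum_congr rfl fun p hp => ?_
    by_cases hg : E.g j p = 0
    · rw [hg]; ring
    have hpp := Nat.prime_of_mem_primeFactors hp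
    have hpn := Nat.dvd_of_mem_primeFactors hp
    have hno : ∀ q : ℕ, q.Prime → q ∣ n / p → E.g j q = 0 := by
      intro q hq hqd
      by_contra hg2
      have h1 : p * q ∣ n := by
        have := Nat.mul_dvd_mul_left p hqd
        rwa [Nat.mul_div_cancel' hpn] at this
      have h2 := Nat.le_of_dvd hn1 h1
      have h3 := hinj p q hpp hg hg2
      omega
    have h3 : mprod (fun q : ℕ => 1 + (q : ℝ) * E.g j q) (n / p) = 1 := by
      unfold mprod
      apply List.prod_eq_one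
      intro x hx
      obtain ⟨q, hq, rfl⟩ := List.mem_map.1 hx
      rw [hno q (Nat.prime_of_mem_primeFactorsList hq) (Nat.dvd_of_mem_primeFactorsList hq)]
      ring
    have h4 : n.factorization p = 1 := by
      have h5 : 1 ≤ n.factorization p := (hpp.dvd_iff_one_le_factorization hn0).1 hpn
      by_contra h2
      have h6 : 2 ≤ n.factorization p := by omega
      have h7 : p ^ 2 ∣ n := (hpp.pow_dvd_iff_le_factorization hn0).2 h6
      have h8 : p ∣ n / p := by
        rw [pow_two] at h7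
        exact Nat.dvd_div_of_mul_dvd h7
      exact hg (hno p hpp h8)
    rw [h3, h4, cast_div_prime n p hp]
    have hp0 : (p : ℝ) ≠ 0 := by exact_mod_cast hpp.ne_zero
    have hn0' : (n : ℝ) ≠ 0 := by exact_mod_cast hn0
    field_simp
    simp
  have hsplit : ∑ n ∈ A0c R j, tauc E j n =
      ∑ n ∈ A0c R j, ∑ p ∈ n.primeFactors, E.gu j p * (1 / ((n / p : ℕ) : ℝ)) +
      ∑ n ∈ A0c R j, ∑ p ∈ n.primeFactors, E.gh j p * (1 / ((n / p : ℕ) : ℝ)) := by
    rw [← sum_add_distrib]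
    refine sum_congr rfl fun n hn => ?_
    rw [htau n hn, ← sum_add_distrib]
    refine sum_congr rfl fun p _ => ?_
    unfold Env.g
    ring
  -- first part
  have hp1 : ∑ n ∈ A0c R j, ∑ p ∈ n.primeFactors, E.gu j p * (1 / ((n / p : ℕ) : ℝ)) ≤ 8 * j := by
    have h1 : ∀ n ∈ A0c R j, ∑ p ∈ n.primeFactors, E.gu j p * (1 / ((n / p : ℕ) : ℝ)) =
        if n ∈ E.UB j then 8 * j / ((E.UB j).card : ℝ) else 0 := by
      intro n hn
      unfold A0c at hn
      rw [mem_filter, mem_Icc] at hn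
      obtain ⟨⟨hn1, hn2⟩, _⟩ := hn
      have hkey : ∀ p ∈ n.primeFactors, E.gu j p ≠ 0 → p = n ∧ n ∈ E.UB j := by
        intro p hp hg
        have hpn := Nat.dvd_of_mem_primeFactors hp
        obtain ⟨hU, hlt⟩ := hgu p hg
        obtain ⟨m, rfl⟩ := hpn
        have hjj : 2 ^ j = 2 * 2 ^ (j - 1) := by
          rw [← pow_succ']
          congr 1
          omega
        have hm : m = 1 := by
          have hm0 : m ≠ 0 := by rintro rfl; omega
          by_contra hm1
          have : 2 ≤ m := by omega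
          nlinarith
        subst hm
        rw [mul_one] at hn2 ⊢
        exact ⟨rfl, by unfold Env.UB; exact mem_filter.2 ⟨mem_Ioc.2 ⟨hlt, hn2⟩, hU⟩⟩
      split_ifs with hmem
      · have hnp := hUBp n hmem
        rw [hnp.primeFactors, sum_singleton, Nat.div_self hnp.pos]
        have hgun : E.gu j n = 8 * j / ((E.UB j).card : ℝ) := by
          have hmem' := hmem
          unfold Env.UB at hmem'
          rw [mem_filter, mem_Ioc] at hmem'
          unfold Env.gu
          rw [if_pos ⟨hmem'.2, hmem'.1.1⟩, if_pos hmem'.1.2]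
        rw [hgun]
        simp
      · refine sum_eq_zero fun p hp => ?_
        by_cases hg : E.gu j p = 0
        · rw [hg, zero_mul]
        · exact absurd (hkey p hp hg).2 hmem
    rw [sum_congr rfl h1, ← sum_filter, sum_const, nsmul_eq_mul]
    have h2 : (((A0c R j).filter (fun n => n ∈ E.UB j)).card : ℝ) ≤ ((E.UB j).card : ℝ) := by
      exact_mod_cast Finset.card_le_card (fun n hn => (mem_filter.1 hn).2)
    calc (((A0c R j).filter (fun n => n ∈ E.UB j)).card : ℝ) * (8 * j / ((E.UB j).card : ℝ))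
        ≤ ((E.UB j).card : ℝ) * (8 * j / ((E.UB j).card : ℝ)) :=
          mul_le_mul_of_nonneg_right h2 (by positivity)
      _ = 8 * j := by field_simp
  -- second part
  have hp2 : ∑ n ∈ A0c R j, ∑ p ∈ n.primeFactors, E.gh j p * (1 / ((n / p : ℕ) : ℝ)) ≤ 2 := by
    have h1 : ∑ n ∈ A0c R j, ∑ p ∈ n.primeFactors, E.gh j p * (1 / ((n / p : ℕ) : ℝ)) ≤
        ∑ x ∈ (Icc (1 : ℕ) (2 ^ j)) ×ˢ (Icc (1 : ℕ) (2 ^ j)), E.gh j x.1 * (1 / (x.2 : ℝ)) := by
      rw [sum_sigma']
      have hi : Set.InjOn (fun x : (_ : ℕ) × ℕ => ((x.2, x.1 / x.2) : ℕ × ℕ))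
          (((A0c R j).sigma fun n => n.primeFactors : Finset ((_ : ℕ) × ℕ)) : Set ((_ : ℕ) × ℕ)) := by
        rintro ⟨n, p⟩ hx ⟨n', p'⟩ hy hxy
        simp only [Finset.coe_sigma, Set.mem_sigma_iff, Finset.mem_coe] at hx hy
        simp only [Prod.mk.injEq] at hxy
        obtain ⟨h1, h2⟩ := hxy
        subst h1
        have e1 := Nat.div_mul_cancel (Nat.dvd_of_mem_primeFactors hx.2)
        have e2 := Nat.div_mul_cancel (Nat.dvd_of_mem_primeFactors hy.2)
        have : n = n' := by rw [← e1, ← e2, h2]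
        subst this
        rfl
      have e : ∑ x ∈ (A0c R j).sigma fun n => n.primeFactors,
            E.gh j x.2 * (1 / ((x.1 / x.2 : ℕ) : ℝ)) =
          ∑ y ∈ ((A0c R j).sigma fun n => n.primeFactors).image
            (fun x : (_ : ℕ) × ℕ => ((x.2, x.1 / x.2) : ℕ × ℕ)), E.gh j y.1 * (1 / (y.2 : ℝ)) := by
        rw [sum_image hi]
      rw [e]
      refine sum_le_sum_of_subset_of_nonneg ?_ fun x _ _ => mul_nonneg (hh0 _) (by positivity)
      intro y hy
      rw [mem_image] at hy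
      obtain ⟨⟨n, p⟩, hx, rfl⟩ := hy
      rw [mem_sigma] at hx
      obtain ⟨hn, hp⟩ := hx
      simp only at hn hp
      unfold A0c at hn
      rw [mem_filter, mem_Icc] at hn
      have hpp := Nat.prime_of_mem_primeFactors hp
      have hpn := Nat.le_of_dvd hn.1.1 (Nat.dvd_of_mem_primeFactors hp)
      simp only [mem_product, mem_Icc]
      refine ⟨⟨hpp.one_le, hpn.trans hn.1.2⟩, ?_, (Nat.div_le_self _ _).trans hn.1.2⟩
      exact Nat.div_pos hpn hpp.pos
    refine h1.trans ?_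
    rw [sum_product]
    simp only
    have h2 : ∑ x ∈ Icc (1 : ℕ) (2 ^ j), ∑ y ∈ Icc (1 : ℕ) (2 ^ j), E.gh j x * (1 / (y : ℝ)) =
        (∑ x ∈ Icc (1 : ℕ) (2 ^ j), E.gh j x) * ∑ y ∈ Icc (1 : ℕ) (2 ^ j), 1 / (y : ℝ) := by
      rw [sum_mul_sum]
    rw [h2]
    have h3 : ∑ x ∈ Icc (1 : ℕ) (2 ^ j), E.gh j x ≤ 1 / j := by
      refine le_trans (sum_le_sum fun q hq => ?_) (hsum (Icc 1 (2 ^ j)))
      rw [mem_Icc] at hq
      have hq0 : (1 : ℝ) ≤ q := by exact_mod_cast hq.1
      have h4 : (q : ℝ) * (q : ℝ) ^ (-1 + E.τ / 4) = (q : ℝ) ^ (E.τ / 4) := by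
        nth_rewrite 1 [← Real.rpow_one (q : ℝ)]
        rw [← Real.rpow_add (by linarith)]
        congr 1
        ring
      have h5 : 1 ≤ (q : ℝ) ^ (E.τ / 4) := Real.one_le_rpow hq0 (by have := E.hτ; positivity)
      calc E.gh j q = E.gh j q * 1 := (mul_one _).symm
        _ ≤ E.gh j q * (q : ℝ) ^ (E.τ / 4) := mul_le_mul_of_nonneg_left h5 (hh0 q)
        _ = (q * E.gh j q) * (q : ℝ) ^ (-1 + E.τ / 4) := by rw [← h4]; ring
    have h6 := Env.harm_le j
    have h7 : 0 ≤ ∑ x ∈ Icc (1 : ℕ) (2 ^ j), E.gh j x := sum_nonneg fun x _ => hh0 x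
    calc (∑ x ∈ Icc (1 : ℕ) (2 ^ j), E.gh j x) * ∑ y ∈ Icc (1 : ℕ) (2 ^ j), 1 / (y : ℝ)
        ≤ (1 / j) * (1 + j) := mul_le_mul h3 h6 (sum_nonneg fun _ _ => by positivity) (by positivity)
      _ = 1 / j + 1 := by field_simp
      _ ≤ 1 + 1 := by
          have : 1 / (j : ℝ) ≤ 1 := by rw [div_le_one (by linarith)]; exact hjr
          linarith
      _ = 2 := by norm_num
  rw [hsplit]
  linarith

end

/-! ### the solution -/

section
variable (E : Env)

theorem systemc (hGB : E.GBounds) (hHC : E.HCount)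
    (hKey : ∃ R₀ : ℕ, ∀ R : ℕ, R₀ ≤ R → ∃ J : ℕ, ∀ j : ℕ, J ≤ j → Keyc E R j) :
    ∃ (R j : ℕ) (z : ℕ × ℕ → ℝ), (∀ x, |z x| ≤ 1) ∧ 2 ≤ R ∧ 10 ≤ j ∧ Keyc E R j ∧
      ∑ n ∈ A0c R j, fc E j z n = 0 ∧
      ∀ i k : ℕ, j ≤ i → k < nc E.δ i → ∑ n ∈ cr E R i k, fc E j z n = 0 := by
  obtain ⟨R₀, hKey⟩ := hKey
  set R := max R₀ 2 with hR
  obtain ⟨J1, hKey⟩ := hKey R (le_max_left _ _)
  obtain ⟨J2, hJ2, hfirst⟩ := tau_firstc E hGB R
  obtain ⟨J3, hHC⟩ := hHC
  obtain ⟨J4, hJ4⟩ := ge_of_rpow_ge E.τ E.hτ R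
  obtain ⟨J5, hJ5, hGB⟩ := hGB
  set j := J1 + J2 + J3 + J4 + J5 + R + 10 with hj
  have hKj := hKey j (by omega)
  obtain ⟨hUBne, hUBp, htau1⟩ := hfirst j (by omega)
  obtain ⟨hUB, hu0, hh0, hgu, hgh, hguU, hghq, hsum1, hsum2⟩ := hGB j (by omega)
  have hj1 : 1 ≤ j := by omega
  have hjr : (1 : ℝ) ≤ j := by exact_mod_cast hj1
  have hRj : R ≤ 2 ^ (j - 1) := by
    have h1 : R ≤ j - 1 := by omega
    exact h1.trans (Nat.lt_two_pow_self).le
  -- the system
  let F : (ℕ × ℕ → ℝ) → ℕ × ℕ → ℝ := fun z x =>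
    if x = (j - 1, 0) then ∑ n ∈ A0c R j, fc E j z n
    else if j ≤ x.1 ∧ x.2 < nc E.δ x.1 then ∑ n ∈ cr E R x.1 x.2, fc E j z n
    else z x
  let W : ℕ × ℕ → ℝ := fun x =>
    if x = (j - 1, 0) then 8 * j else if j ≤ x.1 ∧ x.2 < nc E.δ x.1 then E.w x.1 else 1
  have hW : ∀ x, 0 < W x := by
    intro x
    simp only [W]
    split_ifs with h1 h2
    · positivity
    · exact E.w_pos _ (hj1.trans h2.1)
    · norm_num
  have hA0 : ∀ n ∈ A0c R j, n ≠ 0 := fun n hn => by
    unfold A0c at hn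
    have := (mem_Icc.1 (mem_filter.1 hn).1).1
    omega
  obtain ⟨z, hz1, hz0⟩ := solve F W hW (by
    intro x
    simp only [F, W]
    split_ifs with h1 h2
    · calc |∑ n ∈ A0c R j, fc E j 0 n| ≤ ∑ n ∈ A0c R j, |fc E j 0 n| := abs_sum_le_sum_abs _ _
        _ = ∑ n ∈ A0c R j, 1 / (n : ℝ) := sum_congr rfl fun n hn => fc_zero E j n hu0 (hA0 n hn)
        _ ≤ ∑ n ∈ Icc (1 : ℕ) (2 ^ j), 1 / (n : ℝ) := by
            apply sum_le_sum_of_subset_of_nonneg (filter_subset _ _)
            intro n _ _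
            positivity
        _ ≤ 1 + j := Env.harm_le j
        _ ≤ 8 * j / 4 := by linarith
    · calc |∑ n ∈ cr E R x.1 x.2, fc E j 0 n| ≤ ∑ n ∈ cr E R x.1 x.2, |fc E j 0 n| :=
            abs_sum_le_sum_abs _ _
        _ = ∑ n ∈ cr E R x.1 x.2, 1 / (n : ℝ) :=
            sum_congr rfl fun n hn => fc_zero E j n hu0 (cr_pos E hn)
        _ ≤ E.w x.1 / 4 := hKj.inv_cell x.1 x.2 h2.1 h2.2
    · simp) (by
    intro z z' ε hz hz' hzz x
    have hε : 0 ≤ ε := (abs_nonneg _).trans (hzz (0, 0))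
    simp only [F, W]
    split_ifs with h1 h2
    · -- the first block
      subst h1
      have hsub : E.UB j ⊆ A0c R j := by
        intro p hp
        have hpp := hUBp p hp
        unfold Env.UB at hp
        rw [mem_filter, mem_Ioc] at hp
        unfold A0c
        rw [mem_filter, mem_Icc]
        refine ⟨⟨hpp.one_le, hp.1.2⟩, ?_⟩
        intro q hq hqp
        have : q = p := (Nat.prime_dvd_prime_iff_eq hq hpp).1 hqp
        subst this
        have : R ≤ q := by omega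
        exact_mod_cast this
      have h := lip_sum (A0c R j) (E.UB j) hsub hUBne (fc E j z) (fc E j z') (tauc E j) ε (8 * j)
        (z (j - 1, 0) - z' (j - 1, 0))
        (fun n hn _ => (fc_bound E j n z z' ε hu0 hz hz' hzz (hA0 n hn)).2)
        (fun p hp => by
          have hsq := (hUBp p hp).squarefree
          rw [fc_sq E j z hsq, fc_sq E j z' hsq, tauc_sq E j hsq]
          exact E.prime_lip j p (hUBp p hp) z z' (j - 1, 0) _ ε
            (fun y => (E.gz_first j y (fun q hq => (hgh q hq).2.1) p hp).1)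
            (E.gz_first j z (fun q hq => (hgh q hq).2.1) p hp).2)
      refine h.trans (mul_le_mul_of_nonneg_left ?_ hε)
      linarith
    · -- a cell
      obtain ⟨i, k⟩ := x
      simp only at h2 ⊢
      obtain ⟨hji, hk⟩ := h2
      have htau := hKj.tau_cell i k hji hk
      have hi1 : 1 ≤ i := hj1.trans hji
      have hir : (0 : ℝ) < i := by exact_mod_cast hi1
      have hhpos : (0 : ℝ) < hh E.δ i := by exact_mod_cast hh_pos E.δ i
      have hRi : R ≤ 2 ^ i := by
        refine hRj.trans (Nat.pow_le_pow_right (by norm_num) (by omega))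
      by_cases hkb : k ∈ E.Bad i
      · -- bad cell
        have hne : (E.Host j i k).Nonempty := by
          rw [← Finset.card_pos]
          have h3 := hHC j (by omega) i hji k hkb
          have h4 : 0 < E.cH / 2 * hh E.δ i / i := by
            have := E.hcH
            positivity
          exact_mod_cast h4.trans_le h3
        have hsub : E.Host j i k ⊆ cr E R i k := by
          intro n hn
          unfold Env.Host at hn
          rw [mem_filter] at hn
          unfold cr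
          rw [mem_filter]
          refine ⟨hn.1, ?_⟩
          intro p hp hpn
          exact (hJ4 i (by omega)).trans (hn.2.2.2.2.1 p hp hpn)
        have h := lip_sum (cr E R i k) (E.Host j i k) hsub hne (fc E j z) (fc E j z') (tauc E j) ε
          (E.w i) (z (i, k) - z' (i, k))
          (fun n hn _ => (fc_bound E j n z z' ε hu0 hz hz' hzz (cr_pos E hn)).2)
          (fun n hn => by
            have hsq : Squarefree n := by
              unfold Env.Host at hn
              exact (mem_filter.1 hn).2.2.2.1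
            rw [fc_sq E j z hsq, fc_sq E j z' hsq, tauc_sq E j hsq]
            exact E.host_lip j z z' ε hu0 hgu (fun q hq => (hgh q hq).1) hz hz' hzz i k n hji hkb hn)
        refine h.trans (mul_le_mul_of_nonneg_left ?_ hε)
        linarith
      · -- good cell
        have hcard : 0 < (((cell E.δ i k).filter E.isU).card : ℝ) := by
          have h3 : ¬ ((((cell E.δ i k).filter E.isU).card : ℝ) < E.cU * hh E.δ i / (i : ℝ) ^ 4) := by
            intro h3
            apply hkb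
            unfold Env.Bad
            rw [mem_filter, mem_range]
            exact ⟨hk, h3⟩
          rw [not_lt] at h3
          have := E.hcU
          exact lt_of_lt_of_le (by positivity) h3
        have hne : ((cell E.δ i k).filter E.isU).Nonempty := by
          rw [← Finset.card_pos]
          exact_mod_cast hcard
        have hpr : ∀ p ∈ (cell E.δ i k).filter E.isU, p.Prime := fun p hp =>
          E.u_prime p (mem_filter.1 hp).2
        have hsub : (cell E.δ i k).filter E.isU ⊆ cr E R i k := by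
          intro p hp
          have hpp := hpr p hp
          rw [mem_filter] at hp
          unfold cr
          rw [mem_filter]
          refine ⟨hp.1, ?_⟩
          intro q hq hqp
          have : q = p := (Nat.prime_dvd_prime_iff_eq hq hpp).1 hqp
          subst this
          have h4 := (cell_loc E.δ E.hδ i k q hk hp.1).1
          have : R ≤ q := by omega
          exact_mod_cast this
        have h := lip_sum (cr E R i k) ((cell E.δ i k).filter E.isU) hsub hne (fc E j z) (fc E j z')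
          (tauc E j) ε (E.w i) (z (i, k) - z' (i, k))
          (fun n hn _ => (fc_bound E j n z z' ε hu0 hz hz' hzz (cr_pos E hn)).2)
          (fun p hp => by
            have hp' := mem_filter.1 hp
            have hsq := (hpr p hp).squarefree
            rw [fc_sq E j z hsq, fc_sq E j z' hsq, tauc_sq E j hsq]
            exact E.prime_lip j p (hpr p hp) z z' (i, k) _ ε
              (fun y => (E.gz_good j y (fun q hq => (hgh q hq).2.1) hh0 i k p hji hk hkb hp'.1 hp'.2).1)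
              (E.gz_good j z (fun q hq => (hgh q hq).2.1) hh0 i k p hji hk hkb hp'.1 hp'.2).2)
        refine h.trans (mul_le_mul_of_nonneg_left ?_ hε)
        linarith
    · simp only [one_mul, sub_self, abs_zero]
      positivity)
  refine ⟨R, j, z, hz1, le_max_right _ _, by omega, hKj, ?_, ?_⟩
  · have h := hz0 (j - 1, 0)
    simp only [F] at h
    simpa using h
  · intro i k hi hk
    have h := hz0 (i, k)
    simp only [F] at h
    have hne : ¬ ((i, k) : ℕ × ℕ) = (j - 1, 0) := by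
      intro h1
      have : i = j - 1 := (Prod.ext_iff.1 h1).1
      omega
    rw [if_neg hne, if_pos ⟨hi, hk⟩] at h
    exact h

/-- the function, real valued -/
noncomputable def ffc (R j : ℕ) (z : ℕ × ℕ → ℝ) (n : ℕ) : ℝ :=
  if Rough R n then fc E j z n else 0

lemma ffc_mul (R j : ℕ) (z : ℕ × ℕ → ℝ) (m n : ℕ) (hm0 : m ≠ 0) (hn0 : n ≠ 0) :
    ffc E R j z (m * n) = ffc E R j z m * ffc E R j z n := by
  unfold ffc
  have h1 : Rough R (m * n) ↔ Rough R m ∧ Rough R n := Env.rough_mul _ _ _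
  by_cases hm : Rough R m
  · by_cases hn : Rough R n
    · rw [if_pos (h1.2 ⟨hm, hn⟩), if_pos hm, if_pos hn]
      exact mprod_mul _ hm0 hn0
    · rw [if_neg (fun h => hn (h1.1 h).2), if_neg hn, mul_zero]
  · rw [if_neg (fun h => hm (h1.1 h).1), if_neg hm, zero_mul]

/-- partial sums -/
noncomputable def SSc (R j : ℕ) (z : ℕ × ℕ → ℝ) (N : ℕ) : ℝ := ∑ n ∈ Icc 1 N, ffc E R j z n

lemma SSc_add (R j : ℕ) (z : ℕ × ℕ → ℝ) (M N : ℕ) (h : M ≤ N) :
    SSc E R j z N = SSc E R j z M + ∑ n ∈ Ioc M N, ffc E R j z n := by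
  unfold SSc
  have h1 : Icc 1 N = Icc 1 M ∪ Ioc M N := by
    ext n
    simp only [mem_Icc, mem_union, mem_Ioc]
    omega
  rw [h1, sum_union]
  rw [disjoint_left]
  intro n hn hn'
  rw [mem_Icc] at hn
  rw [mem_Ioc] at hn'
  omega

lemma sum_cellc (R j i k : ℕ) (z : ℕ × ℕ → ℝ) :
    ∑ n ∈ cell E.δ i k, ffc E R j z n = ∑ n ∈ cr E R i k, fc E j z n := by
  unfold cr ffc
  rw [sum_filter]

end

section
variable {E : Env}

structure Solc (E : Env) (R j : ℕ) (z : ℕ × ℕ → ℝ) : Prop where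
  z1 : ∀ x, |z x| ≤ 1
  R2 : 2 ≤ R
  j10 : 10 ≤ j
  key : Keyc E R j
  first : ∑ n ∈ A0c R j, fc E j z n = 0
  cells : ∀ i k : ℕ, j ≤ i → k < nc E.δ i → ∑ n ∈ cr E R i k, fc E j z n = 0

lemma Solc.SS_first {R j : ℕ} {z : ℕ × ℕ → ℝ} (h : Solc E R j z) : SSc E R j z (2 ^ j) = 0 := by
  unfold SSc ffc
  rw [← sum_filter]
  exact h.first

lemma Solc.SS_cell {R j : ℕ} {z : ℕ × ℕ → ℝ} (h : Solc E R j z) (i : ℕ) (hi : j ≤ i)
    (h0 : SSc E R j z (2 ^ i) = 0) (k : ℕ) (hk : k ≤ nc E.δ i) :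
    SSc E R j z (2 ^ i + k * hh E.δ i) = 0 := by
  induction k with
  | zero => simpa using h0
  | succ k ih =>
    have h1 := ih (by omega)
    rw [SSc_add E R j z (2 ^ i + k * hh E.δ i) _ (by gcongr; omega), h1, zero_add]
    have h2 := sum_cellc E R j i k z
    unfold cell at h2
    rw [h2]
    exact h.cells i k hi (by omega)

lemma Solc.SS_block {R j : ℕ} {z : ℕ × ℕ → ℝ} (h : Solc E R j z) (i : ℕ) (hi : j ≤ i) :
    SSc E R j z (2 ^ i) = 0 := by
  induction i, hi using Nat.le_induction with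
  | base => exact h.SS_first
  | succ i hi ih =>
    have h1 := h.SS_cell i hi ih (nc E.δ i) le_rfl
    rw [nc_mul E.δ E.hδ i] at h1
    rw [pow_succ, mul_two]
    exact h1

lemma Solc.ff_abs {R j : ℕ} {z : ℕ × ℕ → ℝ} (h : Solc E R j z) (i k : ℕ) (hi : j ≤ i)
    (hk : k < nc E.δ i) : ∑ n ∈ cell E.δ i k, |ffc E R j z n| ≤ 4 * E.w i := by
  have h1 : ∑ n ∈ cell E.δ i k, |ffc E R j z n| = ∑ n ∈ cr E R i k, |fc E j z n| := by
    unfold cr ffc
    rw [sum_filter]
    refine sum_congr rfl fun n _ => ?_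
    split_ifs <;> simp
  rw [h1]
  refine le_trans (sum_le_sum fun n hn => ?_) (h.key.mass_cell i k hi hk)
  exact (fc_bound E j n z z 0 h.key.u0 h.z1 h.z1 (fun x => by simp) (cr_pos E hn)).1

lemma Solc.SS_le {R j : ℕ} {z : ℕ × ℕ → ℝ} (h : Solc E R j z) (N : ℕ) (hN : 2 ^ j < N) :
    |SSc E R j z N| ≤ 4 * E.w (Env.sc N) ∧ j ≤ Env.sc N ∧ N ≤ 2 ^ (Env.sc N + 1) ∧
      2 ^ Env.sc N < N := by
  have h2j : 0 < 2 ^ j := by positivity
  set i := Env.sc N with hi
  have h1 : 2 ^ i ≤ N - 1 := by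
    rw [hi]
    exact Nat.pow_log_le_self 2 (by omega)
  have h2 : N - 1 < 2 ^ (i + 1) := by
    rw [hi]
    exact Nat.lt_pow_succ_log_self (by norm_num) (N - 1)
  have hji : j ≤ i := by
    by_contra hcon
    push Not at hcon
    have h3 : 2 ^ (i + 1) ≤ 2 ^ j := Nat.pow_le_pow_right (by norm_num) hcon
    have h4 := lt_of_lt_of_le h2 h3
    omega
  set k := (N - 1 - 2 ^ i) / hh E.δ i with hk
  have hpos := hh_pos E.δ i
  have h3 : k * hh E.δ i ≤ N - 1 - 2 ^ i := Nat.div_mul_le_self _ _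
  have h4 : N - 1 - 2 ^ i < (k + 1) * hh E.δ i := by
    have h5 : N - 1 - 2 ^ i < hh E.δ i * (k + 1) := by
      have := Nat.lt_mul_div_succ (N - 1 - 2 ^ i) hpos
      exact this
    rw [mul_comm]
    exact h5
  have hkn : k < nc E.δ i := by
    have h5 := nc_mul E.δ E.hδ i
    have h6 : k * hh E.δ i < nc E.δ i * hh E.δ i := by
      rw [h5]
      rw [pow_succ] at h2
      omega
    exact lt_of_mul_lt_mul_right h6 (Nat.zero_le _)
  have h0 := h.SS_cell i hji (h.SS_block i hji) k hkn.le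
  refine ⟨?_, hji, by omega, by omega⟩
  rw [SSc_add E R j z (2 ^ i + k * hh E.δ i) N (by omega), h0, zero_add]
  refine (abs_sum_le_sum_abs _ _).trans (le_trans ?_ (h.ff_abs i k hji hkn))
  apply sum_le_sum_of_subset_of_nonneg
  · intro n hn
    rw [mem_Ioc] at hn
    unfold cell
    rw [mem_Ioc]
    omega
  · intro n _ _
    exact abs_nonneg _

theorem Solc.bound {R j : ℕ} {z : ℕ × ℕ → ℝ} (h : Solc E R j z) : ∃ C : ℝ, 0 < C ∧
    ∀ N : ℕ, 1 ≤ N → |SSc E R j z N| ≤ C * (N : ℝ) ^ (-(1 / 2 : ℝ) - E.δ / 2) := by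
  set M : ℝ := ∑ n ∈ Icc 1 (2 ^ j), |ffc E R j z n| with hM
  have hM0 : 0 ≤ M := sum_nonneg fun _ _ => abs_nonneg _
  have hδ := E.hδ
  refine ⟨8 + M * ((2 ^ j : ℕ) : ℝ) ^ (1 / 2 + E.δ / 2), by positivity, fun N hN => ?_⟩
  have hN0 : (0 : ℝ) < N := by exact_mod_cast hN
  rcases Nat.lt_or_ge (2 ^ j) N with h1 | h1
  · obtain ⟨h2, h3, h4, _⟩ := h.SS_le N h1
    have h5 := Env.w_le E (Env.sc N) N (by have := h.j10; omega) h4 hN
    have h6 : 0 < (N : ℝ) ^ (-(1 / 2 : ℝ) - E.δ / 2) := by positivity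
    have h7 : 0 ≤ M * ((2 ^ j : ℕ) : ℝ) ^ (1 / 2 + E.δ / 2) := by positivity
    nlinarith
  · have h2 : |SSc E R j z N| ≤ M := by
      unfold SSc
      refine (abs_sum_le_sum_abs _ _).trans ?_
      apply sum_le_sum_of_subset_of_nonneg
      · exact Icc_subset_Icc_right h1
      · intro n _ _
        exact abs_nonneg _
    have h3 : 1 ≤ ((2 ^ j : ℕ) : ℝ) ^ (1 / 2 + E.δ / 2) * (N : ℝ) ^ (-(1 / 2 : ℝ) - E.δ / 2) := by
      have h4 : (N : ℝ) ^ (1 / 2 + E.δ / 2) ≤ ((2 ^ j : ℕ) : ℝ) ^ (1 / 2 + E.δ / 2) := by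
        apply Real.rpow_le_rpow hN0.le (by exact_mod_cast h1)
        positivity
      have h5 : (N : ℝ) ^ (1 / 2 + E.δ / 2) * (N : ℝ) ^ (-(1 / 2 : ℝ) - E.δ / 2) = 1 := by
        rw [← Real.rpow_add hN0]
        have : (1 / 2 + E.δ / 2) + (-(1 / 2 : ℝ) - E.δ / 2) = 0 := by ring
        rw [this, Real.rpow_zero]
      have h6 : 0 ≤ (N : ℝ) ^ (-(1 / 2 : ℝ) - E.δ / 2) := by positivity
      have h7 := mul_le_mul_of_nonneg_right h4 h6
      rw [h5] at h7
      exact h7
    have h6 : 0 < (N : ℝ) ^ (-(1 / 2 : ℝ) - E.δ / 2) := by positivity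
    calc |SSc E R j z N| ≤ M * 1 := by rw [mul_one]; exact h2
      _ ≤ M * (((2 ^ j : ℕ) : ℝ) ^ (1 / 2 + E.δ / 2) * (N : ℝ) ^ (-(1 / 2 : ℝ) - E.δ / 2)) :=
          mul_le_mul_of_nonneg_left h3 hM0
      _ ≤ (8 + M * ((2 ^ j : ℕ) : ℝ) ^ (1 / 2 + E.δ / 2)) * (N : ℝ) ^ (-(1 / 2 : ℝ) - E.δ / 2) := by
          nlinarith

theorem Solc.concl {R j : ℕ} {z : ℕ × ℕ → ℝ} (h : Solc E R j z) : ConclC := by
  obtain ⟨C, hC, hb⟩ := h.bound
  have hδ := E.hδ
  have hsum : ∀ N : ℕ, ∑ n ∈ Icc 1 N, ((ffc E R j z n : ℝ) : ℂ) = ((SSc E R j z N : ℝ) : ℂ) := by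
    intro N
    unfold SSc
    push_cast
    rfl
  have h11 : ffc E R j z 1 = 1 := by
    unfold ffc fc
    rw [if_pos, mprod_one]
    intro p hp hd
    exact absurd (Nat.dvd_one.1 hd) hp.one_lt.ne'
  refine ⟨fun n => ((ffc E R j z n : ℝ) : ℂ), ⟨?_, ?_, ?_⟩, E.δ / 2, C * 2, by positivity,
    by positivity, ?_⟩
  · show ((ffc E R j z 1 : ℝ) : ℂ) = 1
    rw [h11, Complex.ofReal_one]
  · intro m n hm hn
    show ((ffc E R j z (m * n) : ℝ) : ℂ) = ((ffc E R j z m : ℝ) : ℂ) * ((ffc E R j z n : ℝ) : ℂ)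
    rw [ffc_mul E R j z m n (by omega) (by omega), Complex.ofReal_mul]
  · have h1 : Tendsto (fun N : ℕ => SSc E R j z N) atTop (𝓝 0) := by
      have h2 : Tendsto (fun N : ℕ => C * (N : ℝ) ^ (-(1 / 2 : ℝ) - E.δ / 2)) atTop (𝓝 0) := by
        have h3 : Tendsto (fun x : ℝ => x ^ (-(1 / 2 + E.δ / 2))) atTop (𝓝 0) :=
          tendsto_rpow_neg_atTop (by positivity)
        have h4 := (h3.comp tendsto_natCast_atTop_atTop).const_mul C
        rw [mul_zero] at h4
        refine h4.congr fun N => ?_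
        simp only [Function.comp]
        congr 2
        ring
      rw [tendsto_zero_iff_abs_tendsto_zero]
      refine squeeze_zero' (Eventually.of_forall fun N => abs_nonneg _) ?_ h2
      filter_upwards [eventually_ge_atTop 1] with N hN
      exact hb N hN
    have h5 : Tendsto (fun N : ℕ => ((SSc E R j z N : ℝ) : ℂ)) atTop (𝓝 ((0 : ℝ) : ℂ)) :=
      (Complex.continuous_ofReal.tendsto 0).comp h1
    rw [Complex.ofReal_zero] at h5
    exact h5.congr fun N => (hsum N).symm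
  · intro x hx
    have hfl : 1 ≤ ⌊x⌋₊ := by rwa [Nat.one_le_floor_iff]
    have h1 : partialSum (fun n => ((ffc E R j z n : ℝ) : ℂ)) x =
        ((SSc E R j z ⌊x⌋₊ : ℝ) : ℂ) := hsum _
    rw [h1, Complex.norm_real, Real.norm_eq_abs]
    have h2 := hb ⌊x⌋₊ hfl
    have hN0 : (0 : ℝ) < ⌊x⌋₊ := by exact_mod_cast hfl
    have h3 : x / 2 ≤ ⌊x⌋₊ := by
      have := Nat.lt_floor_add_one x
      have h4 : (1 : ℝ) ≤ ⌊x⌋₊ := by exact_mod_cast hfl
      linarith
    have hδ1 : E.δ ≤ 1 / 100000 := by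
      have := E.hδ'
      have := E.hτ'
      linarith
    have h5 : (⌊x⌋₊ : ℝ) ^ (-(1 / 2 : ℝ) - E.δ / 2) ≤ (x / 2) ^ (-(1 / 2 : ℝ) - E.δ / 2) :=
      Real.rpow_le_rpow_of_nonpos (by linarith) h3 (by linarith)
    have h6 : (x / 2) ^ (-(1 / 2 : ℝ) - E.δ / 2) ≤ 2 * x ^ (-(1 / 2 : ℝ) - E.δ / 2) := by
      rw [Real.div_rpow (by linarith) (by norm_num), div_eq_mul_inv, ← Real.rpow_neg (by norm_num),
        mul_comm]
      apply mul_le_mul_of_nonneg_right _ (by positivity)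
      calc (2 : ℝ) ^ (-(-(1 / 2 : ℝ) - E.δ / 2)) ≤ (2 : ℝ) ^ (1 : ℝ) := by
            apply Real.rpow_le_rpow_of_exponent_le (by norm_num)
            linarith
        _ = 2 := Real.rpow_one 2
    calc |SSc E R j z ⌊x⌋₊| ≤ C * (⌊x⌋₊ : ℝ) ^ (-(1 / 2 : ℝ) - E.δ / 2) := h2
      _ ≤ C * (2 * x ^ (-(1 / 2 : ℝ) - E.δ / 2)) :=
          mul_le_mul_of_nonneg_left (h5.trans h6) hC.le
      _ = C * 2 * x ^ (-(1 / 2 : ℝ) - E.δ / 2) := by ring

end

theorem ASM_c : ∀ E : Env, E.HCount → E.GBounds → UPartC E → HPartC E → SPartC E → ConclC := by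
  intro E hHC hGB hU hH hS
  obtain ⟨R, j, z, h1, h2, h3, h4, h5, h6⟩ := systemc E hGB hHC (keyc E hGB hU hH hS)
  have h : Solc E R j z := ⟨h1, h2, h3, h4, h5, h6⟩
  exact h.concl

end Pool.Agent.TH822.J885
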