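import Pool.Agent.W398.HT.RRD2
import Pool.Agent.W177.HT.SD

/-!
# Job Z-SD, part 1: derivatives of the limit functions near `(δ₀(η), 0)` and `(δ₀(η), i η)`
-/

set_option autoImplicit false

namespace Pool.Agent.TH822.Z

open Filter Topology Metric MeasureTheory Set
open scoped Real
open Pool.Agent.W711.HT (rrF ssF Lg bet Rc)
open Pool.Agent.W398.HT

/-! ### The base point -/

/-- `cos (2 π δ₀)` -/
noncomputable def cz (η : ℝ) : ℝ := (1 - Real.cosh η) / (3 + Real.cosh η)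

/-- `δ₀` -/
noncomputable def dd (η : ℝ) : ℝ := Real.arccos (cz η) / (2 * π)

/-- `2 π δ₀` -/
noncomputable def u0 (η : ℝ) : ℝ := Real.arccos (cz η)

lemma dd_eq (η : ℝ) : 2 * π * dd η = u0 η := by
  unfold dd u0
  field_simp

lemma dd_eqC (η : ℝ) : 2 * (π : ℂ) * (dd η : ℂ) = (u0 η : ℂ) := by
  rw [← dd_eq]
  push_cast
  ring

lemma cz_gt (η : ℝ) : -1 < cz η := by
  unfold cz
  have := Real.one_le_cosh η
  rw [lt_div_iff₀ (by linarith)]
  linarith

lemma cz_le (η : ℝ) : cz η ≤ 0 := by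
  unfold cz
  have := Real.one_le_cosh η
  exact div_nonpos_of_nonpos_of_nonneg (by linarith) (by linarith)

lemma cos_u0 (η : ℝ) : Real.cos (u0 η) = cz η :=
  Real.cos_arccos (cz_gt η).le ((cz_le η).trans zero_le_one)

lemma u0_pos (η : ℝ) : 0 < u0 η := by
  unfold u0
  rw [Real.arccos_pos]
  exact lt_of_le_of_lt (cz_le η) one_pos

lemma u0_lt (η : ℝ) : u0 η < π := by
  refine lt_of_le_of_ne (Real.arccos_le_pi _) ?_
  intro h
  have h1 := cos_u0 η
  rw [h, Real.cos_pi] at h1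
  have := cz_gt η
  linarith

lemma cosh_half (η : ℝ) : Real.cosh η = 2 * Real.cosh (η / 2) ^ 2 - 1 := by
  have h1 := Real.cosh_two_mul (η / 2)
  have h2 := Real.cosh_sq (η / 2)
  rw [show 2 * (η / 2) = η by ring] at h1
  linarith

lemma cos_half_pos (η : ℝ) : 0 < Real.cos (u0 η / 2) := by
  apply Real.cos_pos_of_mem_Ioo
  have := u0_pos η
  have := u0_lt η
  constructor <;> linarith

lemma sin_half_pos (η : ℝ) : 0 < Real.sin (u0 η / 2) := by
  apply Real.sin_pos_of_pos_of_lt_pi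
  · have := u0_pos η
    linarith
  · have := u0_lt η
    have := Real.pi_pos
    linarith

lemma sin_u0_pos (η : ℝ) : 0 < Real.sin (u0 η) :=
  Real.sin_pos_of_pos_of_lt_pi (u0_pos η) (u0_lt η)

/-- `tan (π δ₀) = cosh (η / 2)` -/
lemma sin_half (η : ℝ) : Real.sin (u0 η / 2) = Real.cosh (η / 2) * Real.cos (u0 η / 2) := by
  have h1 : Real.cos (u0 η) = 2 * Real.cos (u0 η / 2) ^ 2 - 1 := by
    rw [← Real.cos_two_mul]
    congr 1
    ring
  have h2 := Real.sin_sq_add_cos_sq (u0 η / 2)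
  rw [cos_u0] at h1
  have h3 := cosh_half η
  have h4 := Real.one_le_cosh (η / 2)
  have h5 : cz η * (3 + Real.cosh η) = 1 - Real.cosh η := by
    unfold cz
    have := Real.one_le_cosh η
    rw [div_mul_cancel₀]
    linarith
  have h6 : Real.cos (u0 η / 2) ^ 2 * (1 + Real.cosh (η / 2) ^ 2) = 1 := by
    rw [h3] at h5
    nlinarith
  have h7 : Real.sin (u0 η / 2) ^ 2 = (Real.cosh (η / 2) * Real.cos (u0 η / 2)) ^ 2 := by
    nlinarith
  have h8 := cos_half_pos η
  have h9 := sin_half_pos η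
  exact (pow_left_inj₀ h9.le (by positivity) two_ne_zero).1 h7

/-! ### Choice of the radius -/

lemma cosI (v y : ℝ) : Complex.cos (((v : ℂ) + y * Complex.I) / 2) =
    ((Real.cos (v / 2) * Real.cosh (y / 2) : ℝ) : ℂ) -
      ((Real.sin (v / 2) * Real.sinh (y / 2) : ℝ) : ℂ) * Complex.I := by
  have : ((v : ℂ) + y * Complex.I) / 2 = ((v / 2 : ℝ) : ℂ) + ((y / 2 : ℝ) : ℂ) * Complex.I := by
    push_cast
    ring
  rw [this, Complex.cos_add_mul_I]
  push_cast
  ring

lemma cosI' (v y : ℝ) : Complex.cos (((v : ℂ) - y * Complex.I) / 2) =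
    ((Real.cos (v / 2) * Real.cosh (y / 2) : ℝ) : ℂ) +
      ((Real.sin (v / 2) * Real.sinh (y / 2) : ℝ) : ℂ) * Complex.I := by
  have h := cosI v (-y)
  have e : ((v : ℂ) + ((-y : ℝ) : ℂ) * Complex.I) / 2 = ((v : ℂ) - y * Complex.I) / 2 := by
    push_cast
    ring
  rw [e] at h
  rw [h, neg_div, Real.cosh_neg, Real.sinh_neg]
  push_cast
  ring

lemma slit_ratio {a b : ℝ} (ha : 0 < a) :
    ((a : ℂ) + b * Complex.I) / ((a : ℂ) - b * Complex.I) ∈ Complex.slitPlane := by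
  have hn : (0 : ℝ) < a ^ 2 + b ^ 2 := by positivity
  have hne : (a : ℂ) - b * Complex.I ≠ 0 := by
    intro h
    have := congrArg Complex.re h
    simp at this
    linarith
  have e : ((a : ℂ) + b * Complex.I) / ((a : ℂ) - b * Complex.I) =
      (((a ^ 2 - b ^ 2) / (a ^ 2 + b ^ 2) : ℝ) : ℂ) +
        ((2 * a * b / (a ^ 2 + b ^ 2) : ℝ) : ℂ) * Complex.I := by
    rw [div_eq_iff hne]
    have h1 : ((a ^ 2 + b ^ 2 : ℝ) : ℂ) ≠ 0 := by exact_mod_cast hn.ne'
    push_cast at h1 ⊢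
    field_simp
    ring_nf
    rw [Complex.I_sq]
    ring
  rw [e, Complex.mem_slitPlane_iff]
  simp only [Complex.add_re, Complex.ofReal_re, Complex.mul_re, Complex.I_re, mul_zero,
    Complex.ofReal_im, Complex.I_im, mul_one, sub_self, add_zero, Complex.add_im,
    Complex.mul_im, zero_add]
  by_cases hb : b = 0
  · left
    rw [hb]
    have : 0 < a ^ 2 := by positivity
    simp
    positivity
  · right
    have : 2 * a * b ≠ 0 := by positivity
    exact div_ne_zero this hn.ne'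

theorem exists_rho (δ₀ y : ℝ) (h0 : 0 < δ₀) (h1 : 2 * π * δ₀ < π) : ∃ ρ > 0,
    ∀ δ ∈ ball (δ₀ : ℂ) ρ, ∀ ψ ∈ ball (y * Complex.I : ℂ) ρ,
    ∀ t ∈ Icc (0 : ℝ) 1, G (δ, ψ) t ∈ Complex.slitPlane ∧ QQ (δ, ψ) t ∈ Complex.slitPlane ∧
      kk δ t ∈ Complex.slitPlane := by
  have key : ∀ᶠ p : ℂ × ℂ in 𝓝 ((δ₀ : ℂ), (y * Complex.I : ℂ)), ∀ t ∈ Icc (0 : ℝ) 1,
      G p t ∈ Complex.slitPlane ∧ QQ p t ∈ Complex.slitPlane ∧ kk p.1 t ∈ Complex.slitPlane := by
    apply isCompact_Icc.eventually_forall_of_forall_eventually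
    intro t ht
    have hpi := Real.pi_pos
    have ht0 := ht.1
    have ht1 := ht.2
    set v : ℝ := 2 * π * δ₀ * t with hv
    have hu : 0 < 2 * π * δ₀ := by positivity
    have hv0 : 0 ≤ v := by positivity
    have hv1 : v < π := by nlinarith
    have hc2 : 0 < Real.cos (v / 2) := by
      apply Real.cos_pos_of_mem_Ioo
      constructor <;> linarith
    have hcv : -1 < Real.cos v := by
      have : Real.cos v = 2 * Real.cos (v / 2) ^ 2 - 1 := by
        rw [← Real.cos_two_mul]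
        congr 1
        ring
      nlinarith
    have hch := Real.one_le_cosh y
    have hch2 := Real.one_le_cosh (y / 2)
    have ev : 2 * (π : ℂ) * (δ₀ : ℂ) * t = (v : ℂ) := by
      rw [hv]
      push_cast
      ring
    have g1 : G ((δ₀ : ℂ), (y * Complex.I : ℂ)) t =
        ((2 * Real.cosh y + 2 * Real.cos v : ℝ) : ℂ) := by
      unfold G
      simp only
      rw [ev, Complex.cos_mul_I]
      push_cast
      ring
    set a : ℝ := Real.cos (v / 2) * Real.cosh (y / 2) with ha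
    set b : ℝ := Real.sin (v / 2) * Real.sinh (y / 2) with hb
    have ha0 : 0 < a := by positivity
    have c1 : Complex.cos ((2 * π * (δ₀ : ℂ) * t + y * Complex.I) / 2) = (a : ℂ) - b * Complex.I := by
      rw [ev, cosI]
    have c2 : Complex.cos ((2 * π * (δ₀ : ℂ) * t - y * Complex.I) / 2) = (a : ℂ) + b * Complex.I := by
      rw [ev, cosI']
    have hne : (a : ℂ) - b * Complex.I ≠ 0 := by
      intro h
      have := congrArg Complex.re h
      simp at this
      linarith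
    refine Filter.Eventually.and ?_ (Filter.Eventually.and ?_ ?_)
    · have hc : ContinuousAt (fun q : (ℂ × ℂ) × ℝ => G q.1 q.2)
          (((δ₀ : ℂ), (y * Complex.I : ℂ)), t) := cont_G.continuousAt
      apply hc.eventually_mem
      apply Complex.isOpen_slitPlane.mem_nhds
      simp only
      rw [g1, Complex.ofReal_mem_slitPlane]
      linarith
    · have hc : ContinuousAt (fun q : (ℂ × ℂ) × ℝ => QQ q.1 q.2)
          (((δ₀ : ℂ), (y * Complex.I : ℂ)), t) := by
        unfold QQ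
        apply ContinuousAt.div
        · fun_prop
        · fun_prop
        · simp only
          rw [c1]
          exact hne
      apply hc.eventually_mem
      apply Complex.isOpen_slitPlane.mem_nhds
      simp only [QQ]
      rw [c1, c2]
      exact slit_ratio ha0
    · have hc : ContinuousAt (fun q : (ℂ × ℂ) × ℝ => kk q.1.1 q.2)
          (((δ₀ : ℂ), (y * Complex.I : ℂ)), t) :=
        (cont_kk.comp (f := fun q : (ℂ × ℂ) × ℝ => (q.1.1, q.2)) (by fun_prop)).continuousAt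
      apply hc.eventually_mem
      apply Complex.isOpen_slitPlane.mem_nhds
      simp only
      rcases ht0.eq_or_lt with h0' | h0'
      · have : kk (δ₀ : ℂ) t = ((2 * π * δ₀ : ℝ) : ℂ) := by
          rw [← h0']
          unfold kk
          push_cast
          rw [mul_zero, sc_zero]
          ring
        rw [this, Complex.ofReal_mem_slitPlane]
        exact hu
      · have hs : 0 < Real.sin (v / 2) := by
          apply Real.sin_pos_of_pos_of_lt_pi
          · have : 0 < v := by positivity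
            linarith
          · linarith
        have : kk (δ₀ : ℂ) t = ((2 * Real.sin (v / 2) / t : ℝ) : ℂ) := by
          have h1 := sin_kk (δ₀ : ℂ) t
          have h2 : (t : ℂ) ≠ 0 := by exact_mod_cast h0'.ne'
          push_cast
          rw [eq_div_iff h2, mul_comm, ← h1]
          congr 2
          rw [← ev]
          ring
        rw [this, Complex.ofReal_mem_slitPlane]
        positivity
  obtain ⟨ρ, hρ, hsub⟩ := Metric.mem_nhds_iff.1 key
  refine ⟨ρ, hρ, fun δ hδ ψ hψ t ht => ?_⟩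
  have hmem : ((δ, ψ) : ℂ × ℂ) ∈ ball ((δ₀ : ℂ), (y * Complex.I : ℂ)) ρ := by
    rw [← ball_prod_same]
    exact ⟨hδ, hψ⟩
  exact hsub hmem t ht

/-- the derivatives near one point -/
theorem derivs (δ₀ y : ℝ) (h0 : 0 < δ₀) (h1 : 2 * π * δ₀ < π) : ∃ ρ : ℝ, 0 < ρ ∧
    DifferentiableOn ℂ (fun p : ℂ × ℂ => rrF p.1 p.2)
      (ball (δ₀ : ℂ) ρ ×ˢ ball (y * Complex.I) ρ) ∧
    DifferentiableOn ℂ ssF (ball (δ₀ : ℂ) ρ) ∧
    (∀ δ ∈ ball (δ₀ : ℂ) ρ, ∀ ψ ∈ ball (y * Complex.I : ℂ) ρ,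
      HasDerivAt (fun z => rrF z ψ)
        (Complex.log (2 * Complex.cos ψ + 2 * Complex.cos (2 * π * δ))) δ ∧
      HasDerivAt (fun z => rrF δ z) (-(1 / (2 * π)) * Lg (2 * π * δ) ψ) ψ) ∧
    (∀ δ ∈ ball (δ₀ : ℂ) ρ, HasDerivAt ssF (Complex.log (2 * Complex.sin (π * δ))) δ) := by
  obtain ⟨ρ, hρ, hall⟩ := exists_rho δ₀ y h0 h1
  set B : Set ℂ := ball (y * Complex.I : ℂ) ρ with hB
  have hU : IsOpen (ball (δ₀ : ℂ) ρ ×ˢ B) := isOpen_ball.prod isOpen_ball
  have hG : ∀ p ∈ ball (δ₀ : ℂ) ρ ×ˢ B, ∀ t ∈ Icc (0 : ℝ) 1,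
      G p t ∈ Complex.slitPlane := fun p hp t ht => (hall p.1 hp.1 p.2 hp.2 t ht).1
  have hQ : ∀ p ∈ ball (δ₀ : ℂ) ρ ×ˢ B, ∀ t ∈ Icc (0 : ℝ) 1,
      QQ p t ∈ Complex.slitPlane := fun p hp t ht => (hall p.1 hp.1 p.2 hp.2 t ht).2.1
  have hk : ∀ δ ∈ ball (δ₀ : ℂ) ρ, ∀ t ∈ Icc (0 : ℝ) 1, kk δ t ∈ Complex.slitPlane :=
    fun δ hδ t ht => (hall δ hδ _ (mem_ball_self hρ) t ht).2.2
  refine ⟨ρ, hρ, ?_, ?_, ?_, ?_⟩
  · intro p hp
    exact (rr_deriv hU hG p hp).differentiableAt.differentiableWithinAt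
  · intro δ hδ
    exact (ss_deriv isOpen_ball hk δ hδ).differentiableAt.differentiableWithinAt
  · intro δ hδ ψ hψ
    have hp : ((δ, ψ) : ℂ × ℂ) ∈ ball (δ₀ : ℂ) ρ ×ˢ B := ⟨hδ, hψ⟩
    have hd := rr_deriv hU hG (δ, ψ) hp
    refine ⟨?_, ?_⟩
    · have h1 : HasDerivAt (fun z : ℂ => (z, ψ)) ((1 : ℂ), (0 : ℂ)) δ :=
        (hasDerivAt_id δ).prodMk (hasDerivAt_const δ ψ)
      have h2 := hd.comp_hasDerivAt δ h1
      refine h2.congr_deriv ?_
      have h3 := id1 hG (δ, ψ) hp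
      have e : Complex.log (G (δ, ψ) 1) =
          Complex.log (2 * Complex.cos ψ + 2 * Complex.cos (2 * π * δ)) := by
        unfold G
        push_cast
        rw [mul_one]
      rw [← e, ← h3]
      simp only [add_apply, smul_apply, smul_eq_mul]
      rw [LL_apply hG (δ, ψ) hp]
      simp [LL]
      ring
    · have h1 : HasDerivAt (fun z : ℂ => (δ, z)) ((0 : ℂ), (1 : ℂ)) ψ :=
        (hasDerivAt_const ψ δ).prodMk (hasDerivAt_id ψ)
      have h2 := hd.comp_hasDerivAt ψ h1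
      refine h2.congr_deriv ?_
      have h3 := id2 hG hQ (δ, ψ) hp
      simp only at h3
      rw [← h3]
      simp only [add_apply, smul_apply, smul_eq_mul]
      rw [LL_apply hG (δ, ψ) hp]
      simp [LL]
  · intro δ hδ
    exact ss_deriv isOpen_ball hk δ hδ

/-! ### The value of `Lg` and the critical equation at the base point -/

lemma Lg_base (η : ℝ) : Lg (u0 η : ℂ) (η * Complex.I) =
    2 * (Real.arctan (Real.sinh (η / 2)) : ℂ) * Complex.I := by
  set s : ℝ := Real.sinh (η / 2) with hs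
  set θ : ℝ := Real.arctan s with hθ
  have hc := cos_half_pos η
  have hT := Real.one_le_cosh (η / 2)
  unfold Lg
  rw [cosI, cosI', sin_half]
  set k : ℝ := Real.cos (u0 η / 2) * Real.cosh (η / 2) with hk
  have hk0 : 0 < k := by positivity
  have e1 : Real.cosh (η / 2) * Real.cos (u0 η / 2) * s = k * s := by rw [hk]; ring
  rw [e1]
  have hcθ : 0 < Real.cos θ := Real.cos_arctan_pos s
  have e2 : s = Real.sin θ / Real.cos θ := by
    rw [← Real.tan_eq_sin_div_cos, hθ, Real.tan_arctan]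
  have e3 : ((k : ℂ) + ((k * s : ℝ) : ℂ) * Complex.I) / ((k : ℂ) - ((k * s : ℝ) : ℂ) * Complex.I) =
      Complex.exp (2 * (θ : ℂ) * Complex.I) := by
    have hkC : (k : ℂ) ≠ 0 := by exact_mod_cast hk0.ne'
    have hcC : (Real.cos θ : ℂ) ≠ 0 := by exact_mod_cast hcθ.ne'
    have h1 : (k : ℂ) + ((k * s : ℝ) : ℂ) * Complex.I =
        (k / Real.cos θ) * Complex.exp ((θ : ℂ) * Complex.I) := by
      rw [Complex.exp_mul_I, ← Complex.ofReal_cos, ← Complex.ofReal_sin, e2]
      push_cast at hcC ⊢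
      field_simp
    have h2 : (k : ℂ) - ((k * s : ℝ) : ℂ) * Complex.I =
        (k / Real.cos θ) * Complex.exp (-(θ : ℂ) * Complex.I) := by
      rw [Complex.exp_mul_I, Complex.cos_neg, Complex.sin_neg, ← Complex.ofReal_cos,
        ← Complex.ofReal_sin, e2]
      push_cast at hcC ⊢
      field_simp
      ring
    rw [h1, h2, mul_div_mul_left _ _ (div_ne_zero hkC hcC), ← Complex.exp_sub]
    congr 1
    ring
  rw [e3]
  have b1 := Real.neg_pi_div_two_lt_arctan s
  have b2 := Real.arctan_lt_pi_div_two s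
  rw [Complex.log_exp]
  · simp
    linarith
  · simp
    linarith

lemma crit_base (η : ℝ) :
    Complex.log (2 * Complex.cos 0 + 2 * Complex.cos (2 * π * (dd η : ℂ))) +
      Complex.log (2 * Complex.cos (η * Complex.I) + 2 * Complex.cos (2 * π * (dd η : ℂ))) =
      4 * Complex.log (2 * Complex.sin (π * (dd η : ℂ))) := by
  have hc := cos_half_pos η
  have hs := sin_half_pos η
  have hch := Real.one_le_cosh η
  have hcz := cz_gt η
  have e0 : Complex.cos (2 * π * (dd η : ℂ)) = ((cz η : ℝ) : ℂ) := by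
    rw [dd_eqC, ← Complex.ofReal_cos, cos_u0]
  have e1 : (π : ℂ) * (dd η : ℂ) = ((u0 η / 2 : ℝ) : ℂ) := by
    push_cast
    rw [← dd_eqC]
    ring
  have e2 : Complex.cos (η * Complex.I) = ((Real.cosh η : ℝ) : ℂ) := by
    rw [Complex.cos_mul_I, Complex.ofReal_cosh]
  rw [e0, e1, e2, Complex.cos_zero, ← Complex.ofReal_sin]
  have p1 : (2 * 1 + 2 * ((cz η : ℝ) : ℂ) : ℂ) = ((2 + 2 * cz η : ℝ) : ℂ) := by push_cast; ring
  have p2 : (2 * ((Real.cosh η : ℝ) : ℂ) + 2 * ((cz η : ℝ) : ℂ) : ℂ) =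
    ((2 * Real.cosh η + 2 * cz η : ℝ) : ℂ) := by push_cast; ring
  have p3 : (2 * ((Real.sin (u0 η / 2) : ℝ) : ℂ) : ℂ) = ((2 * Real.sin (u0 η / 2) : ℝ) : ℂ) := by
    push_cast; ring
  rw [p1, p2, p3, ← Complex.ofReal_log (by linarith), ← Complex.ofReal_log (by linarith),
    ← Complex.ofReal_log (by positivity)]
  rw [← Complex.ofReal_add, ← Real.log_mul (by linarith) (by linarith)]
  have p4 : (4 : ℂ) * ((Real.log (2 * Real.sin (u0 η / 2)) : ℝ) : ℂ) =
      ((Real.log ((2 * Real.sin (u0 η / 2)) ^ 4) : ℝ) : ℂ) := by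
    rw [Real.log_pow]
    push_cast
    ring
  rw [p4]
  congr 2
  have h1 : Real.cos (u0 η) = 1 - 2 * Real.sin (u0 η / 2) ^ 2 := by
    have := Real.cos_two_mul (u0 η / 2)
    have h2 := Real.sin_sq_add_cos_sq (u0 η / 2)
    rw [show 2 * (u0 η / 2) = u0 η by ring] at this
    linarith
  rw [cos_u0] at h1
  have h2 : Real.sin (u0 η / 2) ^ 2 = (1 - cz η) / 2 := by linarith
  have h3 : (2 * Real.sin (u0 η / 2)) ^ 4 = 16 * (Real.sin (u0 η / 2) ^ 2) ^ 2 := by ring
  rw [h3, h2]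
  unfold cz
  have h4 : 3 + Real.cosh η ≠ 0 := by linarith
  field_simp
  ring

/-! ### The critical value -/

lemma dd_zero : dd 0 = 1 / 4 := by
  unfold dd cz
  rw [Real.cosh_zero]
  norm_num
  field_simp
  norm_num

lemma dd_pos (η : ℝ) : 0 < dd η := by
  have := u0_pos η
  unfold dd
  unfold u0 at this
  positivity

lemma dd_lt (η : ℝ) : 2 * π * dd η < π := by
  rw [dd_eq]
  exact u0_lt η

lemma dd_diff (η : ℝ) : DifferentiableAt ℝ dd η := by
  unfold dd
  have h1 : DifferentiableAt ℝ cz η := by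
    unfold cz
    have := Real.one_le_cosh η
    apply DifferentiableAt.div
    · exact (Real.differentiable_cosh η).const_sub 1
    · exact (Real.differentiable_cosh η).const_add 3
    · linarith
  have h2 : DifferentiableAt ℝ Real.arccos (cz η) := by
    apply Real.differentiableAt_arccos.2
    have := cz_gt η
    have := cz_le η
    constructor <;> linarith
  exact (h2.comp η h1).div_const _

/-- the critical value -/
noncomputable def PH (η : ℝ) : ℂ :=
  rrF (dd η) 0 + rrF (dd η) (η * Complex.I) - 4 * ssF (dd η)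

lemma curve {A B : ℂ} {d' : ℝ} {c : ℝ} {y : ℂ} {η : ℝ} (f : ℝ → ℂ)
    (hdiff : DifferentiableAt ℂ (fun p : ℂ × ℂ => rrF p.1 p.2) ((dd η : ℂ), y))
    (hA : HasDerivAt (fun z => rrF z y) A (dd η : ℂ))
    (hB : HasDerivAt (fun z => rrF (dd η) z) B y)
    (hd : HasDerivAt dd d' η) (hf : HasDerivAt f (c * Complex.I) η) (hfη : f η = y) :
    HasDerivAt (fun x : ℝ => rrF (dd x) (f x)) (d' * A + c * Complex.I * B) η := by
  subst hfη
  set L := fderiv ℂ (fun p : ℂ × ℂ => rrF p.1 p.2) ((dd η : ℂ), f η) with hL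
  have hF : HasFDerivAt (fun p : ℂ × ℂ => rrF p.1 p.2) L ((dd η : ℂ), f η) := hdiff.hasFDerivAt
  have h1 : HasDerivAt (fun z => rrF z (f η)) (L (1, 0)) (dd η : ℂ) := by
    have k : HasDerivAt (fun z : ℂ => ((z, f η) : ℂ × ℂ)) (1, 0) (dd η : ℂ) :=
      (hasDerivAt_id _).prodMk (hasDerivAt_const _ _)
    exact HasFDerivAt.comp_hasDerivAt (x := (dd η : ℂ)) (f := fun z : ℂ => ((z, f η) : ℂ × ℂ))
      (l := fun p : ℂ × ℂ => rrF p.1 p.2) hF k
  have h2 : HasDerivAt (fun z => rrF (dd η) z) (L (0, 1)) (f η) := by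
    have k : HasDerivAt (fun z : ℂ => (((dd η : ℂ), z) : ℂ × ℂ)) (0, 1) (f η) :=
      (hasDerivAt_const _ _).prodMk (hasDerivAt_id _)
    exact HasFDerivAt.comp_hasDerivAt (x := f η) (f := fun z : ℂ => (((dd η : ℂ), z) : ℂ × ℂ))
      (l := fun p : ℂ × ℂ => rrF p.1 p.2) hF k
  have e1 : L (1, 0) = A := h1.unique hA
  have e2 : L (0, 1) = B := h2.unique hB
  have hFr : HasFDerivAt (fun p : ℂ × ℂ => rrF p.1 p.2) (L.restrictScalars ℝ)
      ((dd η : ℂ), f η) := hF.restrictScalars ℝ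
  have hg : HasDerivAt (fun x : ℝ => (((dd x : ℝ) : ℂ), f x)) (((d' : ℝ) : ℂ), c * Complex.I) η :=
    hd.ofReal_comp.prodMk hf
  have h3 := HasFDerivAt.comp_hasDerivAt (x := η) (f := fun x : ℝ => (((dd x : ℝ) : ℂ), f x))
      (l := fun p : ℂ × ℂ => rrF p.1 p.2) hFr hg
  have e3 : (L.restrictScalars ℝ) (((d' : ℝ) : ℂ), c * Complex.I) = d' * A + c * Complex.I * B := by
    have : (((d' : ℝ) : ℂ), (c * Complex.I : ℂ)) = (d' : ℂ) • ((1, 0) : ℂ × ℂ) +
        (c * Complex.I) • ((0, 1) : ℂ × ℂ) := by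
      simp
    rw [ContinuousLinearMap.coe_restrictScalars', this, map_add, map_smul, map_smul, e1, e2,
      smul_eq_mul, smul_eq_mul]
  rw [e3] at h3
  exact h3

lemma PH_deriv (η : ℝ) : HasDerivAt PH ((Real.arctan (Real.sinh (η / 2)) / π : ℝ) : ℂ) η := by
  obtain ⟨d', hd⟩ : ∃ d' : ℝ, HasDerivAt dd d' η := ⟨_, (dd_diff η).hasDerivAt⟩
  obtain ⟨ρ, hρ, hR, hS, hD, hD'⟩ := derivs (dd η) 0 (dd_pos η) (dd_lt η)
  obtain ⟨ρ2, hρ2, hR2, -, hD2, -⟩ := derivs (dd η) η (dd_pos η) (dd_lt η)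
  simp only [Complex.ofReal_zero, zero_mul] at hR hD
  have m1 : (dd η : ℂ) ∈ ball (dd η : ℂ) ρ := mem_ball_self hρ
  have m2 : (0 : ℂ) ∈ ball (0 : ℂ) ρ := mem_ball_self hρ
  have m3 : (dd η : ℂ) ∈ ball (dd η : ℂ) ρ2 := mem_ball_self hρ2
  have m4 : (η * Complex.I : ℂ) ∈ ball (η * Complex.I : ℂ) ρ2 := mem_ball_self hρ2
  obtain ⟨a1, a2⟩ := hD _ m1 _ m2
  obtain ⟨b1, b2⟩ := hD2 _ m3 _ m4
  have c1 := hD' _ m1
  have k1 := curve (A := Complex.log (2 * Complex.cos 0 + 2 * Complex.cos (2 * π * (dd η : ℂ))))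
    (B := -(1 / (2 * π)) * Lg (2 * π * (dd η : ℂ)) 0) (c := 0) (y := 0) (fun _ => 0)
    ((hR _ ⟨m1, m2⟩).differentiableAt ((isOpen_ball.prod isOpen_ball).mem_nhds ⟨m1, m2⟩))
    a1 a2 hd (by simpa using hasDerivAt_const η (0 : ℂ)) rfl
  have hf : HasDerivAt (fun x : ℝ => (x : ℂ) * Complex.I) (((1 : ℝ) : ℂ) * Complex.I) η :=
    (Complex.ofRealCLM.hasDerivAt (x := η)).mul_const Complex.I
  have k2 := curve (fun x : ℝ => (x : ℂ) * Complex.I)
    ((hR2 _ ⟨m3, m4⟩).differentiableAt ((isOpen_ball.prod isOpen_ball).mem_nhds ⟨m3, m4⟩))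
    b1 b2 hd hf rfl
  have k3 : HasDerivAt (fun x : ℝ => ssF (dd x))
      ((d' : ℂ) * Complex.log (2 * Complex.sin (π * (dd η : ℂ)))) η := by
    have := c1.comp_of_eq η hd.ofReal_comp rfl
    refine this.congr_deriv ?_
    ring
  have k4 := (k1.add k2).sub (k3.const_mul 4)
  refine HasDerivAt.congr_deriv k4 ?_
  have h1 := crit_base η
  have h2 := Lg_base η
  rw [← dd_eqC] at h2
  rw [h2]
  have hpi : (π : ℂ) ≠ 0 := by exact_mod_cast Real.pi_ne_zero
  push_cast
  have e : (1 : ℂ) * Complex.I * (-(1 / (2 * π)) * (2 * (Complex.arctan (Complex.sinh (η / 2))) * Complex.I)) =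
      Complex.arctan (Complex.sinh (η / 2)) / π := by
    have hI := Complex.I_sq
    field_simp
    linear_combination (-Complex.arctan (Complex.sinh (η / 2))) * hI
  linear_combination d' * h1 + e

lemma AA_deriv (η : ℝ) : HasDerivAt (fun η : ℝ => 2 * bet +
    2 / π * ∫ t in (0:ℝ)..(η / 2), Real.arctan (Real.sinh t))
    (Real.arctan (Real.sinh (η / 2)) / π) η := by
  have hc : Continuous (fun t : ℝ => Real.arctan (Real.sinh t)) :=
    Real.continuous_arctan.comp Real.continuous_sinh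
  have h1 : HasDerivAt (fun x : ℝ => ∫ t in (0:ℝ)..x, Real.arctan (Real.sinh t))
      (Real.arctan (Real.sinh (η / 2))) (η / 2) :=
    intervalIntegral.integral_hasDerivAt_right (hc.intervalIntegrable _ _)
      (hc.stronglyMeasurableAtFilter _ _) hc.continuousAt
  have h2 : HasDerivAt (fun η : ℝ => η / 2) (1 / 2) η := (hasDerivAt_id η).div_const 2
  have h3 := ((h1.comp η h2).const_mul (2 / π)).const_add (2 * bet)
  refine h3.congr_deriv ?_
  have := Real.pi_pos
  field_simp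

theorem PH_eq (η : ℝ) : PH η = ((2 * bet +
    2 / π * ∫ t in (0:ℝ)..(η / 2), Real.arctan (Real.sinh t) : ℝ) : ℂ) := by
  set AAf : ℝ → ℝ := fun η => 2 * bet +
    2 / π * ∫ t in (0:ℝ)..(η / 2), Real.arctan (Real.sinh t) with hAA
  have h1 : ∀ x : ℝ, HasDerivAt (fun x => PH x - ((AAf x : ℝ) : ℂ)) 0 x := by
    intro x
    have := (PH_deriv x).sub (AA_deriv x).ofReal_comp
    rw [sub_self] at this
    exact this
  have h2 := is_const_of_deriv_eq_zero (fun x => (h1 x).differentiableAt)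
    (fun x => (h1 x).deriv) η 0
  have h3 : PH 0 = ((AAf 0 : ℝ) : ℂ) := by
    have hv := val
    unfold PH
    rw [dd_zero, hAA]
    simp only [zero_div, intervalIntegral.integral_same, mul_zero, add_zero]
    rw [← hv]
    push_cast
    rw [zero_mul]
    ring
  rw [h3, sub_self, sub_eq_zero] at h2
  exact h2

end Pool.Agent.TH822.Z
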