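import Pool.Agent.TH822.Z1

/-!
# Job Z-SD, part 2: the critical value of the sum over `d` near `(0, i η)`
-/

set_option autoImplicit false

namespace Pool.Agent.TH822.Z

open Filter Topology Metric Set
open scoped Real
open Pool.Agent.W711.HT (rrF ssF Lg bet Rc)
open Pool.Agent.W177.HT (asn sin_asn WW WW_neg aa dl ss ss_neg dl_neg rrF_comp ss_diff
  eq_zero_of_exp cos_fst_an cos_snd_an pi_ne two_pi_dl)

/-- the base point -/
noncomputable def p0 (η : ℝ) : ℂ × ℂ := (0, η * Complex.I)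

lemma p0_fst (η : ℝ) : (p0 η).1 = 0 := rfl
lemma p0_snd (η : ℝ) : (p0 η).2 = η * Complex.I := rfl

lemma cos_eI (η : ℝ) : Complex.cos (η * Complex.I) = ((Real.cosh η : ℝ) : ℂ) := by
  rw [Complex.cos_mul_I, Complex.ofReal_cosh]

lemma WW_base (η : ℝ) : WW (p0 η) = ((cz η : ℝ) : ℂ) := by
  unfold WW p0 cz
  simp only
  rw [cos_eI, Complex.cos_zero]
  push_cast
  ring

lemma WW_an' (η : ℝ) : AnalyticAt ℂ WW (p0 η) := by
  unfold WW
  apply AnalyticAt.div
  · exact analyticAt_const.sub ((cos_fst_an _).mul (cos_snd_an _))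
  · exact (analyticAt_const.add (cos_fst_an _)).add (cos_snd_an _)
  · rw [p0_fst, p0_snd, cos_eI, Complex.cos_zero]
    have := Real.one_le_cosh η
    have h : (2 + 1 + ((Real.cosh η : ℝ) : ℂ) : ℂ) = ((3 + Real.cosh η : ℝ) : ℂ) := by
      push_cast; ring
    rw [h]
    exact_mod_cast (by linarith : (3 + Real.cosh η : ℝ) ≠ 0)

/-! ### The inverse sine on the real axis -/

lemma sqrt_part {c : ℝ} (h1 : -1 < c) (h2 : c < 1) :
    Complex.exp (Complex.log (1 - (c : ℂ) ^ 2) / 2) = ((Real.cos (Real.arcsin c) : ℝ) : ℂ) := by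
  have hpos : 0 < Real.cos (Real.arcsin c) := by
    rw [Real.cos_arcsin]
    apply Real.sqrt_pos.2
    nlinarith
  have e1 : (1 - (c : ℂ) ^ 2) = ((Real.cos (Real.arcsin c) ^ 2 : ℝ) : ℂ) := by
    have := Real.sin_sq_add_cos_sq (Real.arcsin c)
    rw [Real.sin_arcsin h1.le h2.le] at this
    have : Real.cos (Real.arcsin c) ^ 2 = 1 - c ^ 2 := by linarith
    rw [this]
    push_cast
    ring
  rw [e1, ← Complex.ofReal_log (by positivity), Real.log_pow]
  have e2 : (((2 : ℕ) * Real.log (Real.cos (Real.arcsin c)) : ℝ) : ℂ) / 2 =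
      ((Real.log (Real.cos (Real.arcsin c)) : ℝ) : ℂ) := by
    push_cast
    ring
  rw [e2, ← Complex.ofReal_exp, Real.exp_log hpos]

lemma cos_arcsin_pos {c : ℝ} (h1 : -1 < c) (h2 : c < 1) : 0 < Real.cos (Real.arcsin c) := by
  rw [Real.cos_arcsin]
  apply Real.sqrt_pos.2
  nlinarith

lemma asn_real {c : ℝ} (h1 : -1 < c) (h2 : c < 1) : asn (c : ℂ) = ((Real.arcsin c : ℝ) : ℂ) := by
  unfold asn
  rw [sqrt_part h1 h2]
  have e1 : Complex.I * (c : ℂ) + ((Real.cos (Real.arcsin c) : ℝ) : ℂ) =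
      Complex.exp (((Real.arcsin c : ℝ) : ℂ) * Complex.I) := by
    rw [Complex.exp_mul_I, ← Complex.ofReal_cos, ← Complex.ofReal_sin,
      Real.sin_arcsin h1.le h2.le]
    ring
  have b1 := Real.neg_pi_div_two_le_arcsin c
  have b2 := Real.arcsin_le_pi_div_two c
  have hpi := Real.pi_pos
  rw [e1, Complex.log_exp]
  · have := Complex.I_sq
    linear_combination (-((Real.arcsin c : ℝ) : ℂ)) * this
  · simp
    linarith
  · simp
    linarith

lemma asn_an' {c : ℝ} (h1 : -1 < c) (h2 : c < 1) : AnalyticAt ℂ asn (c : ℂ) := by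
  unfold asn
  have hs : (1 - (c : ℂ) ^ 2) ∈ Complex.slitPlane := by
    have : (1 - (c : ℂ) ^ 2) = ((1 - c ^ 2 : ℝ) : ℂ) := by push_cast; ring
    rw [this, Complex.ofReal_mem_slitPlane]
    nlinarith
  have h3 : AnalyticAt ℂ (fun w : ℂ => Complex.log (1 - w ^ 2)) (c : ℂ) := by
    apply AnalyticAt.clog
    · fun_prop
    · exact hs
  have h4 : AnalyticAt ℂ (fun w : ℂ => Complex.I * w + Complex.exp (Complex.log (1 - w ^ 2) / 2))
      (c : ℂ) := by
    apply AnalyticAt.add (by fun_prop)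
    apply AnalyticAt.cexp'
    apply AnalyticAt.div h3 analyticAt_const (by norm_num)
  apply AnalyticAt.mul analyticAt_const
  apply AnalyticAt.clog h4
  rw [sqrt_part h1 h2]
  left
  simp
  exact cos_arcsin_pos h1 h2

lemma cz_lt_one (η : ℝ) : cz η < 1 := lt_of_le_of_lt (cz_le η) one_pos

lemma dl_an' (η : ℝ) : AnalyticAt ℂ (fun p : ℂ × ℂ => dl p.1 p.2) (p0 η) := by
  unfold dl
  apply analyticAt_const.sub
  apply AnalyticAt.div _ analyticAt_const
  · simp [Real.pi_ne_zero]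
  · unfold aa
    apply AnalyticAt.fun_comp (f := fun p : ℂ × ℂ => WW (p.1, p.2)) (g := asn) _ (WW_an' η)
    change AnalyticAt ℂ asn (WW (p0 η))
    rw [WW_base]
    exact asn_an' (cz_gt η) (cz_lt_one η)

lemma dl_base (η : ℝ) : dl 0 (η * Complex.I) = ((dd η : ℝ) : ℂ) := by
  unfold dl aa
  have : WW (0, η * Complex.I) = ((cz η : ℝ) : ℂ) := WW_base η
  rw [this, asn_real (cz_gt η) (cz_lt_one η)]
  unfold dd Real.arccos
  push_cast
  have := pi_ne
  field_simp
  ring

lemma dl_base' (η : ℝ) : dl (p0 η).1 (p0 η).2 = ((dd η : ℝ) : ℂ) := dl_base η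

lemma twopi_dl_base (η : ℝ) : 2 * (π : ℂ) * dl (p0 η).1 (p0 η).2 = ((u0 η : ℝ) : ℂ) := by
  rw [dl_base', dd_eqC]

/-! ### The critical point equation -/

lemma dcos_ev' (η : ℝ) : ∀ᶠ p : ℂ × ℂ in 𝓝 (p0 η), Complex.cos (2 * π * dl p.1 p.2) = WW p := by
  have h : ∀ᶠ p : ℂ × ℂ in 𝓝 (p0 η), 1 - WW p ^ 2 ≠ 0 := by
    have : ContinuousAt (fun p : ℂ × ℂ => 1 - WW p ^ 2) (p0 η) :=
      continuousAt_const.sub ((WW_an' η).continuousAt.pow 2)
    apply this.eventually_ne
    rw [WW_base]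
    have h1 := cz_gt η
    have h2 := cz_lt_one η
    have : (1 - ((cz η : ℝ) : ℂ) ^ 2) = ((1 - cz η ^ 2 : ℝ) : ℂ) := by push_cast; ring
    rw [this]
    have : (1 - cz η ^ 2 : ℝ) ≠ 0 := by nlinarith
    exact_mod_cast this
  filter_upwards [h] with p hp
  rw [two_pi_dl, Complex.cos_pi_div_two_sub, aa, sin_asn _ hp]

lemma sin_cont (η : ℝ) : ContinuousAt (fun p : ℂ × ℂ => Complex.sin (π * dl p.1 p.2)) (p0 η) := by
  have := (dl_an' η).continuousAt
  exact Complex.continuous_sin.continuousAt.comp' (continuousAt_const.mul this)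

lemma cos_cont (η : ℝ) :
    ContinuousAt (fun p : ℂ × ℂ => Complex.cos (2 * π * dl p.1 p.2)) (p0 η) := by
  have := (dl_an' η).continuousAt
  exact Complex.continuous_cos.continuousAt.comp' (continuousAt_const.mul this)

lemma cos_base (η : ℝ) : Complex.cos (2 * π * dl (p0 η).1 (p0 η).2) = ((cz η : ℝ) : ℂ) := by
  rw [twopi_dl_base, ← Complex.ofReal_cos, cos_u0]

lemma sin_base (η : ℝ) :
    Complex.sin (π * dl (p0 η).1 (p0 η).2) = ((Real.sin (u0 η / 2) : ℝ) : ℂ) := by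
  have e1 : (π : ℂ) * dl (p0 η).1 (p0 η).2 = ((u0 η / 2 : ℝ) : ℂ) := by
    push_cast
    rw [← twopi_dl_base]
    ring
  rw [e1, Complex.ofReal_sin]

lemma dcrit_ev' (η : ℝ) : ∀ᶠ p : ℂ × ℂ in 𝓝 (p0 η),
    Complex.log (2 * Complex.cos p.1 + 2 * Complex.cos (2 * π * dl p.1 p.2)) +
      Complex.log (2 * Complex.cos p.2 + 2 * Complex.cos (2 * π * dl p.1 p.2)) =
      4 * Complex.log (2 * Complex.sin (π * dl p.1 p.2)) := by
  have hch := Real.one_le_cosh η
  have hcz := cz_gt η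
  have hs := sin_half_pos η
  have c1 : ContinuousAt (fun p : ℂ × ℂ => 2 * Complex.cos p.1 +
      2 * Complex.cos (2 * π * dl p.1 p.2)) (p0 η) :=
    (by fun_prop : ContinuousAt (fun p : ℂ × ℂ => 2 * Complex.cos p.1) (p0 η)).add
      (continuousAt_const.mul (cos_cont η))
  have c2 : ContinuousAt (fun p : ℂ × ℂ => 2 * Complex.cos p.2 +
      2 * Complex.cos (2 * π * dl p.1 p.2)) (p0 η) :=
    (by fun_prop : ContinuousAt (fun p : ℂ × ℂ => 2 * Complex.cos p.2) (p0 η)).add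
      (continuousAt_const.mul (cos_cont η))
  have c3 : ContinuousAt (fun p : ℂ × ℂ => 2 * Complex.sin (π * dl p.1 p.2)) (p0 η) :=
    continuousAt_const.mul (sin_cont η)
  have v1 : 2 * Complex.cos (p0 η).1 + 2 * Complex.cos (2 * π * dl (p0 η).1 (p0 η).2) =
      ((2 + 2 * cz η : ℝ) : ℂ) := by
    rw [cos_base, p0_fst, Complex.cos_zero]
    push_cast
    ring
  have v2 : 2 * Complex.cos (p0 η).2 + 2 * Complex.cos (2 * π * dl (p0 η).1 (p0 η).2) =
      ((2 * Real.cosh η + 2 * cz η : ℝ) : ℂ) := by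
    rw [cos_base, p0_snd, cos_eI]
    push_cast
    ring
  have v3 : 2 * Complex.sin (π * dl (p0 η).1 (p0 η).2) = ((2 * Real.sin (u0 η / 2) : ℝ) : ℂ) := by
    rw [sin_base]
    push_cast
    ring
  have l1 : ContinuousAt (fun p : ℂ × ℂ => Complex.log (2 * Complex.cos p.1 +
      2 * Complex.cos (2 * π * dl p.1 p.2))) (p0 η) := by
    apply c1.clog
    rw [v1, Complex.ofReal_mem_slitPlane]
    linarith
  have l2 : ContinuousAt (fun p : ℂ × ℂ => Complex.log (2 * Complex.cos p.2 +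
      2 * Complex.cos (2 * π * dl p.1 p.2))) (p0 η) := by
    apply c2.clog
    rw [v2, Complex.ofReal_mem_slitPlane]
    linarith
  have l3 : ContinuousAt (fun p : ℂ × ℂ => Complex.log (2 * Complex.sin (π * dl p.1 p.2)))
      (p0 η) := by
    apply c3.clog
    rw [v3, Complex.ofReal_mem_slitPlane]
    linarith
  set f : ℂ × ℂ → ℂ := fun p => Complex.log (2 * Complex.cos p.1 +
      2 * Complex.cos (2 * π * dl p.1 p.2)) + Complex.log (2 * Complex.cos p.2 +
      2 * Complex.cos (2 * π * dl p.1 p.2)) - 4 * Complex.log (2 * Complex.sin (π * dl p.1 p.2))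
    with hf
  have lf : ContinuousAt f (p0 η) := (l1.add l2).sub (continuousAt_const.mul l3)
  have f0 : f (p0 η) = 0 := by
    have h := crit_base η
    simp only [hf]
    rw [dl_base', p0_fst, p0_snd, h, sub_self]
  have e1 : ∀ᶠ p in 𝓝 (p0 η), ‖f p‖ < 1 := by
    apply (lf.norm).eventually_lt_const
    change ‖f (p0 η)‖ < 1
    rw [f0]; simp
  have n1 := c1.eventually_ne (y := 0) (by
    rw [v1]; exact_mod_cast (by linarith : (2 + 2 * cz η : ℝ) ≠ 0))
  have n2 := c2.eventually_ne (y := 0) (by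
    rw [v2]; exact_mod_cast (by linarith : (2 * Real.cosh η + 2 * cz η : ℝ) ≠ 0))
  have n3 := c3.eventually_ne (y := 0) (by
    rw [v3]; exact_mod_cast (by linarith : (2 * Real.sin (u0 η / 2) : ℝ) ≠ 0))
  have n4 : ∀ᶠ p : ℂ × ℂ in 𝓝 (p0 η), 2 + Complex.cos p.1 + Complex.cos p.2 ≠ 0 := by
    have : ContinuousAt (fun p : ℂ × ℂ => 2 + Complex.cos p.1 + Complex.cos p.2) (p0 η) := by
      fun_prop
    apply this.eventually_ne
    rw [p0_fst, p0_snd, cos_eI, Complex.cos_zero]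
    have h : (2 + 1 + ((Real.cosh η : ℝ) : ℂ) : ℂ) = ((3 + Real.cosh η : ℝ) : ℂ) := by
      push_cast; ring
    rw [h]
    exact_mod_cast (by linarith : (3 + Real.cosh η : ℝ) ≠ 0)
  filter_upwards [e1, n1, n2, n3, n4, dcos_ev' η] with p hp n1 n2 n3 n4 hd
  have key : f p = 0 := by
    apply eq_zero_of_exp _ _ hp
    simp only [hf]
    rw [Complex.exp_sub, Complex.exp_add, Complex.exp_log n1, Complex.exp_log n2,
      show 4 * Complex.log (2 * Complex.sin (π * dl p.1 p.2)) =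
      ((4:ℕ):ℂ) * Complex.log (2 * Complex.sin (π * dl p.1 p.2)) by push_cast; ring,
      Complex.exp_nat_mul, Complex.exp_log n3]
    rw [div_eq_one_iff_eq (pow_ne_zero 4 n3)]
    have h1 : 2 * Complex.sin (π * dl p.1 p.2) ^ 2 = 1 - Complex.cos (2 * π * dl p.1 p.2) := by
      rw [show (2 * π * dl p.1 p.2 : ℂ) = 2 * (π * dl p.1 p.2) by ring, Complex.cos_two_mul,
        Complex.sin_sq]
      ring
    have h2 : (2 * Complex.sin (π * dl p.1 p.2)) ^ 4 =
        4 * (1 - Complex.cos (2 * π * dl p.1 p.2)) ^ 2 := by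
      rw [← h1]; ring
    rw [h2, hd]
    have h3 : WW p * (2 + Complex.cos p.1 + Complex.cos p.2) =
        1 - Complex.cos p.1 * Complex.cos p.2 := by
      rw [WW, div_mul_cancel₀ _ n4]
    linear_combination 4 * h3
  have := key
  simp only [hf, sub_eq_zero] at this
  exact this

/-! ### The first derivatives -/

noncomputable def T1 (p : ℂ × ℂ) : ℂ := -(1 / (2 * π)) * Lg (2 * π * dl p.1 p.2) p.1

noncomputable def T2 (p : ℂ × ℂ) : ℂ := -(1 / (2 * π)) * Lg (2 * π * dl p.1 p.2) p.2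

lemma base_ne (η : ℝ) : (((Real.cos (u0 η / 2) * Real.cosh (η / 2) : ℝ) : ℂ) -
      ((Real.sin (u0 η / 2) * Real.sinh (η / 2) : ℝ) : ℂ) * Complex.I) ≠ 0 := by
  intro h
  have h1 := congrArg Complex.re h
  have hc := cos_half_pos η
  have hT := Real.one_le_cosh (η / 2)
  have : 0 < Real.cos (u0 η / 2) * Real.cosh (η / 2) := by positivity
  simp only [Complex.sub_re, Complex.ofReal_re, Complex.mul_re, Complex.I_re, mul_zero,
    Complex.ofReal_im, Complex.I_im, mul_one, sub_self, sub_zero, Complex.zero_re] at h1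
  linarith

lemma base_ne' (η : ℝ) : (((Real.cos (u0 η / 2) * Real.cosh (η / 2) : ℝ) : ℂ) +
      ((Real.sin (u0 η / 2) * Real.sinh (η / 2) : ℝ) : ℂ) * Complex.I) ≠ 0 := by
  intro h
  have h1 := congrArg Complex.re h
  have hc := cos_half_pos η
  have hT := Real.one_le_cosh (η / 2)
  have : 0 < Real.cos (u0 η / 2) * Real.cosh (η / 2) := by positivity
  simp only [Complex.add_re, Complex.ofReal_re, Complex.mul_re, Complex.I_re, mul_zero,
    Complex.ofReal_im, Complex.I_im, mul_one, sub_self, add_zero, Complex.zero_re] at h1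
  linarith

lemma cos_u_zero (η : ℝ) : Complex.cos (((u0 η : ℝ) : ℂ) / 2) =
    ((Real.cos (u0 η / 2) : ℝ) : ℂ) := by
  rw [Complex.ofReal_cos]
  push_cast
  rfl

lemma cos_u_ne (η : ℝ) : Complex.cos (((u0 η : ℝ) : ℂ) / 2) ≠ 0 := by
  rw [cos_u_zero]
  exact_mod_cast (cos_half_pos η).ne'

lemma T1_an (η : ℝ) : AnalyticAt ℂ T1 (p0 η) := by
  unfold T1 Lg
  have hu : AnalyticAt ℂ (fun p : ℂ × ℂ => 2 * π * dl p.1 p.2) (p0 η) :=
    analyticAt_const.mul (dl_an' η)
  have h1 : AnalyticAt ℂ (fun p : ℂ × ℂ => Complex.cos ((2 * π * dl p.1 p.2 - p.1) / 2)) (p0 η) :=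
    Complex.analyticAt_cos.fun_comp
      ((hu.sub analyticAt_fst).div analyticAt_const (by norm_num))
  have h2 : AnalyticAt ℂ (fun p : ℂ × ℂ => Complex.cos ((2 * π * dl p.1 p.2 + p.1) / 2)) (p0 η) :=
    Complex.analyticAt_cos.fun_comp
      ((hu.add analyticAt_fst).div analyticAt_const (by norm_num))
  have v1 : Complex.cos ((2 * π * dl (p0 η).1 (p0 η).2 - (p0 η).1) / 2) =
      Complex.cos (((u0 η : ℝ) : ℂ) / 2) := by
    rw [twopi_dl_base, p0_fst, sub_zero]
  have v2 : Complex.cos ((2 * π * dl (p0 η).1 (p0 η).2 + (p0 η).1) / 2) =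
      Complex.cos (((u0 η : ℝ) : ℂ) / 2) := by
    rw [twopi_dl_base, p0_fst, add_zero]
  apply analyticAt_const.mul
  apply AnalyticAt.clog (h1.fun_div h2 (by rw [v2]; exact cos_u_ne η))
  rw [v1, v2, div_self (cos_u_ne η)]
  left; norm_num

lemma T2_an (η : ℝ) : AnalyticAt ℂ T2 (p0 η) := by
  unfold T2 Lg
  have hu : AnalyticAt ℂ (fun p : ℂ × ℂ => 2 * π * dl p.1 p.2) (p0 η) :=
    analyticAt_const.mul (dl_an' η)
  have h1 : AnalyticAt ℂ (fun p : ℂ × ℂ => Complex.cos ((2 * π * dl p.1 p.2 - p.2) / 2)) (p0 η) :=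
    Complex.analyticAt_cos.fun_comp
      ((hu.sub analyticAt_snd).div analyticAt_const (by norm_num))
  have h2 : AnalyticAt ℂ (fun p : ℂ × ℂ => Complex.cos ((2 * π * dl p.1 p.2 + p.2) / 2)) (p0 η) :=
    Complex.analyticAt_cos.fun_comp
      ((hu.add analyticAt_snd).div analyticAt_const (by norm_num))
  have v1 : Complex.cos ((2 * π * dl (p0 η).1 (p0 η).2 - (p0 η).2) / 2) =
      ((Real.cos (u0 η / 2) * Real.cosh (η / 2) : ℝ) : ℂ) +
        ((Real.sin (u0 η / 2) * Real.sinh (η / 2) : ℝ) : ℂ) * Complex.I := by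
    rw [twopi_dl_base, p0_snd, cosI']
  have v2 : Complex.cos ((2 * π * dl (p0 η).1 (p0 η).2 + (p0 η).2) / 2) =
      ((Real.cos (u0 η / 2) * Real.cosh (η / 2) : ℝ) : ℂ) -
        ((Real.sin (u0 η / 2) * Real.sinh (η / 2) : ℝ) : ℂ) * Complex.I := by
    rw [twopi_dl_base, p0_snd, cosI]
  apply analyticAt_const.mul
  apply AnalyticAt.clog (h1.fun_div h2 (by rw [v2]; exact base_ne η))
  rw [v1, v2]
  have hc := cos_half_pos η
  have hT := Real.one_le_cosh (η / 2)
  exact slit_ratio (by positivity)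

lemma slice1 {F : ℂ × ℂ → ℂ} (p : ℂ × ℂ) (hp : DifferentiableAt ℂ F p) :
    HasDerivAt (fun z => F (z, p.2)) (fderiv ℂ F p (1, 0)) p.1 := by
  have h1 : HasDerivAt (fun z : ℂ => ((z, p.2) : ℂ × ℂ)) (1, 0) p.1 :=
    (hasDerivAt_id p.1).prodMk (hasDerivAt_const p.1 p.2)
  exact HasFDerivAt.comp_hasDerivAt (x := p.1) (f := fun z : ℂ => ((z, p.2) : ℂ × ℂ)) (l := F)
    hp.hasFDerivAt h1

lemma slice2 {F : ℂ × ℂ → ℂ} (p : ℂ × ℂ) (hp : DifferentiableAt ℂ F p) :
    HasDerivAt (fun z => F (p.1, z)) (fderiv ℂ F p (0, 1)) p.2 := by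
  have h1 : HasDerivAt (fun z : ℂ => ((p.1, z) : ℂ × ℂ)) (0, 1) p.2 :=
    (hasDerivAt_const p.2 p.1).prodMk (hasDerivAt_id p.2)
  exact HasFDerivAt.comp_hasDerivAt (x := p.2) (f := fun z : ℂ => ((p.1, z) : ℂ × ℂ)) (l := F)
    hp.hasFDerivAt h1

/-- derivative of `Lg (u z) z` -/
lemma Lg_comp {u : ℂ → ℂ} {u' z : ℂ} (hu : HasDerivAt u u' z)
    (h1 : Complex.cos ((u z + z) / 2) ≠ 0) (h2 : Complex.cos ((u z - z) / 2) ≠ 0)
    (h3 : Complex.cos ((u z - z) / 2) / Complex.cos ((u z + z) / 2) ∈ Complex.slitPlane) :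
    HasDerivAt (fun z => Lg (u z) z)
      ((u' * Complex.sin z + Complex.sin (u z)) / (Complex.cos (u z) + Complex.cos z)) z := by
  have d1 : HasDerivAt (fun z : ℂ => Complex.cos ((u z - z) / 2))
      (-Complex.sin ((u z - z) / 2) * ((u' - 1) / 2)) z :=
    ((hu.sub (hasDerivAt_id z)).div_const 2).ccos
  have d2 : HasDerivAt (fun z : ℂ => Complex.cos ((u z + z) / 2))
      (-Complex.sin ((u z + z) / 2) * ((u' + 1) / 2)) z :=
    ((hu.add (hasDerivAt_id z)).div_const 2).ccos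
  have d3 := (d1.fun_div d2 h1).clog h3
  have e1 : Complex.sin (u z) = Complex.sin ((u z - z) / 2) * Complex.cos ((u z + z) / 2) +
      Complex.cos ((u z - z) / 2) * Complex.sin ((u z + z) / 2) := by
    rw [← Complex.sin_add]; congr 1; ring
  have e3 : Complex.sin z = Complex.sin ((u z + z) / 2) * Complex.cos ((u z - z) / 2) -
      Complex.cos ((u z + z) / 2) * Complex.sin ((u z - z) / 2) := by
    rw [← Complex.sin_sub]; congr 1; ring
  have e2 : Complex.cos (u z) + Complex.cos z =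
      2 * Complex.cos ((u z - z) / 2) * Complex.cos ((u z + z) / 2) := by
    have a1 : Complex.cos (u z) = Complex.cos ((u z - z) / 2 + (u z + z) / 2) := by
      congr 1; ring
    have a2 : Complex.cos z = Complex.cos ((u z + z) / 2 - (u z - z) / 2) := by congr 1; ring
    rw [a1, a2, Complex.cos_add, Complex.cos_sub]; ring
  change HasDerivAt (fun t => Complex.log (Complex.cos ((u t - t) / 2) / Complex.cos ((u t + t) / 2)))
    _ z
  convert d3 using 1
  rw [e2, e3, e1]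
  field_simp
  ring

lemma T1_conc_base (η : ℝ) : (fderiv ℂ T1 (p0 η) (1, 0)).re < 0 := by
  have h1 := slice1 (p0 η) (T1_an η).differentiableAt
  have hu : DifferentiableAt ℂ (fun z => 2 * (π : ℂ) * dl z (η * Complex.I)) 0 := by
    have := slice1 (F := fun p : ℂ × ℂ => dl p.1 p.2) (p0 η) (dl_an' η).differentiableAt
    exact (this.differentiableAt).const_mul _
  have hb : 2 * (π : ℂ) * dl 0 (η * Complex.I) = ((u0 η : ℝ) : ℂ) := twopi_dl_base η
  have h2 := Lg_comp hu.hasDerivAt (by rw [hb, add_zero]; exact cos_u_ne η)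
    (by rw [hb, sub_zero]; exact cos_u_ne η)
    (by rw [hb, sub_zero, add_zero, div_self (cos_u_ne η)]; left; norm_num)
  have h3 := h2.const_mul (-(1 / (2 * π)) : ℂ)
  have h4 : fderiv ℂ T1 (p0 η) (1, 0) = -(1 / (2 * π)) *
      ((deriv (fun z => 2 * (π : ℂ) * dl z (η * Complex.I)) 0 * Complex.sin 0 +
        Complex.sin (2 * π * dl 0 (η * Complex.I))) /
        (Complex.cos (2 * π * dl 0 (η * Complex.I)) + Complex.cos 0)) := h1.unique h3
  have h5 : fderiv ℂ T1 (p0 η) (1, 0) =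
      ((-(1 / (2 * π)) * (Real.sin (u0 η) / (cz η + 1)) : ℝ) : ℂ) := by
    rw [h4, hb, Complex.sin_zero, mul_zero, zero_add, Complex.cos_zero, ← Complex.ofReal_cos,
      ← Complex.ofReal_sin, cos_u0]
    push_cast
    ring
  rw [h5, Complex.ofReal_re]
  have hs := sin_u0_pos η
  have := cz_gt η
  have h6 : 0 < Real.sin (u0 η) / (cz η + 1) := div_pos hs (by linarith)
  have h7 : 0 < 1 / (2 * π) := by positivity
  nlinarith

lemma T2_conc_base (η : ℝ) : (fderiv ℂ T2 (p0 η) (0, 1)).re < 0 := by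
  have h1 := slice2 (p0 η) (T2_an η).differentiableAt
  have hsl := slice2 (F := fun p : ℂ × ℂ => dl p.1 p.2) (p0 η) (dl_an' η).differentiableAt
  have hu : DifferentiableAt ℂ (fun z => 2 * (π : ℂ) * dl 0 z) (η * Complex.I) :=
    (hsl.differentiableAt).const_mul _
  have hb : 2 * (π : ℂ) * dl 0 (η * Complex.I) = ((u0 η : ℝ) : ℂ) := twopi_dl_base η
  set u' : ℂ := deriv (fun z => 2 * (π : ℂ) * dl 0 z) (η * Complex.I) with hu'
  have hc := cos_half_pos η
  have hT := Real.one_le_cosh (η / 2)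
  have h2 := Lg_comp hu.hasDerivAt (by rw [hb, cosI]; exact base_ne η)
    (by rw [hb, cosI']; exact base_ne' η)
    (by rw [hb, cosI, cosI']; exact slit_ratio (by positivity))
  rw [← hu'] at h2
  have h3 := h2.const_mul (-(1 / (2 * π)) : ℂ)
  have h4 : fderiv ℂ T2 (p0 η) (0, 1) = -(1 / (2 * π)) *
      ((u' * Complex.sin (η * Complex.I) + Complex.sin (2 * π * dl 0 (η * Complex.I))) /
        (Complex.cos (2 * π * dl 0 (η * Complex.I)) + Complex.cos (η * Complex.I))) :=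
    h1.unique h3
  -- the derivative of `2 π dl`
  have hch := Real.one_le_cosh η
  have hden : (3 + Complex.cos (η * Complex.I) : ℂ) ≠ 0 := by
    rw [cos_eI]
    have h : (3 + ((Real.cosh η : ℝ) : ℂ) : ℂ) = ((3 + Real.cosh η : ℝ) : ℂ) := by
      push_cast; ring
    rw [h]
    exact_mod_cast (by linarith : (3 + Real.cosh η : ℝ) ≠ 0)
  have k1 : HasDerivAt (fun z => Complex.cos (2 * (π : ℂ) * dl 0 z))
      (-Complex.sin (2 * π * dl 0 (η * Complex.I)) * u') (η * Complex.I) :=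
    (hu.hasDerivAt).ccos
  have k2 : HasDerivAt (fun z : ℂ => (1 - Complex.cos z) / (3 + Complex.cos z))
      (4 * Complex.sin (η * Complex.I) / (3 + Complex.cos (η * Complex.I)) ^ 2)
      (η * Complex.I) := by
    have a1 : HasDerivAt (fun z : ℂ => 1 - Complex.cos z) (Complex.sin (η * Complex.I))
        (η * Complex.I) := by
      have := (Complex.hasDerivAt_cos (η * Complex.I : ℂ)).const_sub 1
      simpa using this
    have a2 : HasDerivAt (fun z : ℂ => 3 + Complex.cos z) (-Complex.sin (η * Complex.I))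
        (η * Complex.I) := (Complex.hasDerivAt_cos (η * Complex.I : ℂ)).const_add 3
    refine (a1.fun_div a2 hden).congr_deriv ?_
    field_simp
    ring
  have k3 : (fun z => Complex.cos (2 * (π : ℂ) * dl 0 z)) =ᶠ[𝓝 (η * Complex.I : ℂ)]
      fun z : ℂ => (1 - Complex.cos z) / (3 + Complex.cos z) := by
    have hcont : ContinuousAt (fun z : ℂ => ((0 : ℂ), z)) (η * Complex.I) := by fun_prop
    have := hcont.eventually (dcos_ev' η)
    filter_upwards [this] with z hz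
    rw [hz, WW]
    simp only
    rw [Complex.cos_zero]
    ring
  have k4 : -Complex.sin (2 * π * dl 0 (η * Complex.I)) * u' =
      4 * Complex.sin (η * Complex.I) / (3 + Complex.cos (η * Complex.I)) ^ 2 :=
    (k1.congr_of_eventuallyEq k3.symm).unique k2
  rw [hb, ← Complex.ofReal_sin, cos_eI, Complex.sin_mul_I, ← Complex.ofReal_sinh] at k4
  have hs0 := sin_u0_pos η
  have hs0C : ((Real.sin (u0 η) : ℝ) : ℂ) ≠ 0 := by exact_mod_cast hs0.ne'
  have h3C : ((3 : ℂ) + ((Real.cosh η : ℝ) : ℂ)) ≠ 0 := by rwa [cos_eI] at hden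
  have k5 : u' = -(4 * (((Real.sinh η : ℝ) : ℂ) * Complex.I)) /
      ((3 + ((Real.cosh η : ℝ) : ℂ)) ^ 2 * ((Real.sin (u0 η) : ℝ) : ℂ)) := by
    rw [eq_div_iff (mul_ne_zero (pow_ne_zero 2 h3C) hs0C)]
    rw [eq_div_iff (pow_ne_zero 2 h3C)] at k4
    linear_combination -k4
  have k6 : u' * Complex.sin (η * Complex.I) =
      ((4 * Real.sinh η ^ 2 / ((3 + Real.cosh η) ^ 2 * Real.sin (u0 η)) : ℝ) : ℂ) := by
    rw [k5, Complex.sin_mul_I, ← Complex.ofReal_sinh]
    push_cast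
    have hI := Complex.I_sq
    rw [div_mul_eq_mul_div]
    congr 1
    linear_combination (-(4 * Complex.sinh (η : ℂ) ^ 2)) * hI
  have h5 : fderiv ℂ T2 (p0 η) (0, 1) =
      ((-(1 / (2 * π)) * ((4 * Real.sinh η ^ 2 / ((3 + Real.cosh η) ^ 2 * Real.sin (u0 η)) +
        Real.sin (u0 η)) / (cz η + Real.cosh η)) : ℝ) : ℂ) := by
    rw [h4, k6, hb, ← Complex.ofReal_cos, ← Complex.ofReal_sin, cos_u0, cos_eI]
    push_cast
    ring
  rw [h5, Complex.ofReal_re]
  have := cz_gt η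
  have h6 : 0 < (4 * Real.sinh η ^ 2 / ((3 + Real.cosh η) ^ 2 * Real.sin (u0 η)) +
        Real.sin (u0 η)) / (cz η + Real.cosh η) := by
    apply div_pos _ (by linarith)
    positivity
  have h7 : 0 < 1 / (2 * π) := by positivity
  nlinarith

end Pool.Agent.TH822.Z
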