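import Pool.Agent.TH822.Z2

/-!
# Job Z-SD, part 3: all local properties near `(0, i η)`
-/

set_option autoImplicit false

namespace Pool.Agent.TH822.Z

open Filter Topology Metric Set
open scoped Real
open Pool.Agent.W711.HT (rrF ssF Lg bet Rc)
open Pool.Agent.W177.HT (WW aa dl ss ss_neg dl_neg rrF_comp ss_diff)

/-- derivatives of the limit functions -/
theorem rrdz (η : ℝ) : ∃ ρ : ℝ, 0 < ρ ∧
  DifferentiableOn ℂ (fun p : ℂ × ℂ => rrF p.1 p.2) (ball (dd η : ℂ) ρ ×ˢ ball 0 ρ) ∧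
  DifferentiableOn ℂ (fun p : ℂ × ℂ => rrF p.1 p.2)
    (ball (dd η : ℂ) ρ ×ˢ ball (η * Complex.I) ρ) ∧
  DifferentiableOn ℂ ssF (ball (dd η : ℂ) ρ) ∧
  (∀ δ ∈ ball (dd η : ℂ) ρ, (∀ ψ ∈ ball (0 : ℂ) ρ ∪ ball (η * Complex.I) ρ,
    HasDerivAt (fun z => rrF z ψ)
      (Complex.log (2 * Complex.cos ψ + 2 * Complex.cos (2 * π * δ))) δ ∧
    HasDerivAt (fun z => rrF δ z) (-(1 / (2 * π)) * Lg (2 * π * δ) ψ) ψ) ∧
    HasDerivAt ssF (Complex.log (2 * Complex.sin (π * δ))) δ) := by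
  obtain ⟨ρ₁, hρ₁, hR1, hS1, hD1, hS1'⟩ := derivs (dd η) 0 (dd_pos η) (dd_lt η)
  obtain ⟨ρ₂, hρ₂, hR2, -, hD2, -⟩ := derivs (dd η) η (dd_pos η) (dd_lt η)
  simp only [Complex.ofReal_zero, zero_mul] at hR1 hD1
  have i1 : min ρ₁ ρ₂ ≤ ρ₁ := min_le_left _ _
  have i2 : min ρ₁ ρ₂ ≤ ρ₂ := min_le_right _ _
  refine ⟨min ρ₁ ρ₂, lt_min hρ₁ hρ₂, ?_, ?_, ?_, ?_⟩
  · exact hR1.mono (prod_mono (ball_subset_ball i1) (ball_subset_ball i1))
  · exact hR2.mono (prod_mono (ball_subset_ball i2) (ball_subset_ball i2))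
  · exact hS1.mono (ball_subset_ball i1)
  · intro δ hδ
    refine ⟨?_, hS1' δ (ball_subset_ball i1 hδ)⟩
    rintro ψ (hψ | hψ)
    · exact hD1 δ (ball_subset_ball i1 hδ) ψ (ball_subset_ball i1 hψ)
    · exact hD2 δ (ball_subset_ball i2 hδ) ψ (ball_subset_ball i2 hψ)

lemma ev_ball' {η : ℝ} {P : ℂ × ℂ → Prop} (h : ∀ᶠ p in 𝓝 (p0 η), P p) :
    ∃ r : ℝ, 0 < r ∧ ∀ z w : ℂ, ‖z‖ < r → ‖w - η * Complex.I‖ < r → P (z, w) := by
  rw [Metric.eventually_nhds_iff_ball] at h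
  obtain ⟨r, hr, h⟩ := h
  refine ⟨r, hr, fun z w hz hw => h (z, w) ?_⟩
  unfold p0
  rw [← ball_prod_same]
  exact ⟨by simpa using hz, by simpa [dist_eq_norm] using hw⟩

/-- a differentiable function is Lipschitz at the base point -/
lemma lip_ev {η : ℝ} {F : ℂ × ℂ → ℂ} (h : DifferentiableAt ℂ F (p0 η)) :
    ∃ C : ℝ, 0 < C ∧ ∀ᶠ p in 𝓝 (p0 η),
      ‖F p - F (p0 η)‖ ≤ C * (‖p.1‖ + ‖p.2 - η * Complex.I‖) := by
  obtain ⟨C, hC, h1⟩ := h.isBigO_sub.exists_pos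
  refine ⟨C, hC, ?_⟩
  filter_upwards [h1.bound] with p hp
  refine hp.trans (mul_le_mul_of_nonneg_left ?_ hC.le)
  have : p - p0 η = (p.1, p.2 - η * Complex.I) := by
    unfold p0
    ext <;> simp
  rw [this, Prod.norm_mk]
  exact max_le (by linarith [norm_nonneg (p.2 - η * Complex.I)]) (by linarith [norm_nonneg p.1])

/-- everything -/
theorem local_facts (η : ℝ) : ∃ r₀ c C : ℝ, 0 < r₀ ∧ 0 < c ∧ 0 < C ∧
    ∀ z w : ℂ, ‖z‖ < r₀ → ‖w - η * Complex.I‖ < r₀ →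
      DifferentiableAt ℂ (fun p : ℂ × ℂ => dl p.1 p.2) (z, w) ∧
      DifferentiableAt ℂ (fun p : ℂ × ℂ => ss p.1 p.2) (z, w) ∧
      ‖ss z w‖ ≤ C ∧
      ‖ss z w - ss 0 (η * Complex.I)‖ ≤ C * (‖z‖ + ‖w - η * Complex.I‖) ∧
      ‖dl z w - dl 0 (η * Complex.I)‖ ≤ C * (‖z‖ + ‖w - η * Complex.I‖) ∧
      HasDerivAt (fun x => ss x w) (T1 (z, w)) z ∧
      HasDerivAt (fun x => ss z x) (T2 (z, w)) w ∧
      (deriv (deriv fun x => ss x w) z).re ≤ -c ∧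
      (deriv (deriv fun x => ss z x) w).re ≤ -c ∧
      Complex.cos (2 * π * dl z w) = WW (z, w) ∧
      Complex.log (2 * Complex.cos z + 2 * Complex.cos (2 * π * dl z w)) +
        Complex.log (2 * Complex.cos w + 2 * Complex.cos (2 * π * dl z w)) =
        4 * Complex.log (2 * Complex.sin (π * dl z w)) := by
  obtain ⟨ρ, hρ, hR, hR', hS, hD⟩ := rrdz η
  have cdl : ContinuousAt (fun p : ℂ × ℂ => dl p.1 p.2) (p0 η) := (dl_an' η).continuousAt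
  have e1 : ∀ᶠ p : ℂ × ℂ in 𝓝 (p0 η), dl p.1 p.2 ∈ ball (dd η : ℂ) ρ := by
    apply cdl.eventually_mem
    rw [dl_base']; exact Metric.ball_mem_nhds _ hρ
  have e2 : ∀ᶠ p : ℂ × ℂ in 𝓝 (p0 η), p.1 ∈ ball (0 : ℂ) ρ := by
    apply (continuous_fst.continuousAt (x := p0 η)).eventually_mem
    exact Metric.ball_mem_nhds _ hρ
  have e3 : ∀ᶠ p : ℂ × ℂ in 𝓝 (p0 η), p.2 ∈ ball (η * Complex.I : ℂ) ρ := by
    apply (continuous_snd.continuousAt (x := p0 η)).eventually_mem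
    exact Metric.ball_mem_nhds _ hρ
  have e4 : ∀ᶠ p : ℂ × ℂ in 𝓝 (p0 η), DifferentiableAt ℂ (fun p : ℂ × ℂ => dl p.1 p.2) p :=
    (dl_an' η).eventually_analyticAt.mono fun p hp => hp.differentiableAt
  have e5 : ∀ᶠ p : ℂ × ℂ in 𝓝 (p0 η), DifferentiableAt ℂ T1 p :=
    (T1_an η).eventually_analyticAt.mono fun p hp => hp.differentiableAt
  have e6 : ∀ᶠ p : ℂ × ℂ in 𝓝 (p0 η), DifferentiableAt ℂ T2 p :=
    (T2_an η).eventually_analyticAt.mono fun p hp => hp.differentiableAt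
  have hprod : ∀ δ ∈ ball (dd η : ℂ) ρ, ∀ ψ ∈ ball (0 : ℂ) ρ,
      DifferentiableAt ℂ (fun p : ℂ × ℂ => rrF p.1 p.2) (δ, ψ) := by
    intro δ hδ ψ hψ
    exact (hR (δ, ψ) ⟨hδ, hψ⟩).differentiableAt
      ((isOpen_ball.prod isOpen_ball).mem_nhds ⟨hδ, hψ⟩)
  have hprod' : ∀ δ ∈ ball (dd η : ℂ) ρ, ∀ ψ ∈ ball (η * Complex.I : ℂ) ρ,
      DifferentiableAt ℂ (fun p : ℂ × ℂ => rrF p.1 p.2) (δ, ψ) := by
    intro δ hδ ψ hψ
    exact (hR' (δ, ψ) ⟨hδ, hψ⟩).differentiableAt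
      ((isOpen_ball.prod isOpen_ball).mem_nhds ⟨hδ, hψ⟩)
  have hsing : ∀ δ ∈ ball (dd η : ℂ) ρ, DifferentiableAt ℂ ssF δ := fun δ hδ =>
    (hS δ hδ).differentiableAt (isOpen_ball.mem_nhds hδ)
  have e7 : ∀ᶠ p : ℂ × ℂ in 𝓝 (p0 η), DifferentiableAt ℂ (fun p : ℂ × ℂ => ss p.1 p.2) p := by
    filter_upwards [e1, e2, e3, e4] with p h1 h2 h3 h4
    exact ss_diff p h4 (hprod _ h1 _ h2) (hprod' _ h1 _ h3) (hsing _ h1)
  have e8 : ∀ᶠ p : ℂ × ℂ in 𝓝 (p0 η), ‖ss p.1 p.2‖ < ‖ss (p0 η).1 (p0 η).2‖ + 1 := by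
    have : ContinuousAt (fun p : ℂ × ℂ => ‖ss p.1 p.2‖) (p0 η) :=
      e7.self_of_nhds.continuousAt.norm
    apply this.eventually_lt_const
    simp
  have e9 : ∀ᶠ p : ℂ × ℂ in 𝓝 (p0 η),
      HasDerivAt (fun z => ss z p.2) (T1 (p.1, p.2)) p.1 := by
    filter_upwards [e1, e2, e3, e4, dcrit_ev' η] with p h1 h2 h3 h4 h5
    have hd := slice1 (F := fun p : ℂ × ℂ => dl p.1 p.2) p h4
    set d' := fderiv ℂ (fun p : ℂ × ℂ => dl p.1 p.2) p (1, 0) with hd'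
    obtain ⟨q1, q2⟩ := (hD _ h1).1 _ (Or.inl h2)
    obtain ⟨q4, q5⟩ := (hD _ h1).1 _ (Or.inr h3)
    have q3 := (hD _ h1).2
    have r1 := rrF_comp _ _ _ _ (hprod _ h1 _ h2) q1 q2 (fun z => dl z p.2) (fun z => z) p.1 d' 1
      hd (hasDerivAt_id _) rfl rfl
    have r2 := rrF_comp _ _ _ _ (hprod' _ h1 _ h3) q4 q5 (fun z => dl z p.2) (fun _ => p.2) p.1
      d' 0 hd (hasDerivAt_const _ _) rfl rfl
    have r3 : HasDerivAt (fun z => ssF (dl z p.2))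
      (Complex.log (2 * Complex.sin (π * dl p.1 p.2)) * d') p.1 :=
      HasDerivAt.comp (h₂ := ssF) (h := fun z => dl z p.2) p.1 q3 hd
    have r4 := (r1.add r2).sub (r3.const_mul 4)
    refine r4.congr_deriv ?_
    rw [T1]
    linear_combination d' * h5
  have e9' : ∀ᶠ p : ℂ × ℂ in 𝓝 (p0 η),
      HasDerivAt (fun z => ss p.1 z) (T2 (p.1, p.2)) p.2 := by
    filter_upwards [e1, e2, e3, e4, dcrit_ev' η] with p h1 h2 h3 h4 h5
    have hd := slice2 (F := fun p : ℂ × ℂ => dl p.1 p.2) p h4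
    set d' := fderiv ℂ (fun p : ℂ × ℂ => dl p.1 p.2) p (0, 1) with hd'
    obtain ⟨q1, q2⟩ := (hD _ h1).1 _ (Or.inl h2)
    obtain ⟨q4, q5⟩ := (hD _ h1).1 _ (Or.inr h3)
    have q3 := (hD _ h1).2
    have r1 := rrF_comp _ _ _ _ (hprod _ h1 _ h2) q1 q2 (fun z => dl p.1 z) (fun _ => p.1) p.2
      d' 0 hd (hasDerivAt_const _ _) rfl rfl
    have r2 := rrF_comp _ _ _ _ (hprod' _ h1 _ h3) q4 q5 (fun z => dl p.1 z) (fun z => z) p.2
      d' 1 hd (hasDerivAt_id _) rfl rfl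
    have r3 : HasDerivAt (fun z => ssF (dl p.1 z))
      (Complex.log (2 * Complex.sin (π * dl p.1 p.2)) * d') p.2 :=
      HasDerivAt.comp (h₂ := ssF) (h := fun z => dl p.1 z) p.2 q3 hd
    have r4 := (r1.add r2).sub (r3.const_mul 4)
    refine r4.congr_deriv ?_
    rw [T2]
    linear_combination d' * h5
  obtain ⟨C₁, hC₁, l1⟩ := lip_ev e7.self_of_nhds
  obtain ⟨C₂, hC₂, l2⟩ := lip_ev e4.self_of_nhds
  -- concavity
  set k1 : ℝ := -(fderiv ℂ T1 (p0 η) (1, 0)).re with hk1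
  set k2 : ℝ := -(fderiv ℂ T2 (p0 η) (0, 1)).re with hk2
  have k1pos : 0 < k1 := by have := T1_conc_base η; rw [hk1]; linarith
  have k2pos : 0 < k2 := by have := T2_conc_base η; rw [hk2]; linarith
  set c : ℝ := min k1 k2 / 2 with hc
  have hc0 : 0 < c := by
    have := lt_min k1pos k2pos
    positivity
  have c1 : c < k1 := by
    have : min k1 k2 ≤ k1 := min_le_left _ _
    rw [hc]; linarith [lt_min k1pos k2pos]
  have c2 : c < k2 := by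
    have : min k1 k2 ≤ k2 := min_le_right _ _
    rw [hc]; linarith [lt_min k1pos k2pos]
  have f1 : ∀ᶠ p : ℂ × ℂ in 𝓝 (p0 η), (fderiv ℂ T1 p (1, 0)).re < -c := by
    have h1 : ContinuousAt (fun p : ℂ × ℂ => (fderiv ℂ T1 p (1, 0)).re) (p0 η) := by
      have := (T1_an η).fderiv.continuousAt
      exact Complex.continuous_re.continuousAt.comp' (this.clm_apply continuousAt_const)
    apply h1.eventually_lt_const
    rw [hk1] at c1
    linarith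
  have f2 : ∀ᶠ p : ℂ × ℂ in 𝓝 (p0 η), (fderiv ℂ T2 p (0, 1)).re < -c := by
    have h1 : ContinuousAt (fun p : ℂ × ℂ => (fderiv ℂ T2 p (0, 1)).re) (p0 η) := by
      have := (T2_an η).fderiv.continuousAt
      exact Complex.continuous_re.continuousAt.comp' (this.clm_apply continuousAt_const)
    apply h1.eventually_lt_const
    rw [hk2] at c2
    linarith
  obtain ⟨r₀, hr₀, H⟩ := ev_ball' (e4.and (e7.and (e8.and (l1.and (l2.and (e9.and (e9'.and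
    (f1.and (f2.and (e5.and (e6.and ((dcos_ev' η).and (dcrit_ev' η)))))))))))))
  refine ⟨r₀, c, ‖ss (p0 η).1 (p0 η).2‖ + 1 + C₁ + C₂, hr₀, hc0, by positivity, ?_⟩
  intro z w hz hw
  obtain ⟨h1, h2, h3, h4, h5, h6, h7, h8, h9, h10, h11, h12, h13⟩ := H z w hz hw
  simp only at h3 h4 h5 h6 h7 h13
  have hn := norm_nonneg (ss (p0 η).1 (p0 η).2)
  have hs : 0 ≤ ‖z‖ + ‖w - η * Complex.I‖ := by positivity
  refine ⟨h1, h2, by linarith, ?_, ?_, h6, h7, ?_, ?_, h12, h13⟩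
  · refine h4.trans (mul_le_mul_of_nonneg_right (by linarith) hs)
  · refine h5.trans (mul_le_mul_of_nonneg_right (by linarith) hs)
  · have g1 : deriv (fun x => ss x w) =ᶠ[𝓝 z] fun x => T1 (x, w) := by
      have : ball (0:ℂ) r₀ ∈ 𝓝 z := isOpen_ball.mem_nhds (by simpa using hz)
      filter_upwards [this] with x hx
      exact (H x w (by simpa using hx) hw).2.2.2.2.2.1.deriv
    rw [g1.deriv_eq, (slice1 (z, w) h10).deriv]
    exact h8.le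
  · have g1 : deriv (fun x => ss z x) =ᶠ[𝓝 w] fun x => T2 (z, x) := by
      have : ball (η * Complex.I : ℂ) r₀ ∈ 𝓝 w :=
        isOpen_ball.mem_nhds (by simpa [dist_eq_norm] using hw)
      filter_upwards [this] with x hx
      exact (H z x hz (by simpa [dist_eq_norm] using hx)).2.2.2.2.2.2.1.deriv
    rw [g1.deriv_eq, (slice2 (z, w) h11).deriv]
    exact h9.le

end Pool.Agent.TH822.Z
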